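import Pool.Agent.Work.MP_54723a_co.PL.Defs

/-!
# Polylogarithmic bound: a large subset without colours of its own labels
-/

set_option autoImplicit false

namespace FlashRainbow.PL

variable {κ : ℕ → ℕ → ℕ} {W : Finset ℕ} {l M : ℕ} {lev : ℕ → ℕ → ℕ}

open Classical in
/-- weight of a vertex for one colour in the random selection -/
noncomputable def cw (h : ℕ → ℕ) (F : ℕ → ℕ → Prop) (l : ℕ) (p : ℝ) (γ v : ℕ) : ℝ :=
  if h v = γ then p / l else if F γ v then 1 - p else 1

open Classical in
/-- random selection of colours and levels, derandomised -/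
theorem ctrick_sel (hl : 1 ≤ l) (h : ℕ → ℕ) (F : ℕ → ℕ → Prop)
    (hlt : ∀ γ, ∀ v ∈ W, lev γ v < l) {p : ℝ} (hp0 : 0 ≤ p) (hp1 : p ≤ 1) (N : ℝ)
    (Γ : Finset ℕ) : ∀ T ⊆ W,
      (∀ T' ⊆ T, (∀ γ ∈ Γ, (∀ v ∈ T', h v ≠ γ) ∨
        ∃ i, ∀ v ∈ T', (h v = γ → lev γ v = i) ∧ (h v ≠ γ → ¬ F γ v)) → (T'.card : ℝ) ≤ N) →
      ∑ v ∈ T, ∏ γ ∈ Γ, cw h F l p γ v ≤ N := by
  induction Γ using Finset.induction_on with
  | empty =>
    intro T _ hT
    simpa using hT T (Finset.Subset.refl _) (by simp)
  | @insert γ Γ hγ ih =>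
    intro T hTW hT
    have hl0 : (0 : ℝ) < l := by exact_mod_cast (by omega : 0 < l)
    set w : ℕ → ℝ := fun v => ∏ γ ∈ Γ, cw h F l p γ v with hw
    set T0 := T.filter (fun v => h v ≠ γ) with hT0
    set Ti : ℕ → Finset ℕ := fun i => T.filter (fun v => (h v = γ → lev γ v = i) ∧
      (h v ≠ γ → ¬ F γ v)) with hTi
    have h0 : ∑ v ∈ T0, w v ≤ N := by
      refine ih T0 ((Finset.filter_subset _ _).trans hTW) ?_
      intro T' hT' hT'2
      refine hT T' (hT'.trans (Finset.filter_subset _ _)) ?_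
      intro γ' hγ'
      rcases Finset.mem_insert.mp hγ' with rfl | hγ'
      · exact Or.inl fun v hv => (Finset.mem_filter.mp (hT' hv)).2
      · exact hT'2 γ' hγ'
    have hi : ∀ i, ∑ v ∈ Ti i, w v ≤ N := by
      intro i
      refine ih (Ti i) ((Finset.filter_subset _ _).trans hTW) ?_
      intro T' hT' hT'2
      refine hT T' (hT'.trans (Finset.filter_subset _ _)) ?_
      intro γ' hγ'
      rcases Finset.mem_insert.mp hγ' with rfl | hγ'
      · exact Or.inr ⟨i, fun v hv => (Finset.mem_filter.mp (hT' hv)).2⟩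
      · exact hT'2 γ' hγ'
    have hsum : ∑ v ∈ T, ∏ γ' ∈ insert γ Γ, cw h F l p γ' v =
        (1 - p) * ∑ v ∈ T0, w v + (p / l) * ∑ i ∈ Finset.range l, ∑ v ∈ Ti i, w v := by
      simp only [hT0, hTi, Finset.sum_filter, Finset.mul_sum]
      rw [Finset.sum_comm, ← Finset.sum_add_distrib]
      refine Finset.sum_congr rfl fun v hv => ?_
      rw [Finset.prod_insert hγ]
      by_cases h1 : h v = γ
      · have h2 : lev γ v ∈ Finset.range l := Finset.mem_range.mpr (hlt γ v (hTW hv))
        rw [Finset.sum_eq_single_of_mem _ h2]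
        · simp [cw, h1, hw]
        · intro i _ hne
          rw [if_neg]
          · simp
          · rintro ⟨h3, _⟩
            exact hne (h3 h1).symm
      · by_cases h2 : F γ v
        · simp [cw, h1, h2, hw]
        · simp only [cw, h1, h2, hw, not_false_eq_true, if_true, if_false, false_imp_iff,
            forall_true_left, and_true, ne_eq, Finset.sum_const, Finset.card_range,
            nsmul_eq_mul]
          field_simp
          ring
    rw [hsum]
    have h1 : (1 - p) * ∑ v ∈ T0, w v ≤ (1 - p) * N := mul_le_mul_of_nonneg_left h0 (by linarith)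
    have h2 : ∑ i ∈ Finset.range l, ∑ v ∈ Ti i, w v ≤ l * N := by
      refine (Finset.sum_le_sum fun i _ => hi i).trans ?_
      simp
    have h3 : (p / l) * ∑ i ∈ Finset.range l, ∑ v ∈ Ti i, w v ≤ (p / l) * (l * N) :=
      mul_le_mul_of_nonneg_left h2 (by positivity)
    have h4 : (p / l) * (l * N) = p * N := by field_simp
    linarith

/-- one label per vertex: no pair of `W'` has a colour which is a label of a vertex of `W'` -/
theorem ctrick (hκ : ∀ x y, κ x y = κ y x) (hl : 1 ≤ l) (hL : LevS κ W l lev)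
    (hM : ∀ v ∈ W, (Tch κ W v).card ≤ M) (h : ℕ → ℕ) :
    ∃ W' ⊆ W, W.card ≤ 4 * (M + 1) * l * W'.card ∧ ∀ w ∈ W', Free κ W' {h w} := by
  classical
  by_contra hcon
  push Not at hcon
  rcases W.eq_empty_or_nonempty with hW | hW
  · obtain ⟨w, hw, _⟩ := hcon ∅ (Finset.empty_subset _) (by simp [hW])
    simp at hw
  have hl0 : (0 : ℝ) < l := by exact_mod_cast (by omega : 0 < l)
  have hM0 : (0 : ℝ) < M + 1 := by positivity
  set p : ℝ := 1 / (2 * (M + 1)) with hp
  have hp0 : 0 < p := by positivity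
  have hp1 : p ≤ 1 := by
    rw [hp, div_le_one (by positivity)]
    have : (0 : ℝ) ≤ M := Nat.cast_nonneg M
    linarith
  set c : ℝ := 4 * (M + 1) * l with hc
  have hc0 : 0 < c := by positivity
  have hsel := ctrick_sel (lev := lev) hl h (fun γ v => γ ∈ Tch κ W v) hL.1 hp0.le hp1
    (((W.card : ℝ) - 1) / c) (W.image h) W (Finset.Subset.refl _) (by
      intro T' hT' hT'2
      rw [le_div_iff₀ hc0]
      by_contra hlt
      rw [not_le] at hlt
      have h1 : W.card ≤ 4 * (M + 1) * l * T'.card := by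
        have : (W.card : ℝ) < 4 * (M + 1) * l * T'.card + 1 := by
          rw [hc] at hlt
          linarith
        have h2 : W.card < 4 * (M + 1) * l * T'.card + 1 := by exact_mod_cast this
        omega
      obtain ⟨w, hw, hnf⟩ := hcon T' hT' h1
      apply hnf
      intro u hu v hv huv hcol
      rw [Finset.mem_singleton] at hcol
      rcases hT'2 (h w) (Finset.mem_image_of_mem h (hT' hw)) with h2 | ⟨i, hi⟩
      · exact h2 w hw rfl
      · have h3 : h w ∈ Tch κ W u := mem_Tch.mpr ⟨v, hT' hv, huv.symm, hcol⟩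
        have h4 : h w ∈ Tch κ W v := mem_Tch.mpr ⟨u, hT' hu, huv, by rw [hκ v u]; exact hcol⟩
        have h5 : h u = h w := by
          by_contra hne
          exact (hi u hu).2 hne h3
        have h6 : h v = h w := by
          by_contra hne
          exact (hi v hv).2 hne h4
        have h7 := hL.2 u (hT' hu) v (hT' hv) huv
        rw [hcol, (hi u hu).1 h5, (hi v hv).1 h6] at h7
        exact h7 rfl)
  have hlow : ∀ v ∈ W, 1 / c ≤ ∏ γ ∈ W.image h, cw h (fun γ v => γ ∈ Tch κ W v) l p γ v := by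
    intro v hv
    rw [← Finset.mul_prod_erase _ _ (Finset.mem_image_of_mem h hv)]
    have h1 : cw h (fun γ v => γ ∈ Tch κ W v) l p (h v) v = p / l := by simp [cw]
    rw [h1]
    have h2 : ∏ γ ∈ (W.image h).erase (h v), cw h (fun γ v => γ ∈ Tch κ W v) l p γ v =
        (1 - p) ^ (((W.image h).erase (h v)) ∩ Tch κ W v).card := by
      rw [← Finset.prod_const, ← Finset.filter_mem_eq_inter, Finset.prod_filter]
      refine Finset.prod_congr rfl fun γ hγ => ?_
      have h3 : h v ≠ γ := (Finset.ne_of_mem_erase hγ).symm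
      simp [cw, h3]
    rw [h2]
    have h3 : (1 - p) ^ M ≤ (1 - p) ^ (((W.image h).erase (h v)) ∩ Tch κ W v).card :=
      pow_le_pow_of_le_one (by linarith) (by linarith)
        ((Finset.card_le_card Finset.inter_subset_right).trans (hM v hv))
    have h4 : 1 / 2 ≤ (1 - p) ^ M := by
      have h5 := one_add_mul_le_pow (a := -p) (by linarith) M
      have h6 : (M : ℝ) * p ≤ 1 / 2 := by
        rw [hp]
        rw [mul_one_div, div_le_div_iff₀ (by positivity) (by norm_num)]
        linarith
      have h7 : (1 : ℝ) + -p = 1 - p := by ring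
      rw [h7] at h5
      linarith
    calc 1 / c = p / l * (1 / 2) := by
          rw [hc, hp]
          field_simp
          ring
      _ ≤ _ := mul_le_mul_of_nonneg_left (h4.trans h3) (by positivity)
  have h1 : (W.card : ℝ) * (1 / c) ≤ ((W.card : ℝ) - 1) / c := by
    refine le_trans ?_ hsel
    rw [← nsmul_eq_mul, ← Finset.sum_const]
    exact Finset.sum_le_sum hlow
  rw [mul_one_div, div_le_div_iff_of_pos_right hc0] at h1
  linarith

private theorem ctrick_labels_aux (hκ : ∀ x y, κ x y = κ y x) (hl : 1 ≤ l) (hL : LevS κ W l lev)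
    (hM : ∀ v ∈ W, (Tch κ W v).card ≤ M) (k : ℕ) :
    ∀ (K : ℕ → Finset ℕ), (∀ v ∈ W, (K v).card ≤ k) →
    ∃ W' ⊆ W, W.card ≤ (4 * (M + 1) * l) ^ k * W'.card ∧ ∀ w ∈ W', Free κ W' (K w) := by
  classical
  induction k with
  | zero =>
    intro K hK
    refine ⟨W, Finset.Subset.refl _, by simp, ?_⟩
    intro w hw u _ v _ _ hc
    have h1 := hK w hw
    rw [Nat.le_zero, Finset.card_eq_zero] at h1
    rw [h1] at hc
    simp at hc
  | succ k ih =>
    intro K hK
    set h : ℕ → ℕ := fun v => if hne : (K v).Nonempty then hne.choose else 0 with hh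
    obtain ⟨W₁, hW₁, hc₁, hf₁⟩ := ih (fun v => (K v).erase (h v)) (by
      intro v hv
      by_cases hne : (K v).Nonempty
      · have h1 : h v ∈ K v := by
          simp only [hh, dif_pos hne]
          exact hne.choose_spec
        rw [Finset.card_erase_of_mem h1]
        have := hK v hv
        omega
      · rw [Finset.not_nonempty_iff_eq_empty] at hne
        simp [hne])
    obtain ⟨W', hW', hc', hf'⟩ := ctrick (M := M) hκ hl
      (⟨fun γ v hv => hL.1 γ v (hW₁ hv), fun u hu v hv => hL.2 u (hW₁ hu) v (hW₁ hv)⟩ :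
        LevS κ W₁ l lev)
      (fun v hv => (Finset.card_le_card (Tch_mono hW₁ v)).trans (hM v (hW₁ hv))) h
    refine ⟨W', hW'.trans hW₁, ?_, ?_⟩
    · refine hc₁.trans ?_
      rw [pow_succ, mul_assoc ((4 * (M + 1) * l) ^ k)]
      exact Nat.mul_le_mul_left _ hc'
    · intro w hw
      refine Free.mono (((hf₁ w (hW' hw)).mono hW' (Finset.Subset.refl _)).union (hf' w hw))
        (Finset.Subset.refl _) ?_
      intro g hg
      rw [Finset.mem_union, Finset.mem_erase, Finset.mem_singleton]
      by_cases hgh : g = h w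
      · exact Or.inr hgh
      · exact Or.inl ⟨hgh, hg⟩

/-- at most `k` labels per vertex -/
theorem ctrick_labels (hκ : ∀ x y, κ x y = κ y x) (hl : 1 ≤ l) (hL : LevS κ W l lev)
    (hM : ∀ v ∈ W, (Tch κ W v).card ≤ M) (k : ℕ) (K : ℕ → Finset ℕ)
    (hK : ∀ v ∈ W, (K v).card ≤ k) :
    ∃ W' ⊆ W, W.card ≤ (4 * (M + 1) * l) ^ k * W'.card ∧ ∀ w ∈ W', Free κ W' (K w) :=
  ctrick_labels_aux hκ hl hL hM k K hK

end FlashRainbow.PL
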