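import Pool.Agent.Work.MP_54723a_co.PL.Defs

/-!
# Polylogarithmic bound: the cluster lemma (W7)
-/

set_option autoImplicit false

namespace FlashRainbow.PL

variable {κ : ℕ → ℕ → ℕ} {b : Bool} {U W : Finset ℕ} {ρ l M : ℕ} {lev : ℕ → ℕ → ℕ}

private theorem popular {α β : Type} [DecidableEq β] (s : Finset α) (t : Finset β) (f : α → β)
    (hf : ∀ a ∈ s, f a ∈ t) (ht : t.Nonempty) :
    ∃ y ∈ t, s.card ≤ t.card * (s.filter (fun a => f a = y)).card := by
  obtain ⟨y, hy, hmax⟩ := Finset.exists_max_image t (fun y => (s.filter (fun a => f a = y)).card) ht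
  refine ⟨y, hy, ?_⟩
  rw [Finset.card_eq_sum_card_fiberwise (f := f) (t := t) (fun a ha => hf a ha)]
  have h := Finset.sum_le_card_nsmul t (fun y => (s.filter (fun a => f a = y)).card) _ hmax
  rwa [smul_eq_mul] at h

private theorem cl_exists_center (hκ : ∀ x y, κ x y = κ y x) {B : Bool → Finset ℕ}
    {s H τ₀ b₀ : ℕ} {I₀ I₁ : Finset ℕ} (hdisj : Disjoint (B true) (B false))
    (hB : (B b).card ≤ b₀) (hM : ∀ v ∈ U, (Tch κ U v).card ≤ M)
    (h0 : I₀ ⊆ U) (h1 : I₁ ⊆ U) (ho : ∀ x ∈ I₀, ∀ y ∈ I₁, Bf b x y)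
    (hTyp : ∀ y ∈ I₁, Typ κ U (!b) (B (!b)) H y)
    (hNP : ∀ g, g ∉ B b → (NP κ U ρ b s g).card ≤ τ₀)
    (hnum : 2 * (b₀ * H + M * τ₀) ≤ I₀.card) (hne : 0 < I₀.card) :
    ∃ x ∈ I₀, ∃ A ⊆ I₁, I₁.card ≤ 2 * A.card ∧
      ∀ y ∈ A, κ x y ∉ B b ∧ x ∉ NP κ U ρ b s (κ x y) := by
  classical
  have hbd : ∀ g, g ∈ B b → g ∉ B (!b) := by
    intro g hg hg'
    cases b with
    | true => exact (Finset.disjoint_left.1 hdisj) hg hg'
    | false => exact (Finset.disjoint_left.1 hdisj) hg' hg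
  let G : ℕ → ℕ → Prop := fun x y => κ x y ∉ B b ∧ x ∉ NP κ U ρ b s (κ x y)
  have hbad : ∀ y ∈ I₁, (I₀.filter (fun x => ¬ G x y)).card ≤ b₀ * H + M * τ₀ := by
    intro y hy
    have hsub : I₀.filter (fun x => ¬ G x y) ⊆ (B b).biUnion (fun g => Nb κ (!b) U g y) ∪
        ((Tch κ U y) \ B b).biUnion (fun g => NP κ U ρ b s g) := by
      intro x hx
      rw [Finset.mem_filter] at hx
      obtain ⟨hx0, hx⟩ := hx
      have hxy := ho x hx0 y hy
      rw [Finset.mem_union, Finset.mem_biUnion, Finset.mem_biUnion]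
      by_cases hg : κ x y ∈ B b
      · left
        refine ⟨κ x y, hg, ?_⟩
        rw [mem_Nb]
        exact ⟨h0 hx0, Bf_not.2 hxy, hκ y x⟩
      · right
        refine ⟨κ x y, ?_, ?_⟩
        · rw [Finset.mem_sdiff, mem_Tch]
          exact ⟨⟨x, h0 hx0, hxy.ne, hκ y x⟩, hg⟩
        · by_contra hx2
          exact hx ⟨hg, hx2⟩
    refine (Finset.card_le_card hsub).trans ((Finset.card_union_le _ _).trans ?_)
    refine Nat.add_le_add ?_ ?_
    · refine (Finset.card_biUnion_le_card_mul _ _ H fun g hg => hTyp y hy g (hbd g hg)).trans ?_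
      exact Nat.mul_le_mul_right _ hB
    · refine (Finset.card_biUnion_le_card_mul _ _ τ₀ fun g hg => hNP g
        (Finset.mem_sdiff.1 hg).2).trans ?_
      exact Nat.mul_le_mul_right _
        ((Finset.card_le_card Finset.sdiff_subset).trans (hM y (h1 hy)))
  have hgood : ∀ y ∈ I₁, I₀.card ≤ 2 * (I₀.filter (fun x => G x y)).card := by
    intro y hy
    have h2 := Finset.card_filter_add_card_filter_not (s := I₀) (fun x => G x y)
    have h3 := hbad y hy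
    omega
  have hsum : ∑ x ∈ I₀, (I₁.filter (fun y => G x y)).card =
      ∑ y ∈ I₁, (I₀.filter (fun x => G x y)).card :=
    Finset.sum_card_bipartiteAbove_eq_sum_card_bipartiteBelow G
  have h4 : I₁.card * I₀.card ≤ 2 * ∑ x ∈ I₀, (I₁.filter (fun y => G x y)).card := by
    rw [hsum, Finset.mul_sum, ← smul_eq_mul]
    exact Finset.card_nsmul_le_sum _ _ _ hgood
  obtain ⟨x, hx, hx2⟩ : ∃ x ∈ I₀, I₁.card ≤ 2 * (I₁.filter (fun y => G x y)).card := by
    by_contra hcon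
    push Not at hcon
    have h5 : ∑ x ∈ I₀, 2 * (I₁.filter (fun y => G x y)).card < ∑ _x ∈ I₀, I₁.card :=
      Finset.sum_lt_sum_of_nonempty (Finset.card_pos.1 hne) hcon
    rw [← Finset.mul_sum, Finset.sum_const, smul_eq_mul, mul_comm I₀.card] at h5
    omega
  refine ⟨x, hx, I₁.filter (fun y => G x y), Finset.filter_subset _ _, hx2, ?_⟩
  intro y hy
  exact (Finset.mem_filter.1 hy).2

/-- out-length avoiding `P` -/
private def OutL (κ : ℕ → ℕ → ℕ) (b : Bool) (X P : Finset ℕ) (y k : ℕ) : Prop :=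
  ∃ z D, PT κ b X y z D ∧ Disjoint D P ∧ D.card = k

/-- in-length avoiding `P` -/
private def InL (κ : ℕ → ℕ → ℕ) (b : Bool) (X P : Finset ℕ) (y k : ℕ) : Prop :=
  ∃ z D, PT κ b X z y D ∧ Disjoint D P ∧ D.card = k

private theorem cl_split (hκ : ∀ x y, κ x y = κ y x) {s : ℕ} {X P : Finset ℕ} (hX : X ⊆ U)
    (hne : X.Nonempty) (hPI : ∀ y ∈ X, PI κ U ρ b y P) (hP : ρ ≤ P.card + s) :
    ∃ Y ⊆ X, X.card ≤ (s + 1) ^ 2 * Y.card ∧ ∀ v ∈ Y, (Tch κ Y v).card ≤ ρ + 2 * s := by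
  classical
  obtain ⟨x₀, hx₀⟩ := hne
  have hPle : P.card ≤ ρ := (hPI x₀ hx₀).card_le (hX hx₀)
  have hout : ∀ y ∈ X, ∀ k, OutL κ b X P y k → k ≤ s := by
    rintro y hy k ⟨z, D, hD, hd, rfl⟩
    have := hPI y hy z D (hD.mono hX) hd
    omega
  have hin : ∀ y k, InL κ b X P y k → k ≤ s := by
    rintro y k ⟨z, D, hD, hd, rfl⟩
    have := hPI z hD.left y D (hD.mono hX) hd
    omega
  have hout0 : ∀ y ∈ X, OutL κ b X P y 0 := fun y hy =>
    ⟨y, ∅, PT.single hy, Finset.disjoint_empty_left _, rfl⟩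
  have hin0 : ∀ y ∈ X, InL κ b X P y 0 := fun y hy =>
    ⟨y, ∅, PT.single hy, Finset.disjoint_empty_left _, rfl⟩
  let f : ℕ → ℕ × ℕ := fun y =>
    (Nat.findGreatest (OutL κ b X P y) s, Nat.findGreatest (InL κ b X P y) s)
  obtain ⟨c, hc, hcard⟩ := popular X (Finset.range (s + 1) ×ˢ Finset.range (s + 1)) f (by
    intro y hy
    rw [Finset.mem_product, Finset.mem_range, Finset.mem_range]
    exact ⟨Nat.lt_succ_of_le (Nat.findGreatest_le _), Nat.lt_succ_of_le (Nat.findGreatest_le _)⟩)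
    ⟨(0, 0), by simp⟩
  rw [Finset.card_product, Finset.card_range, ← pow_two] at hcard
  refine ⟨X.filter (fun a => f a = c), Finset.filter_subset _ _, hcard, ?_⟩
  intro v hv
  rw [Finset.mem_filter] at hv
  obtain ⟨hvX, hvc⟩ := hv
  obtain ⟨z₁, E, hE, hEd, hEc⟩ : InL κ b X P v (Nat.findGreatest (InL κ b X P v) s) :=
    Nat.findGreatest_spec (Nat.zero_le s) (hin0 v hvX)
  obtain ⟨z₂, D, hD, hDd, hDc⟩ : OutL κ b X P v (Nat.findGreatest (OutL κ b X P v) s) :=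
    Nat.findGreatest_spec (Nat.zero_le s) (hout0 v hvX)
  have hsub : Tch κ (X.filter (fun a => f a = c)) v ⊆ P ∪ (E ∪ D) := by
    intro g hg
    rw [mem_Tch] at hg
    obtain ⟨w, hw, hwv, hg⟩ := hg
    rw [Finset.mem_filter] at hw
    obtain ⟨hwX, hwc⟩ := hw
    have hfw : f w = f v := hwc.trans hvc.symm
    rw [Finset.mem_union, Finset.mem_union]
    by_contra hcon
    push Not at hcon
    obtain ⟨hgP, hgE, hgD⟩ := hcon
    rcases Bf_or b (Ne.symm hwv) with hb | hb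
    · -- `w` after `v`
      have h1 : InL κ b X P w (E.card + 1) := by
        refine ⟨z₁, insert (κ v w) E, PT.snoc hE hwX hb (by rwa [hg]), ?_, ?_⟩
        · rw [Finset.disjoint_insert_left, hg]
          exact ⟨hgP, hEd⟩
        · rw [Finset.card_insert_of_notMem (by rwa [hg])]
      have h2 := Nat.le_findGreatest (hin w _ h1) h1
      have h3 : Nat.findGreatest (InL κ b X P w) s = Nat.findGreatest (InL κ b X P v) s :=
        congrArg Prod.snd hfw
      omega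
    · have hg' : κ w v = g := by rw [hκ w v, hg]
      have h1 : OutL κ b X P w (D.card + 1) := by
        refine ⟨z₂, insert (κ w v) D, hD.cons hwX hb (by rwa [hg']), ?_, ?_⟩
        · rw [Finset.disjoint_insert_left, hg']
          exact ⟨hgP, hDd⟩
        · rw [Finset.card_insert_of_notMem (by rwa [hg'])]
      have h2 := Nat.le_findGreatest (hout w hwX _ h1) h1
      have h3 : Nat.findGreatest (OutL κ b X P w) s = Nat.findGreatest (OutL κ b X P v) s :=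
        congrArg Prod.fst hfw
      omega
  have h1 := Finset.card_le_card hsub
  have h2 := Finset.card_union_le P (E ∪ D)
  have h3 := Finset.card_union_le E D
  have h4 : E.card ≤ s := by rw [hEc]; exact Nat.findGreatest_le _
  have h5 : D.card ≤ s := by rw [hDc]; exact Nat.findGreatest_le _
  omega

theorem cluster (hκ : ∀ x y, κ x y = κ y x) {B : Bool → Finset ℕ} {s H τ₀ b₀ : ℕ}
    {I₀ I₁ : Finset ℕ} (hdisj : Disjoint (B true) (B false)) (hB : (B b).card ≤ b₀)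
    (hM : ∀ v ∈ U, (Tch κ U v).card ≤ M)
    (h0 : I₀ ⊆ U) (h1 : I₁ ⊆ U) (ho : ∀ x ∈ I₀, ∀ y ∈ I₁, Bf b x y)
    (hTyp : ∀ y ∈ I₁, Typ κ U (!b) (B (!b)) H y)
    (hNP : ∀ g, g ∉ B b → (NP κ U ρ b s g).card ≤ τ₀)
    (hnum : 2 * (b₀ * H + M * τ₀) ≤ I₀.card) (hne : 0 < I₀.card) :
    ∃ X ⊆ I₁, I₁.card ≤ 2 * M * (s + 1) ^ 2 * X.card ∧
      ∀ v ∈ X, (Tch κ X v).card ≤ ρ + 2 * s := by
  classical
  obtain ⟨x, hx, A, hA, hAc, hAG⟩ :=
    cl_exists_center hκ hdisj hB hM h0 h1 ho hTyp hNP hnum hne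
  rcases A.eq_empty_or_nonempty with rfl | hAne
  · refine ⟨∅, Finset.empty_subset _, ?_, by simp⟩
    simp at hAc ⊢
    exact hAc
  have hmaps : ∀ y ∈ A, κ x y ∈ Tch κ U x := by
    intro y hy
    rw [mem_Tch]
    exact ⟨y, h1 (hA hy), (ho x hx y (hA hy)).ne.symm, rfl⟩
  obtain ⟨y₀, hy₀⟩ := hAne
  obtain ⟨g, hg, hgc⟩ := popular A (Tch κ U x) (fun y => κ x y) hmaps ⟨_, hmaps y₀ hy₀⟩
  set X₀ := A.filter (fun y => κ x y = g) with hX₀
  have hX₀ne : X₀.Nonempty := by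
    rw [← Finset.card_pos]
    by_contra hcon
    have h2 : X₀.card = 0 := by omega
    rw [h2, mul_zero] at hgc
    have h3 : 0 < A.card := Finset.card_pos.2 ⟨y₀, hy₀⟩
    omega
  obtain ⟨y₁, hy₁⟩ := hX₀ne
  have hy₁' := Finset.mem_filter.1 hy₁
  obtain ⟨hgB, hxNP⟩ := hAG y₁ hy₁'.1
  rw [hy₁'.2] at hgB hxNP
  obtain ⟨P, hPx, hgP, hPc⟩ : ∃ P : Finset ℕ, PI κ U ρ b x P ∧ g ∉ P ∧ ρ ≤ P.card + s + 1 := by
    by_contra hcon
    exact hxNP (mem_NP.2 ⟨h0 hx, hcon⟩)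
  have hPI : ∀ y ∈ X₀, PI κ U ρ b y (insert g P) := by
    intro y hy
    have hy' := Finset.mem_filter.1 hy
    have := hPx.step (h0 hx) (ho x hx y (hA hy'.1)) (by rwa [hy'.2])
    rwa [hy'.2] at this
  obtain ⟨X, hX, hXc, hXT⟩ := cl_split (U := U) (s := s) hκ
    (fun y hy => h1 (hA (Finset.mem_filter.1 hy).1)) ⟨y₁, hy₁⟩ hPI
    (by rw [Finset.card_insert_of_notMem hgP]; omega)
  refine ⟨X, fun y hy => hA (Finset.mem_filter.1 (hX hy)).1, ?_, hXT⟩
  calc I₁.card ≤ 2 * A.card := hAc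
    _ ≤ 2 * ((Tch κ U x).card * X₀.card) := Nat.mul_le_mul_left _ hgc
    _ ≤ 2 * (M * X₀.card) :=
        Nat.mul_le_mul_left _ (Nat.mul_le_mul_right _ (hM x (h0 hx)))
    _ ≤ 2 * (M * ((s + 1) ^ 2 * X.card)) :=
        Nat.mul_le_mul_left _ (Nat.mul_le_mul_left _ hXc)
    _ = 2 * M * (s + 1) ^ 2 * X.card := by ring

end FlashRainbow.PL
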