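import Pool.Agent.Work.MP_54723a_co.PL.Defs

/-!
# Polylogarithmic bound: typical and nice vertices, blocks
-/

set_option autoImplicit false

namespace FlashRainbow.PL

variable {κ : ℕ → ℕ → ℕ} {b : Bool} {U : Finset ℕ} {M : ℕ}

theorem card_not_typ {B : Finset ℕ} {H τ : ℕ} {N : ℕ → Finset ℕ}
    (hκ : ∀ x y, κ x y = κ y x) (hM : ∀ v ∈ U, (Tch κ U v).card ≤ M)
    (hN : ∀ g, g ∉ B → (N g).card ≤ τ)
    (hH : ∀ g, g ∉ B → ∀ x ∈ U, x ∉ N g → (Nb κ b U g x).card ≤ H) :
    ∃ T ⊆ U, (∀ x ∈ T, Typ κ U b B H x) ∧ (U \ T).card * H ≤ U.card * (M * τ) := by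
  classical
  refine ⟨U.filter (Typ κ U b B H), Finset.filter_subset _ _,
    fun x hx => (Finset.mem_filter.mp hx).2, ?_⟩
  have hbad : ∀ x, x ∈ U \ U.filter (Typ κ U b B H) →
      ∃ g, g ∉ B ∧ H < (Nb κ b U g x).card := by
    intro x hx
    rw [Finset.mem_sdiff, Finset.mem_filter] at hx
    have h1 : ¬ Typ κ U b B H x := fun h => hx.2 ⟨hx.1, h⟩
    unfold Typ at h1
    push Not at h1
    exact h1
  choose! g hgB hgH using hbad
  refine Finset.card_mul_le_card_mul (fun x y => y ∈ Nb κ b U (g x) x) ?_ ?_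
  · intro x hx
    refine (hgH x hx).le.trans (Finset.card_le_card ?_)
    intro y hy
    exact Finset.mem_filter.mpr ⟨(mem_Nb.mp hy).1, hy⟩
  · intro y hy
    have hsub : (U \ U.filter (Typ κ U b B H)).bipartiteBelow (fun x y => y ∈ Nb κ b U (g x) x) y ⊆
        ((Tch κ U y).filter (fun g => g ∉ B)).biUnion N := by
      intro x hx
      rw [Finset.bipartiteBelow, Finset.mem_filter] at hx
      obtain ⟨hx, hxy⟩ := hx
      have hxU : x ∈ U := (Finset.mem_sdiff.mp hx).1
      rw [mem_Nb] at hxy
      rw [Finset.mem_biUnion]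
      refine ⟨g x, Finset.mem_filter.mpr ⟨mem_Tch.mpr ⟨x, hxU, hxy.2.1.ne, ?_⟩, hgB x hx⟩, ?_⟩
      · rw [hκ y x]
        exact hxy.2.2
      · by_contra hcon
        have h1 := hH (g x) (hgB x hx) x hxU hcon
        have h2 := hgH x hx
        omega
    refine (Finset.card_le_card hsub).trans ?_
    refine (Finset.card_biUnion_le_card_mul _ _ τ
      (fun g hg => hN g (Finset.mem_filter.mp hg).2)).trans ?_
    exact Nat.mul_le_mul_right _ ((Finset.card_filter_le _ _).trans (hM y hy))

theorem card_not_nice {B : Finset ℕ} {B' : Finset ℕ} {H η : ℕ} {T : Finset ℕ}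
    (hκ : ∀ x y, κ x y = κ y x) (hd : Disjoint B B')
    (hT : ∀ x ∈ T, Typ κ U (!b) B' H x) :
    ∃ N ⊆ U, (∀ x ∈ N, Nice κ U b B η x) ∧
      (U \ N).card * (η + 1) ≤ U.card * (B.card * H) + (U \ T).card * U.card := by
  classical
  refine ⟨U.filter (Nice κ U b B η), Finset.filter_subset _ _,
    fun x hx => (Finset.mem_filter.mp hx).2, ?_⟩
  set S := U \ U.filter (Nice κ U b B η) with hS
  have hSU : S ⊆ U := Finset.sdiff_subset
  set r : ℕ → ℕ → Prop := fun x w => Bf b x w ∧ κ x w ∈ B with hr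
  have h1 : S.card * (η + 1) ≤ ∑ x ∈ S, (U.bipartiteAbove r x).card := by
    rw [← smul_eq_mul]
    refine Finset.card_nsmul_le_sum _ _ _ ?_
    intro x hx
    rw [hS, Finset.mem_sdiff, Finset.mem_filter] at hx
    have h2 : ¬ Nice κ U b B η x := fun h => hx.2 ⟨hx.1, h⟩
    unfold Nice at h2
    have h3 : U.bipartiteAbove r x = U.filter (fun w => Bf b x w ∧ κ x w ∈ B) := rfl
    rw [h3]
    omega
  rw [Finset.sum_card_bipartiteAbove_eq_sum_card_bipartiteBelow] at h1
  refine h1.trans ?_
  have h2 : ∀ w ∈ U, (S.bipartiteBelow r w).card ≤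
      B.card * H + if w ∈ T then 0 else U.card := by
    intro w hw
    by_cases hwT : w ∈ T
    · rw [if_pos hwT, add_zero]
      have hsub : S.bipartiteBelow r w ⊆ B.biUnion (fun g => Nb κ (!b) U g w) := by
        intro x hx
        rw [Finset.bipartiteBelow, Finset.mem_filter] at hx
        obtain ⟨hx, hb, hc⟩ := hx
        rw [Finset.mem_biUnion]
        exact ⟨κ x w, hc, mem_Nb.mpr ⟨hSU hx, Bf_not.mpr hb, hκ w x⟩⟩
      refine (Finset.card_le_card hsub).trans (Finset.card_biUnion_le_card_mul _ _ _ ?_)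
      intro g hg
      exact hT w hwT g (Finset.disjoint_left.mp hd hg)
    · rw [if_neg hwT]
      refine le_trans ?_ (Nat.le_add_left _ _)
      exact (Finset.card_filter_le _ _).trans (Finset.card_le_card hSU)
  refine (Finset.sum_le_sum h2).trans ?_
  rw [Finset.sum_add_distrib, Finset.sum_const, smul_eq_mul]
  refine Nat.add_le_add_left ?_ _
  rw [Finset.sum_ite, Finset.sum_const_zero, zero_add, Finset.sum_const, smul_eq_mul]
  refine Nat.mul_le_mul_right _ (Finset.card_le_card ?_)
  intro w hw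
  rw [Finset.mem_filter] at hw
  exact Finset.mem_sdiff.mpr hw

/-- the number of elements of `V` before `v` -/
private def pos (V : Finset ℕ) (v : ℕ) : ℕ := (V.filter (fun w => w < v)).card

private theorem pos_lt {V : Finset ℕ} {v w : ℕ} (hv : v ∈ V) (h : v < w) :
    pos V v < pos V w := by
  refine Finset.card_lt_card ?_
  rw [Finset.ssubset_iff_of_subset (by
    intro u hu
    rw [Finset.mem_filter] at hu ⊢
    exact ⟨hu.1, hu.2.trans h⟩)]
  exact ⟨v, Finset.mem_filter.mpr ⟨hv, h⟩, fun hh => lt_irrefl _ (Finset.mem_filter.mp hh).2⟩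

private theorem card_prefix {V : Finset ℕ} {t : ℕ} (ht : t ≤ V.card) :
    (V.filter (fun v => pos V v < t)).card = t := by
  classical
  have hinj : Set.InjOn (pos V) V := by
    intro u hu v hv huv
    rcases Nat.lt_trichotomy u v with h | h | h
    · exact absurd huv (pos_lt hu h).ne
    · exact h
    · exact absurd huv (pos_lt hv h).ne'
  have him : V.image (pos V) = Finset.range V.card := by
    refine Finset.eq_of_subset_of_card_le ?_ ?_
    · intro a ha
      obtain ⟨v, hv, rfl⟩ := Finset.mem_image.mp ha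
      rw [Finset.mem_range]
      refine Finset.card_lt_card ?_
      rw [Finset.ssubset_iff_of_subset (Finset.filter_subset _ _)]
      exact ⟨v, hv, fun hh => lt_irrefl _ (Finset.mem_filter.mp hh).2⟩
    · rw [Finset.card_image_of_injOn hinj, Finset.card_range]
  have h1 : (V.filter (fun v => pos V v < t)).image (pos V) = Finset.range t := by
    ext a
    rw [Finset.mem_image, Finset.mem_range]
    constructor
    · rintro ⟨v, hv, rfl⟩
      exact (Finset.mem_filter.mp hv).2
    · intro ha
      have h2 : a ∈ V.image (pos V) := by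
        rw [him, Finset.mem_range]
        omega
      obtain ⟨v, hv, rfl⟩ := Finset.mem_image.mp h2
      exact ⟨v, Finset.mem_filter.mpr ⟨hv, ha⟩, rfl⟩
  have h3 : Set.InjOn (pos V) (V.filter (fun v => pos V v < t) : Finset ℕ) := by
    intro u hu v hv huv
    exact hinj (Finset.mem_filter.mp (Finset.mem_coe.mp hu)).1
      (Finset.mem_filter.mp (Finset.mem_coe.mp hv)).1 huv
  have h4 := Finset.card_image_of_injOn h3
  rw [h1, Finset.card_range] at h4
  exact h4.symm

/-- nine consecutive blocks: eight of size `J`, the fifth one is the rest -/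
theorem exists_blocks (V : Finset ℕ) (J : ℕ) (hJ : 8 * J ≤ V.card) :
    ∃ I : ℕ → Finset ℕ, (∀ i, I i ⊆ V) ∧ (∀ i < 9, i ≠ 4 → (I i).card = J) ∧
      V.card = (I 4).card + 8 * J ∧
      ∀ i j, i < j → j < 9 → ∀ x ∈ I i, ∀ y ∈ I j, x < y := by
  classical
  set a : ℕ → ℕ := fun i => if i ≤ 4 then i * J else V.card - (9 - i) * J with ha
  set P : ℕ → Finset ℕ := fun t => V.filter (fun v => pos V v < t) with hP
  have ha4 : ∀ i, i ≤ 4 → a i = i * J := fun i hi => by simp [ha, hi]
  have ha5 : ∀ i, 5 ≤ i → a i = V.card - (9 - i) * J := fun i hi => by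
    simp only [ha]
    rw [if_neg (by omega)]
  have v0 := ha4 0 (by omega)
  have v1 := ha4 1 (by omega)
  have v2 := ha4 2 (by omega)
  have v3 := ha4 3 (by omega)
  have v4 := ha4 4 (by omega)
  have v5 := ha5 5 (by omega)
  have v6 := ha5 6 (by omega)
  have v7 := ha5 7 (by omega)
  have v8 := ha5 8 (by omega)
  have v9 := ha5 9 (by omega)
  norm_num at v0 v1 v2 v3 v4 v5 v6 v7 v8 v9
  have hstep : ∀ i < 9, a i ≤ a (i + 1) := by
    intro i hi
    interval_cases i <;> norm_num <;> omega
  have hmono : ∀ i j, i ≤ j → j ≤ 9 → a i ≤ a j := by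
    intro i j hij
    induction j, hij using Nat.le_induction with
    | base => intro _; exact le_rfl
    | succ j _ ih => intro h; exact (ih (by omega)).trans (hstep j (by omega))
  have hle : ∀ i ≤ 9, a i ≤ V.card := by
    intro i hi
    refine (hmono i 9 hi le_rfl).trans ?_
    rw [v9]
  have hPc : ∀ t ≤ V.card, (P t).card = t := fun t ht => card_prefix ht
  have hPm : ∀ s t, s ≤ t → P s ⊆ P t := by
    intro s t hst v hv
    rw [Finset.mem_filter] at hv ⊢
    exact ⟨hv.1, lt_of_lt_of_le hv.2 hst⟩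
  have hcard : ∀ i < 9, (P (a (i + 1)) \ P (a i)).card = a (i + 1) - a i := by
    intro i hi
    rw [Finset.card_sdiff_of_subset (hPm _ _ (hstep i hi)), hPc _ (hle _ (by omega)),
      hPc _ (hle _ (by omega))]
  refine ⟨fun i => P (a (i + 1)) \ P (a i), fun i => Finset.sdiff_subset.trans
    (Finset.filter_subset _ _), ?_, ?_, ?_⟩
  · intro i hi hi4
    rw [hcard i hi]
    interval_cases i <;> first | (exact absurd rfl hi4) | (norm_num; omega)
  · rw [hcard 4 (by omega)]
    norm_num
    omega
  · intro i j hij hj x hx y hy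
    rw [Finset.mem_sdiff] at hx hy
    have h1 : pos V x < a j :=
      lt_of_lt_of_le (Finset.mem_filter.mp hx.1).2 (hmono (i + 1) j hij (by omega))
    have hyV : y ∈ V := (Finset.mem_filter.mp hy.1).1
    have h2 : a j ≤ pos V y := by
      by_contra hcon
      exact hy.2 (Finset.mem_filter.mpr ⟨hyV, by omega⟩)
    by_contra hcon
    rcases Nat.lt_or_ge y x with h | h
    · have := pos_lt hyV h
      omega
    · have : x = y := by omega
      subst this
      omega

end FlashRainbow.PL
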