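import Pool.Agent.Work.MP_54723a_co.PowBasic
import Pool.Agent.Work.MP_54723a_co.Bound

/-!
# Polylogarithmic bound: two-sided structures, basic definitions

`κ` is a symmetric colour function, `b : Bool` a direction (`true`: paths go up, `false`: paths go
down).
-/

set_option autoImplicit false

namespace FlashRainbow.PL

/-- `y` comes after `x` in direction `b` -/
def Bf (b : Bool) (x y : ℕ) : Prop := if b = true then x < y else y < x

instance (b : Bool) (x y : ℕ) : Decidable (Bf b x y) := by unfold Bf; infer_instance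

@[simp] theorem Bf_true {x y : ℕ} : Bf true x y ↔ x < y := by simp [Bf]
@[simp] theorem Bf_false {x y : ℕ} : Bf false x y ↔ y < x := by simp [Bf]

theorem Bf.trans {b : Bool} {x y z : ℕ} (h1 : Bf b x y) (h2 : Bf b y z) : Bf b x z := by
  cases b <;> simp at * <;> omega

theorem Bf.irrefl {b : Bool} {x : ℕ} : ¬ Bf b x x := by cases b <;> simp

theorem Bf.ne {b : Bool} {x y : ℕ} (h : Bf b x y) : x ≠ y := by
  rintro rfl; exact Bf.irrefl h

theorem Bf_not {b : Bool} {x y : ℕ} : Bf (!b) x y ↔ Bf b y x := by cases b <;> simp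

theorem Bf_or {x y : ℕ} (b : Bool) (h : x ≠ y) : Bf b x y ∨ Bf b y x := by
  cases b <;> simp <;> omega

/-- colours of the pairs of `U` which contain `v` -/
def Tch (κ : ℕ → ℕ → ℕ) (U : Finset ℕ) (v : ℕ) : Finset ℕ := (U.erase v).image (fun w => κ v w)

/-- the vertices `w` of `U` after `x` in direction `b` with `κ x w = g` -/
def Nb (κ : ℕ → ℕ → ℕ) (b : Bool) (U : Finset ℕ) (g x : ℕ) : Finset ℕ :=
  U.filter (fun w => Bf b x w ∧ κ x w = g)

/-- no pair of `W` has a colour in `S` -/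
def Free (κ : ℕ → ℕ → ℕ) (W S : Finset ℕ) : Prop := ∀ u ∈ W, ∀ v ∈ W, u ≠ v → κ u v ∉ S

/-- `PT κ b U x y D`: there is a rainbow path inside `U` from `x` to `y`, going in direction `b`,
with colour set `D` -/
inductive PT (κ : ℕ → ℕ → ℕ) (b : Bool) (U : Finset ℕ) (x : ℕ) : ℕ → Finset ℕ → Prop
  | single : x ∈ U → PT κ b U x x ∅
  | snoc {y z : ℕ} {D : Finset ℕ} : PT κ b U x y D → z ∈ U → Bf b y z → κ y z ∉ D →
      PT κ b U x z (insert (κ y z) D)

/-- `P` is a palette for `x`: every rainbow path inside `U` which starts at `x`, goes in direction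
`b` and avoids the colours of `P` has at most `ρ - |P|` edges -/
def PI (κ : ℕ → ℕ → ℕ) (U : Finset ℕ) (ρ : ℕ) (b : Bool) (x : ℕ) (P : Finset ℕ) : Prop :=
  ∀ y D, PT κ b U x y D → Disjoint D P → D.card + P.card ≤ ρ

/-- all rainbow paths in `W` have at most `r` edges -/
def Rnk (κ : ℕ → ℕ → ℕ) (W : Finset ℕ) (r : ℕ) : Prop :=
  ∀ b x y D, PT κ b W x y D → D.card ≤ r

/-- levels of the colour classes, for a symmetric colour function -/
def LevS (κ : ℕ → ℕ → ℕ) (U : Finset ℕ) (l : ℕ) (lev : ℕ → ℕ → ℕ) : Prop :=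
  (∀ γ, ∀ v ∈ U, lev γ v < l) ∧ ∀ u ∈ U, ∀ v ∈ U, u ≠ v → lev (κ u v) u ≠ lev (κ u v) v

/-- a bound for sets of rank at most `r` -/
def BB (κ : ℕ → ℕ → ℕ) (U : Finset ℕ) (β : ℕ → ℕ) : Prop :=
  ∀ W ⊆ U, ∀ r, Rnk κ W r → W.card ≤ β r

/-- Two-sided structures. `B b` is a fixed set of colours, `K b j x` (`j : Bool`) are two disjoint
label sets of `x`, for each direction `b`. -/
structure TS (κ : ℕ → ℕ → ℕ) (M : ℕ) (U : Finset ℕ) (ρ : ℕ) (B : Bool → Finset ℕ)
    (K : Bool → Bool → ℕ → Finset ℕ) : Prop where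
  touch : ∀ v ∈ U, (Tch κ U v).card ≤ M
  disjB : Disjoint (B true) (B false)
  labcard : ∀ b j x, (K b j x).card ≤ 3
  labdisj : ∀ b, ∀ x ∈ U, Disjoint (K b true x) (K b false x)
  pi : ∀ b j, ∀ x ∈ U, PI κ U ρ b x (B b ∪ K b j x)

variable {κ : ℕ → ℕ → ℕ} {b : Bool} {U W : Finset ℕ} {x y z : ℕ} {D P : Finset ℕ} {ρ r : ℕ}

theorem Tch_mono (h : W ⊆ U) (v : ℕ) : Tch κ W v ⊆ Tch κ U v :=
  Finset.image_subset_image (Finset.erase_subset_erase _ h)

theorem mem_Tch {v g : ℕ} : g ∈ Tch κ U v ↔ ∃ w ∈ U, w ≠ v ∧ κ v w = g := by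
  simp only [Tch, Finset.mem_image, Finset.mem_erase]
  constructor
  · rintro ⟨w, ⟨h1, h2⟩, h3⟩; exact ⟨w, h2, h1, h3⟩
  · rintro ⟨w, h2, h1, h3⟩; exact ⟨w, ⟨h1, h2⟩, h3⟩

theorem mem_Nb {g w : ℕ} : w ∈ Nb κ b U g x ↔ w ∈ U ∧ Bf b x w ∧ κ x w = g := by
  simp [Nb]

theorem Free.mono {S S' W' : Finset ℕ} (h : Free κ W S) (hW : W' ⊆ W) (hS : S' ⊆ S) :
    Free κ W' S' := fun u hu v hv huv hc => h u (hW hu) v (hW hv) huv (hS hc)

theorem Free.union {S S' : Finset ℕ} (h : Free κ W S) (h' : Free κ W S') : Free κ W (S ∪ S') := by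
  intro u hu v hv huv hc
  rcases Finset.mem_union.mp hc with hc | hc
  · exact h u hu v hv huv hc
  · exact h' u hu v hv huv hc

theorem PT.left (h : PT κ b U x y D) : x ∈ U := by
  induction h with
  | single hx => exact hx
  | snoc _ _ _ _ ih => exact ih

theorem PT.right (h : PT κ b U x y D) : y ∈ U := by
  cases h with
  | single hx => exact hx
  | snoc _ hz _ _ => exact hz

theorem PT.mono (h : PT κ b W x y D) (hWU : W ⊆ U) : PT κ b U x y D := by
  induction h with
  | single hx => exact PT.single (hWU hx)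
  | snoc _ hz hlt hc ih => exact PT.snoc ih (hWU hz) hlt hc

/-- prepending an edge -/
theorem PT.cons (h : PT κ b U y z D) (hx : x ∈ U) (hxy : Bf b x y) (hc : κ x y ∉ D) :
    PT κ b U x z (insert (κ x y) D) := by
  induction h with
  | single hy =>
    have h1 : PT κ b U x y (insert (κ x y) ∅) :=
      PT.snoc (PT.single hx) hy hxy (Finset.notMem_empty _)
    exact h1
  | @snoc w z D h hz hlt hcz ih =>
    rw [Finset.mem_insert, not_or] at hc
    rw [Finset.insert_comm]
    refine PT.snoc (ih hc.2) hz hlt ?_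
    rw [Finset.mem_insert, not_or]
    exact ⟨fun hh => hc.1 hh.symm, hcz⟩

/-- reversing a path -/
theorem PT.rev (hκ : ∀ x y, κ x y = κ y x) (h : PT κ b U x y D) : PT κ (!b) U y x D := by
  induction h with
  | single hx => exact PT.single hx
  | @snoc y z D h hz hlt hc ih =>
    rw [hκ y z] at hc ⊢
    exact ih.cons hz (Bf_not.mpr hlt) hc

theorem PT.notMem_of_free {S : Finset ℕ} (h : PT κ b W x y D) (hfree : Free κ W S) :
    Disjoint D S := by
  induction h with
  | single _ => simp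
  | @snoc y z D h hz hlt hc ih =>
    rw [Finset.disjoint_insert_left]
    exact ⟨hfree y h.right z hz hlt.ne, ih⟩

/-- an initial segment with exactly `t` edges -/
theorem PT.initial (h : PT κ b U x y D) : ∀ t ≤ D.card, ∃ y', ∃ D' ⊆ D, D'.card = t ∧
    PT κ b U x y' D' := by
  induction h with
  | single hx =>
    intro t ht
    refine ⟨x, ∅, Finset.Subset.refl _, ?_, PT.single hx⟩
    simp at ht ⊢
    exact ht.symm
  | @snoc y z D h hz hlt hc ih =>
    intro t ht
    rw [Finset.card_insert_of_notMem hc] at ht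
    rcases Nat.lt_or_ge D.card t with h1 | h1
    · refine ⟨z, insert (κ y z) D, Finset.Subset.refl _, ?_, PT.snoc h hz hlt hc⟩
      rw [Finset.card_insert_of_notMem hc]; omega
    · obtain ⟨y', D', hD', hcard, hp⟩ := ih t h1
      exact ⟨y', D', hD'.trans (Finset.subset_insert _ _), hcard, hp⟩

/-- closure of palettes under steps -/
theorem PI.step (h : PI κ U ρ b x P) (hx : x ∈ U) (hxy : Bf b x y) (hc : κ x y ∉ P) :
    PI κ U ρ b y (insert (κ x y) P) := by
  intro z D hD hdisj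
  rw [Finset.disjoint_insert_right] at hdisj
  have h1 := h z _ (hD.cons hx hxy hdisj.1)
    (by rw [Finset.disjoint_insert_left]; exact ⟨hc, hdisj.2⟩)
  rw [Finset.card_insert_of_notMem hdisj.1] at h1
  rw [Finset.card_insert_of_notMem hc]
  omega

/-- closure of palettes under paths -/
theorem PI.path {Q : Finset ℕ} (h : PI κ U ρ b x P) (hp : PT κ b U x y Q) (hd : Disjoint Q P) :
    PI κ U ρ b y (P ∪ Q) := by
  induction hp with
  | single _ => simpa using h
  | @snoc y z Q hp hz hlt hc ih =>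
    rw [Finset.disjoint_insert_left] at hd
    rw [Finset.union_insert]
    refine (ih hd.2).step hp.right hlt ?_
    rw [Finset.mem_union, not_or]
    exact ⟨hd.1, hc⟩

theorem PI.card_le (h : PI κ U ρ b x P) (hx : x ∈ U) : P.card ≤ ρ := by
  have := h x ∅ (PT.single hx) (by simp)
  simpa using this

/-- passing to an `E`-free subset removes `E` from the palettes -/
theorem PI.free {E P' : Finset ℕ} (h : PI κ U ρ b x (E ∪ P')) (hWU : W ⊆ U) (hfree : Free κ W E)
    (hd : Disjoint E P') : PI κ W (ρ - E.card) b x P' := by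
  intro y D hD hdisj
  have h1 := h y D (hD.mono hWU) (by
    rw [Finset.disjoint_union_right]; exact ⟨hD.notMem_of_free hfree, hdisj⟩)
  rw [Finset.card_union_of_disjoint hd] at h1
  omega

/-- rank of a set all of whose vertices have palettes avoided by the set -/
theorem Rnk_of_PI (hκ : ∀ x y, κ x y = κ y x) {r : ℕ} (hWU : W ⊆ U)
    (h : ∀ x ∈ W, ∃ P, PI κ U ρ b x P ∧ Free κ W P ∧ ρ ≤ r + P.card) : Rnk κ W r := by
  intro b' x y D hD
  -- a path in direction `b` starting at one of the two ends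
  have key : ∀ x y, PT κ b W x y D → D.card ≤ r := by
    intro x y hD
    obtain ⟨P, h1, h2, h3⟩ := h x hD.left
    have h4 := h1 y D (hD.mono hWU) (hD.notMem_of_free h2)
    omega
  by_cases hb : b' = b
  · subst hb; exact key x y hD
  · have : (!b') = b := by cases b <;> cases b' <;> simp_all
    have h5 := hD.rev hκ
    rw [this] at h5
    exact key y x h5

theorem LevS.mono {l : ℕ} {lev : ℕ → ℕ → ℕ} (h : LevS κ U l lev) (hWU : W ⊆ U) :
    LevS κ W l lev :=
  ⟨fun γ v hv => h.1 γ v (hWU hv), fun u hu v hv huv => h.2 u (hWU hu) v (hWU hv) huv⟩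

theorem LevS.of_Lev {l : ℕ} {lev : ℕ → ℕ → ℕ} (hκ : ∀ x y, κ x y = κ y x)
    (h : Lev κ U l lev) : LevS κ U l lev := by
  refine ⟨h.lt, ?_⟩
  intro u hu v hv huv
  rcases Nat.lt_or_gt_of_ne huv with h1 | h1
  · exact (h.up u hu v hv h1).ne
  · rw [hκ u v]
    exact (h.up v hv u hu h1).ne'

/-- exceptional vertices for the colour `g`: no palette of size at least `ρ - s - 1` avoids `g` -/
noncomputable def NP (κ : ℕ → ℕ → ℕ) (U : Finset ℕ) (ρ : ℕ) (b : Bool) (s g : ℕ) : Finset ℕ := by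
  classical
  exact U.filter (fun x => ¬ ∃ P : Finset ℕ, PI κ U ρ b x P ∧ g ∉ P ∧ ρ ≤ P.card + s + 1)

theorem mem_NP {s g : ℕ} : x ∈ NP κ U ρ b s g ↔
    x ∈ U ∧ ¬ ∃ P : Finset ℕ, PI κ U ρ b x P ∧ g ∉ P ∧ ρ ≤ P.card + s + 1 := by
  classical
  simp [NP]

/-- typical vertices in direction `b`: every colour outside `B` has at most `H` neighbours -/
def Typ (κ : ℕ → ℕ → ℕ) (U : Finset ℕ) (b : Bool) (B : Finset ℕ) (H : ℕ) (x : ℕ) : Prop :=
  ∀ g, g ∉ B → (Nb κ b U g x).card ≤ H

/-- nice vertices in direction `b`: at most `η` neighbours with a colour in `B` -/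
def Nice (κ : ℕ → ℕ → ℕ) (U : Finset ℕ) (b : Bool) (B : Finset ℕ) (η x : ℕ) : Prop :=
  (U.filter (fun w => Bf b x w ∧ κ x w ∈ B)).card ≤ η

/-- the black box -/
theorem exists_BB : ∃ Kc : ℕ, 1 ≤ Kc ∧ ∀ l ≥ 2, ∀ (κ : ℕ → ℕ → ℕ) (lev : ℕ → ℕ → ℕ)
    (V : Finset ℕ), Lev κ V l lev → BB κ V (fun j => Kc * (j + 1) ^ 5 * l ^ j) := by
  obtain ⟨K, hK⟩ := poly_bound
  refine ⟨K + 1, by omega, ?_⟩
  intro l hl κ lev V hL W hWV r hr
  have h1 := hK l hl κ lev r W (hL.mono hWV) (by
    intro x D hD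
    have h2 : ∃ z, PT κ true W z x D := by
      induction hD with
      | single hx => exact ⟨_, PT.single hx⟩
      | step _ hy hlt hc ih =>
        obtain ⟨z, hz⟩ := ih
        exact ⟨z, PT.snoc hz hy (by simpa using hlt) hc⟩
    obtain ⟨z, hz⟩ := h2
    exact hr true z x D hz)
  refine h1.trans ?_
  exact Nat.mul_le_mul_right _ (Nat.mul_le_mul_right _ (Nat.le_succ K))

end FlashRainbow.PL
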