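import Pool.Agent.Work.MP_54723a_co.PL.Defs

/-!
# Polylogarithmic bound: the initial structure (W9)
-/

set_option autoImplicit false

namespace FlashRainbow.PL

variable {κ : ℕ → ℕ → ℕ} {b : Bool} {U W : Finset ℕ} {ρ l M : ℕ} {lev : ℕ → ℕ → ℕ}

private theorem in_popular {α β : Type} [DecidableEq β] (s : Finset α) (t : Finset β) (f : α → β)
    (hf : ∀ a ∈ s, f a ∈ t) (ht : t.Nonempty) :
    ∃ y ∈ t, s.card ≤ t.card * (s.filter (fun a => f a = y)).card := by
  obtain ⟨y, hy, hmax⟩ := Finset.exists_max_image t (fun y => (s.filter (fun a => f a = y)).card) ht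
  refine ⟨y, hy, ?_⟩
  rw [Finset.card_eq_sum_card_fiberwise (f := f) (t := t) (fun a ha => hf a ha)]
  have h := Finset.sum_le_card_nsmul t (fun y => (s.filter (fun a => f a = y)).card) _ hmax
  rwa [smul_eq_mul] at h

/-- length of a path of `V` which starts at `v` -/
private def InK (κ : ℕ → ℕ → ℕ) (b : Bool) (V : Finset ℕ) (v k : ℕ) : Prop :=
  ∃ z D, PT κ b V v z D ∧ D.card = k

theorem init (hκ : ∀ x y, κ x y = κ y x) (hl : 2 ≤ l) {V : Finset ℕ} {R s Kc : ℕ}
    (hBB : BB κ V (fun j => Kc * (j + 1) ^ 5 * l ^ j)) (hR : Rnk κ V R)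
    (hs : 4 * Kc * (R + 1) ^ 5 ≤ l ^ s) (hV : l ^ R ≤ V.card) :
    ∃ U ⊆ V, V.card ≤ 2 * (s + 1) ^ 2 * U.card ∧
      TS κ (2 * R) U R (fun _ => ∅) (fun _ _ _ => ∅) := by
  classical
  let L : Bool → ℕ → ℕ := fun b v => Nat.findGreatest (InK κ b V v) R
  have hLR : ∀ b v, L b v ≤ R := fun b v => Nat.findGreatest_le _
  have hle : ∀ b x y D, PT κ b V x y D → D.card ≤ L b x := by
    intro b x y D h
    exact Nat.le_findGreatest (hR b x y D h) ⟨y, D, h, rfl⟩
  have hmax : ∀ b, ∀ v ∈ V, ∃ z D, PT κ b V v z D ∧ D.card = L b v := by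
    intro b v hv
    have h0 : InK κ b V v 0 := ⟨v, ∅, PT.single hv, rfl⟩
    exact Nat.findGreatest_spec (P := InK κ b V v) (Nat.zero_le R) h0
  -- the vertices with short paths
  let S : Bool → Finset ℕ := fun b => V.filter (fun v => L b v + s < R)
  have hS : ∀ b, 4 * (S b).card ≤ V.card := by
    intro b
    rcases (S b).eq_empty_or_nonempty with h | ⟨v, hv⟩
    · rw [h]; simp
    have hsR : s < R := by
      have := (Finset.mem_filter.1 hv).2
      omega
    have hrk : Rnk κ (S b) (R - s - 1) := by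
      have key : ∀ x y D, PT κ b (S b) x y D → D.card ≤ R - s - 1 := by
        intro x y D h
        have h1 := hle b x y D (h.mono (Finset.filter_subset _ _))
        have h2 := (Finset.mem_filter.1 h.left).2
        omega
      intro b' x y D h
      by_cases hb : b' = b
      · subst hb; exact key x y D h
      · have hb' : (!b') = b := by cases b <;> cases b' <;> simp_all
        have h5 := h.rev hκ
        rw [hb'] at h5
        exact key y x D h5
    have h1 := hBB (S b) (Finset.filter_subset _ _) _ hrk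
    have h2 : (R - s - 1 + 1) ^ 5 ≤ (R + 1) ^ 5 := Nat.pow_le_pow_left (by omega) 5
    calc 4 * (S b).card ≤ 4 * (Kc * (R - s - 1 + 1) ^ 5 * l ^ (R - s - 1)) :=
          Nat.mul_le_mul_left _ h1
      _ ≤ 4 * (Kc * (R + 1) ^ 5 * l ^ (R - s - 1)) :=
          Nat.mul_le_mul_left _ (Nat.mul_le_mul_right _ (Nat.mul_le_mul_left _ h2))
      _ = (4 * Kc * (R + 1) ^ 5) * l ^ (R - s - 1) := by ring
      _ ≤ l ^ s * l ^ (R - s - 1) := Nat.mul_le_mul_right _ hs
      _ = l ^ (R - 1) := by rw [← pow_add]; congr 1; omega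
      _ ≤ l ^ R := Nat.pow_le_pow_right (by omega) (by omega)
      _ ≤ V.card := hV
  set V' := V \ (S true ∪ S false) with hV'
  have hV'c : V.card ≤ 2 * V'.card := by
    have h1 := Finset.le_card_sdiff (S true ∪ S false) V
    have h2 := Finset.card_union_le (S true) (S false)
    have h3 := hS true
    have h4 := hS false
    rw [← hV'] at h1
    omega
  have hbig : ∀ v ∈ V', ∀ b, R ≤ L b v + s := by
    intro v hv b
    rw [hV', Finset.mem_sdiff, Finset.mem_union, not_or] at hv
    by_contra hcon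
    push Not at hcon
    have h1 : v ∈ S b := Finset.mem_filter.2 ⟨hv.1, hcon⟩
    cases b with
    | true => exact hv.2.1 h1
    | false => exact hv.2.2 h1
  obtain ⟨c, hc, hcard⟩ := in_popular V' (Finset.Icc (R - s) R ×ˢ Finset.Icc (R - s) R)
    (fun v => (L true v, L false v)) (by
      intro v hv
      rw [Finset.mem_product, Finset.mem_Icc, Finset.mem_Icc]
      have h1 := hbig v hv true
      have h2 := hbig v hv false
      exact ⟨⟨by simp only; omega, hLR _ _⟩, ⟨by simp only; omega, hLR _ _⟩⟩)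
    ⟨(R, R), by simp⟩
  have hIcc : (Finset.Icc (R - s) R ×ˢ Finset.Icc (R - s) R).card ≤ (s + 1) ^ 2 := by
    rw [Finset.card_product, Nat.card_Icc, ← pow_two]
    exact Nat.pow_le_pow_left (by omega) 2
  set U := V'.filter (fun v => (L true v, L false v) = c) with hU
  have hUV : U ⊆ V := fun v hv =>
    (Finset.mem_sdiff.1 (Finset.mem_filter.1 hv).1).1
  refine ⟨U, hUV, ?_, ?_⟩
  · calc V.card ≤ 2 * V'.card := hV'c
      _ ≤ 2 * ((Finset.Icc (R - s) R ×ˢ Finset.Icc (R - s) R).card * U.card) :=
          Nat.mul_le_mul_left _ hcard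
      _ ≤ 2 * ((s + 1) ^ 2 * U.card) :=
          Nat.mul_le_mul_left _ (Nat.mul_le_mul_right _ hIcc)
      _ = 2 * (s + 1) ^ 2 * U.card := by ring
  refine ⟨?_, by simp, by simp, by simp, ?_⟩
  · intro v hv
    obtain ⟨z₁, D₁, hD₁, hc₁⟩ := hmax true v (hUV hv)
    obtain ⟨z₂, D₂, hD₂, hc₂⟩ := hmax false v (hUV hv)
    have hsub : Tch κ U v ⊆ D₁ ∪ D₂ := by
      intro g hg
      rw [mem_Tch] at hg
      obtain ⟨w, hw, hwv, hg⟩ := hg
      have hwc : (L true w, L false w) = (L true v, L false v) :=
        (Finset.mem_filter.1 hw).2.trans (Finset.mem_filter.1 hv).2.symm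
      have hg' : κ w v = g := by rw [hκ w v, hg]
      rw [Finset.mem_union]
      by_contra hcon
      push Not at hcon
      obtain ⟨hg1, hg2⟩ := hcon
      rcases Bf_or true hwv with hb | hb
      · -- `w < v`
        have h1 := hD₁.cons (hUV hw) hb (by rwa [hg'])
        have h2 := hle true _ _ _ h1
        rw [Finset.card_insert_of_notMem (by rwa [hg']), hc₁] at h2
        have h3 : L true w = L true v := congrArg Prod.fst hwc
        omega
      · -- `v < w`
        have hb' : Bf false w v := by simpa using hb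
        have h1 := hD₂.cons (hUV hw) hb' (by rwa [hg'])
        have h2 := hle false _ _ _ h1
        rw [Finset.card_insert_of_notMem (by rwa [hg']), hc₂] at h2
        have h3 : L false w = L false v := congrArg Prod.snd hwc
        omega
    have h1 := Finset.card_le_card hsub
    have h2 := Finset.card_union_le D₁ D₂
    have h3 := hLR true v
    have h4 := hLR false v
    omega
  · intro b j x hx y D hD _
    have h1 := hR b x y D (hD.mono hUV)
    simpa using h1

end FlashRainbow.PL
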