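import Pool.Agent.Work.MP_54723a_co.PL.LemE

/-!
# Polylogarithmic bound: structures with two labels
-/

set_option autoImplicit false

namespace FlashRainbow.PL

variable {κ : ℕ → ℕ → ℕ} {U W : Finset ℕ} {ρ l M : ℕ} {lev : ℕ → ℕ → ℕ}

theorem BB.mono {β : ℕ → ℕ} (h : BB κ U β) (hWU : W ⊆ U) : BB κ W β :=
  fun X hX r hr => h X (hX.trans hWU) r hr

private theorem two_label_num {Kc l ρ : ℕ} (hKc : 1 ≤ Kc) (hl : 2 ≤ l) :
    2 * Kc * (ρ + 1) ^ 7 * l ^ ρ + (1 + (ρ + 4) * (Kc * (ρ + 1) ^ 5 * l ^ (ρ + 1))) ≤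
      2 * Kc * (ρ + 1 + 1) ^ 7 * l ^ (ρ + 1) := by
  set Z := Kc * l ^ (ρ + 1) with hZ
  set a := ρ + 1 with ha
  have hZ1 : 1 ≤ Z := Nat.mul_pos hKc (pow_pos (by omega) _)
  have h1 : 2 * Kc * a ^ 7 * l ^ ρ ≤ a ^ 7 * Z := by
    have h2 : 2 * l ^ ρ ≤ l ^ a := by
      rw [ha, pow_succ, mul_comm]
      exact Nat.mul_le_mul_left _ hl
    calc 2 * Kc * a ^ 7 * l ^ ρ = Kc * a ^ 7 * (2 * l ^ ρ) := by ring
      _ ≤ Kc * a ^ 7 * l ^ a := Nat.mul_le_mul_left _ h2
      _ = a ^ 7 * Z := by rw [hZ]; ring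
  have h3 : (ρ + 4) * (Kc * a ^ 5 * l ^ a) = (a + 3) * a ^ 5 * Z := by
    rw [hZ, ha]
    ring
  have h4 : 2 * Kc * (a + 1) ^ 7 * l ^ a = (a ^ 7 + 1 + (a + 3) * a ^ 5 +
      (a ^ 7 + 13 * a ^ 6 + 39 * a ^ 5 + 70 * a ^ 4 + 70 * a ^ 3 + 42 * a ^ 2 + 14 * a + 1)) * Z := by
    rw [hZ]
    ring
  rw [h3, h4]
  have h5 : (a ^ 7 + 1 + (a + 3) * a ^ 5) * Z ≤ (a ^ 7 + 1 + (a + 3) * a ^ 5 +
      (a ^ 7 + 13 * a ^ 6 + 39 * a ^ 5 + 70 * a ^ 4 + 70 * a ^ 3 + 42 * a ^ 2 + 14 * a + 1)) * Z :=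
    Nat.mul_le_mul_right _ (Nat.le_add_right _ _)
  have h6 : (a ^ 7 + 1 + (a + 3) * a ^ 5) * Z = a ^ 7 * Z + Z + (a + 3) * a ^ 5 * Z := by ring
  omega

theorem two_label_aux (hκ : ∀ x y, κ x y = κ y x) (hl : 2 ≤ l) {Kc : ℕ} (hKc : 1 ≤ Kc)
    (K : Bool → ℕ → Finset ℕ) (ρ : ℕ) : ∀ U : Finset ℕ, LevS κ U l lev →
      BB κ U (fun j => Kc * (j + 1) ^ 5 * l ^ j) → (∀ j, ∀ x ∈ U, (K j x).card ≤ 3) →
      (∀ x ∈ U, Disjoint (K true x) (K false x)) → (∀ j, ∀ x ∈ U, PI κ U ρ true x (K j x)) →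
      U.card ≤ 2 * Kc * (ρ + 1) ^ 7 * l ^ ρ := by
  classical
  induction ρ with
  | zero =>
    intro U _ _ _ _ hpi
    have h1 : U.card ≤ 1 := by
      rw [Finset.card_le_one]
      have key : ∀ x ∈ U, ∀ y ∈ U, ¬ x < y := by
        intro x hx y hy hxy
        have hp := hpi true x hx
        have hc := hp.card_le hx
        rw [Nat.le_zero, Finset.card_eq_zero] at hc
        have h2 := hp y (insert (κ x y) ∅)
          (PT.snoc (PT.single hx) hy (by simpa using hxy) (Finset.notMem_empty _))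
          (by rw [hc]; simp)
        simp at h2
      intro x hx y hy
      rcases Nat.lt_trichotomy x y with h | h | h
      · exact absurd h (key x hx y hy)
      · exact h
      · exact absurd h (key y hy x hx)
    have h2 : 1 ≤ 2 * Kc * (0 + 1) ^ 7 * l ^ 0 := by simp; omega
    exact h1.trans h2
  | succ ρ ih =>
    intro U hL hBB hc hd hpi
    set Out : ℕ → Finset ℕ := fun v => (U.filter (fun w => v < w)).image (fun w => κ v w) with hOut
    set H := U.filter (fun v => ρ + 4 < (Out v).card) with hH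
    have hHU : H ⊆ U := Finset.filter_subset _ _
    have hHcard : H.card ≤ 2 * Kc * (ρ + 1) ^ 7 * l ^ ρ := by
      refine ih H (hL.mono hHU) (hBB.mono hHU) (fun j x hx => hc j x (hHU hx))
        (fun x hx => hd x (hHU hx)) ?_
      intro j x hx y D hD hdisj
      have hDU := hD.mono hHU
      have h1 := hpi j x (hHU hx) y D hDU hdisj
      have hy := hD.right
      have h2 : (D ∪ K j x).card < (Out y).card := by
        have h3 := Finset.card_union_le D (K j x)
        have h4 := hc j x (hHU hx)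
        have h5 := (Finset.mem_filter.mp hy).2
        omega
      obtain ⟨g, hg, hg'⟩ := Finset.exists_mem_notMem_of_card_lt_card h2
      simp only [hOut, Finset.mem_image, Finset.mem_filter] at hg
      obtain ⟨w, ⟨hw, hyw⟩, rfl⟩ := hg
      rw [Finset.mem_union, not_or] at hg'
      have h6 := hpi j x (hHU hx) w _ (hDU.snoc hw (by simpa using hyw) hg'.1)
        (by rw [Finset.disjoint_insert_left]; exact ⟨hg'.2, hdisj⟩)
      rw [Finset.card_insert_of_notMem hg'.1] at h6
      omega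
    have hLcard : (U \ H).card ≤ 1 + (ρ + 4) * (Kc * (ρ + 1) ^ 5 * l ^ (ρ + 1)) := by
      rcases (U \ H).eq_empty_or_nonempty with he | hne
      · simp [he]
      set x := (U \ H).min' hne with hx
      have hxL : x ∈ U \ H := Finset.min'_mem _ _
      have hxU : x ∈ U := (Finset.mem_sdiff.mp hxL).1
      have hOx : (Out x).card ≤ ρ + 4 := by
        by_contra hcon
        exact (Finset.mem_sdiff.mp hxL).2 (Finset.mem_filter.mpr ⟨hxU, by omega⟩)
      have hmass : ∀ g, (Nb κ true U g x).card ≤ Kc * (ρ + 1) ^ 5 * l ^ (ρ + 1) := by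
        intro g
        obtain ⟨j, hj⟩ : ∃ j, g ∉ K j x := by
          by_cases h : g ∈ K true x
          · exact ⟨false, Finset.disjoint_left.mp (hd x hxU) h⟩
          · exact ⟨true, h⟩
        have h1 := hpi j x hxU
        rcases (Nb κ true U g x).eq_empty_or_nonempty with he | ⟨w, hw⟩
        · simp [he]
        rw [mem_Nb] at hw
        obtain ⟨hwU, hxw, hk⟩ := hw
        have h2 := (h1.step hxU hxw (by rw [hk]; exact hj)).card_le hwU
        rw [hk, Finset.card_insert_of_notMem hj] at h2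
        have h3 := mass_le hκ (by omega) hL hBB hxU h1 hj
        refine h3.trans ?_
        have h4 : ρ + 1 - (K j x).card - 1 + 1 ≤ ρ + 1 := by omega
        have h5 : (K j x).card + 1 + (ρ + 1 - (K j x).card - 1) = ρ + 1 := by omega
        calc l ^ ((K j x).card + 1) * (Kc * (ρ + 1 - (K j x).card - 1 + 1) ^ 5 *
              l ^ (ρ + 1 - (K j x).card - 1))
            = Kc * (ρ + 1 - (K j x).card - 1 + 1) ^ 5 *
              (l ^ ((K j x).card + 1) * l ^ (ρ + 1 - (K j x).card - 1)) := by ring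
          _ = Kc * (ρ + 1 - (K j x).card - 1 + 1) ^ 5 * l ^ (ρ + 1) := by
              rw [← pow_add, h5]
          _ ≤ _ := Nat.mul_le_mul_right _ (Nat.mul_le_mul_left _ (Nat.pow_le_pow_left h4 5))
      have hsub : U \ H ⊆ insert x ((Out x).biUnion (fun g => Nb κ true U g x)) := by
        intro w hw
        rw [Finset.mem_insert]
        by_cases hwx : w = x
        · exact Or.inl hwx
        right
        have h1 : x < w := lt_of_le_of_ne (Finset.min'_le _ _ hw) (Ne.symm hwx)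
        have hwU := (Finset.mem_sdiff.mp hw).1
        rw [Finset.mem_biUnion]
        refine ⟨κ x w, ?_, ?_⟩
        · exact Finset.mem_image.mpr ⟨w, Finset.mem_filter.mpr ⟨hwU, h1⟩, rfl⟩
        · rw [mem_Nb]
          exact ⟨hwU, by simpa using h1, rfl⟩
      refine (Finset.card_le_card hsub).trans ((Finset.card_insert_le _ _).trans ?_)
      rw [add_comm]
      refine Nat.add_le_add_left ?_ 1
      refine (Finset.card_biUnion_le_card_mul _ _ _ (fun g _ => hmass g)).trans ?_
      exact Nat.mul_le_mul_right _ hOx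
    have hsum : U.card = H.card + (U \ H).card := by
      rw [Finset.card_sdiff_of_subset hHU]
      have := Finset.card_le_card hHU
      omega
    rw [hsum]
    exact (Nat.add_le_add hHcard hLcard).trans (two_label_num hKc hl)

theorem two_label (hκ : ∀ x y, κ x y = κ y x) (hl : 2 ≤ l) (hL : LevS κ U l lev) {Kc : ℕ}
    (hKc : 1 ≤ Kc) (hBB : BB κ U (fun j => Kc * (j + 1) ^ 5 * l ^ j))
    {B : Bool → Finset ℕ} {K : Bool → Bool → ℕ → Finset ℕ} (hTS : TS κ M U ρ B K) :
    U.card ≤ 2 * Kc * (ρ + 1) ^ 7 * l ^ ρ := by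
  classical
  rcases U.eq_empty_or_nonempty with he | ⟨u, hu⟩
  · simp [he]
  have hBρ : (B true).card ≤ ρ :=
    (Finset.card_le_card Finset.subset_union_left).trans ((hTS.pi true true u hu).card_le hu)
  obtain ⟨W, hWU, hfree, hcard⟩ := level_free (q := (B true).card) (S := B true) hκ (by omega) hL
    (fun v _ => Finset.card_le_card Finset.inter_subset_left)
  have h1 := two_label_aux (κ := κ) (lev := lev) hκ hl hKc (fun j x => K true j x \ B true)
    (ρ - (B true).card) W (hL.mono hWU) (hBB.mono hWU)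
    (fun j x _ => (Finset.card_le_card Finset.sdiff_subset).trans (hTS.labcard true j x))
    (fun x hx => (hTS.labdisj true x (hWU hx)).mono Finset.sdiff_subset Finset.sdiff_subset)
    (fun j x hx => by
      have h2 := hTS.pi true j x (hWU hx)
      rw [← Finset.union_sdiff_self_eq_union] at h2
      exact h2.free hWU hfree Finset.disjoint_sdiff)
  refine hcard.trans ((Nat.mul_le_mul_left _ h1).trans ?_)
  have h3 : (B true).card + (ρ - (B true).card) = ρ := by omega
  calc l ^ (B true).card * (2 * Kc * (ρ - (B true).card + 1) ^ 7 * l ^ (ρ - (B true).card))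
      = 2 * Kc * (ρ - (B true).card + 1) ^ 7 * (l ^ (B true).card * l ^ (ρ - (B true).card)) := by
        ring
    _ = 2 * Kc * (ρ - (B true).card + 1) ^ 7 * l ^ ρ := by rw [← pow_add, h3]
    _ ≤ _ := Nat.mul_le_mul_right _ (Nat.mul_le_mul_left _ (Nat.pow_le_pow_left (by omega) 7))

end FlashRainbow.PL
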