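import Pool.Agent.Work.MP_54723a_co.PL.Stage
import Pool.Agent.Work.MP_54723a_co.PL.Init
import Pool.Agent.Work.MP_54723a_co.PL.TwoLabel
import Pool.Agent.Work.MP_54723a_co.Final
import Mathlib.Analysis.Complex.ExponentialBounds

/-!
# Polylogarithmic bound: iteration and transfer to `Fin n`
-/

set_option autoImplicit false

namespace FlashRainbow.PL

variable {κ : ℕ → ℕ → ℕ} {l : ℕ} {lev : ℕ → ℕ → ℕ}

private theorem bbMono {β : ℕ → ℕ} {V U : Finset ℕ} (h : BB κ V β) (hUV : U ⊆ V) : BB κ U β :=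
  fun W hW r hr => h W (hW.trans hUV) r hr

/-- the iteration of the stages -/
private theorem iterate (hκ : ∀ x y, κ x y = κ y x) (hl : 2 ≤ l) {Kc s t₀ M R F : ℕ}
    (hKc : 1 ≤ Kc) (hs1 : 1 ≤ s) (ht : 2 ≤ t₀) (hM1 : 1 ≤ M)
    (hbig : 10 ^ 6 * (4 * (M + 1) * l) ^ 3 * Kc * (R + 1) ^ 5 * M * t₀ ^ 2 * (s + 1) ^ 2 ≤ l ^ s)
    (hF1 : 2 * Kc * (50 * s) ^ 7 ≤ F) (hF2 : 10 ^ 16 * Kc * t₀ ^ 2 * (s + 1) ^ 6 ≤ F) :
    ∀ (i : ℕ) (U : Finset ℕ) (ρ : ℕ) (B : Bool → Finset ℕ) (K : Bool → Bool → ℕ → Finset ℕ),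
      LevS κ U l lev → BB κ U (fun j => Kc * (j + 1) ^ 5 * l ^ j) → TS κ M U ρ B K →
      ρ < 2 ^ i → ρ ≤ R → (B true).card + 3 * i ≤ s → (B false).card ≤ 5 * s →
      U.card * (t₀ - 1) ^ i ≤ t₀ ^ i * F * l ^ ρ := by
  intro i
  induction i with
  | zero =>
    intro U ρ B K hL hBB hTS hρ _ _ _
    have h1 := two_label hκ hl hL hKc hBB hTS
    have h2 : ρ + 1 ≤ 50 * s := by
      rw [pow_zero] at hρ; omega
    have h3 : 2 * Kc * (ρ + 1) ^ 7 * l ^ ρ ≤ F * l ^ ρ := by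
      refine Nat.mul_le_mul_right _ (le_trans ?_ hF1)
      exact Nat.mul_le_mul_left _ (Nat.pow_le_pow_left h2 7)
    simpa using h1.trans h3
  | succ i ih =>
    intro U ρ B K hL hBB hTS hρ hρR hBt hBf
    have hpow : (t₀ - 1) ^ (i + 1) ≤ t₀ ^ (i + 1) := Nat.pow_le_pow_left (Nat.sub_le _ _) _
    have easy : U.card ≤ F * l ^ ρ → U.card * (t₀ - 1) ^ (i + 1) ≤ t₀ ^ (i + 1) * F * l ^ ρ := by
      intro h
      calc U.card * (t₀ - 1) ^ (i + 1) ≤ (F * l ^ ρ) * t₀ ^ (i + 1) := Nat.mul_le_mul h hpow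
        _ = t₀ ^ (i + 1) * F * l ^ ρ := by ring
    rcases Nat.lt_or_ge ρ (50 * s) with hsmall | hlarge
    · apply easy
      have h1 := two_label hκ hl hL hKc hBB hTS
      refine h1.trans (Nat.mul_le_mul_right _ (le_trans ?_ hF1))
      exact Nat.mul_le_mul_left _ (Nat.pow_le_pow_left hsmall 7)
    · rcases Nat.lt_or_ge U.card (10 ^ 16 * Kc * t₀ ^ 2 * (s + 1) ^ 6 * l ^ ρ) with hA | hA
      · apply easy
        exact hA.le.trans (Nat.mul_le_mul_right _ hF2)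
      · have hbig' : 10 ^ 6 * (4 * (M + 1) * l) ^ 3 * Kc * (ρ + 1) ^ 5 * M * t₀ ^ 2 * (s + 1) ^ 2
            ≤ l ^ s := by
          refine le_trans ?_ hbig
          gcongr
        obtain ⟨U', hU', ρ', B', K', hTS', h2ρ, hBt', hBf', hcard⟩ :=
          stage hκ hl hL hKc hBB hTS hs1 ht hM1 hlarge (by omega) hBf hbig' hA
        have hρ' : ρ' < 2 ^ i := by
          rw [pow_succ] at hρ; omega
        have h1 := ih U' ρ' B' K' (hL.mono hU') (bbMono hBB hU') hTS' hρ' (by omega) (by omega)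
          hBf'
        have hpos : 0 < l ^ ρ' := pow_pos (by omega) _
        refine Nat.le_of_mul_le_mul_right ?_ hpos
        calc U.card * (t₀ - 1) ^ (i + 1) * l ^ ρ'
            = ((t₀ - 1) * U.card * l ^ ρ') * (t₀ - 1) ^ i := by ring
          _ ≤ (t₀ * U'.card * l ^ ρ) * (t₀ - 1) ^ i := Nat.mul_le_mul_right _ hcard
          _ = t₀ * l ^ ρ * (U'.card * (t₀ - 1) ^ i) := by ring
          _ ≤ t₀ * l ^ ρ * (t₀ ^ i * F * l ^ ρ') := Nat.mul_le_mul_left _ h1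
          _ = t₀ ^ (i + 1) * F * l ^ ρ * l ^ ρ' := by ring

/-- `(1 + 1 / L) ^ L ≤ 3` -/
private theorem pow_ratio {L : ℕ} (hL : 1 ≤ L) : (L + 1) ^ L ≤ 3 * L ^ L := by
  have hL0 : (0 : ℝ) < L := by exact_mod_cast hL
  have h1 : (1 / (L : ℝ) + 1) ≤ Real.exp (1 / L) := Real.add_one_le_exp _
  have h2 : (1 / (L : ℝ) + 1) ^ L ≤ 3 := by
    calc (1 / (L : ℝ) + 1) ^ L ≤ Real.exp (1 / L) ^ L := pow_le_pow_left₀ (by positivity) h1 _
      _ = Real.exp 1 := by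
          rw [← Real.exp_nat_mul]
          congr 1
          field_simp
      _ ≤ 3 := Real.exp_one_lt_three.le
  have h3 : ((L : ℝ) + 1) ^ L ≤ 3 * (L : ℝ) ^ L := by
    have h4 : ((L : ℝ) + 1) = (1 / (L : ℝ) + 1) * L := by
      rw [add_mul, one_div, inv_mul_cancel₀ hL0.ne', one_mul, add_comm]
    rw [h4, mul_pow]
    exact mul_le_mul_of_nonneg_right h2 (by positivity)
  exact_mod_cast h3

private theorem sq_le_two_pow {t : ℕ} (ht : 9 ≤ t) : (2 * t + 1) ^ 2 ≤ 2 ^ t := by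
  induction t, ht using Nat.le_induction with
  | base => norm_num
  | succ t ht ih =>
    rw [pow_succ 2 t]
    nlinarith

private theorem num_big {l Kc L R : ℕ} (hl : 2 ≤ l) (hKc : 1 ≤ Kc) (hL : 1 ≤ L) (hR : R < 2 ^ L) :
    10 ^ 6 * (4 * (2 * R + 1) * l) ^ 3 * Kc * (R + 1) ^ 5 * (2 * R) * (L + 1) ^ 2 *
      (2 * ((44 + Kc) * L) + 1) ^ 2 ≤ l ^ (2 * ((44 + Kc) * L)) := by
  set t := (44 + Kc) * L with htdef
  have ht1 : 44 * L + Kc ≤ t := by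
    have : Kc ≤ Kc * L := Nat.le_mul_of_pos_right _ hL
    rw [htdef, add_mul]; omega
  have ht9 : 9 ≤ t := by omega
  have h1 : (10 : ℕ) ^ 6 ≤ 2 ^ 20 := by norm_num
  have h2 : 4 * (2 * R + 1) ≤ 2 ^ (L + 3) := by
    have : 2 ^ (L + 3) = 8 * 2 ^ L := by ring
    omega
  have h3 : Kc ≤ 2 ^ Kc := Nat.lt_two_pow_self.le
  have h4 : R + 1 ≤ 2 ^ L := hR
  have h5 : 2 * R ≤ 2 ^ (L + 1) := by
    have : 2 ^ (L + 1) = 2 * 2 ^ L := by ring
    omega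
  have h6 : L + 1 ≤ 2 ^ L := Nat.lt_two_pow_self
  have h7 : (2 * t + 1) ^ 2 ≤ 2 ^ t := sq_le_two_pow ht9
  have hle : 2 ^ (20 + (L + 3) * 3 + Kc + L * 5 + (L + 1) + L * 2 + t) ≤ 2 ^ (2 * t - 3) := by
    refine Nat.pow_le_pow_right (by norm_num) ?_
    omega
  calc 10 ^ 6 * (4 * (2 * R + 1) * l) ^ 3 * Kc * (R + 1) ^ 5 * (2 * R) * (L + 1) ^ 2 *
        (2 * t + 1) ^ 2
      = (10 ^ 6 * (4 * (2 * R + 1)) ^ 3 * Kc * (R + 1) ^ 5 * (2 * R) * (L + 1) ^ 2 *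
        (2 * t + 1) ^ 2) * l ^ 3 := by ring
    _ ≤ (2 ^ 20 * (2 ^ (L + 3)) ^ 3 * 2 ^ Kc * (2 ^ L) ^ 5 * 2 ^ (L + 1) * (2 ^ L) ^ 2 *
        2 ^ t) * l ^ 3 := by gcongr
    _ = 2 ^ (20 + (L + 3) * 3 + Kc + L * 5 + (L + 1) + L * 2 + t) * l ^ 3 := by ring
    _ ≤ 2 ^ (2 * t - 3) * l ^ 3 := Nat.mul_le_mul_right _ hle
    _ ≤ l ^ (2 * t - 3) * l ^ 3 := Nat.mul_le_mul_right _ (Nat.pow_le_pow_left hl _)
    _ = l ^ (2 * t) := by
        rw [← pow_add]; congr 1; omega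

private theorem num_init {l Kc L R : ℕ} (hl : 2 ≤ l) (hL : 1 ≤ L)
    (hR : R < 2 ^ L) : 4 * Kc * (R + 1) ^ 5 ≤ l ^ (2 * ((44 + Kc) * L)) := by
  set t := (44 + Kc) * L with htdef
  have ht1 : 44 * L + Kc ≤ t := by
    have : Kc ≤ Kc * L := Nat.le_mul_of_pos_right _ hL
    rw [htdef, add_mul]; omega
  have h3 : Kc ≤ 2 ^ Kc := Nat.lt_two_pow_self.le
  have h4 : R + 1 ≤ 2 ^ L := hR
  calc 4 * Kc * (R + 1) ^ 5 ≤ 2 ^ 2 * 2 ^ Kc * (2 ^ L) ^ 5 := by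
        gcongr
        norm_num
    _ = 2 ^ (2 + Kc + L * 5) := by ring
    _ ≤ 2 ^ (2 * t) := Nat.pow_le_pow_right (by norm_num) (by omega)
    _ ≤ l ^ (2 * t) := Nat.pow_le_pow_left hl _

/-- the constant -/
private def Cst (Kc : ℕ) : ℕ :=
  6 * (2 * (44 + Kc) + 1) ^ 2 *
    (2 * Kc * (50 * (2 * (44 + Kc))) ^ 7 + 10 ^ 16 * Kc * 2 ^ 2 * (2 * (44 + Kc) + 1) ^ 6)

private theorem one_le_Cst {Kc : ℕ} (hKc : 1 ≤ Kc) : Kc ≤ Cst Kc ∧ 1 ≤ Cst Kc := by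
  have h1 : Kc ≤ Cst Kc := by
    unfold Cst
    have e1 : 1 ≤ 6 * (2 * (44 + Kc) + 1) ^ 2 :=
      Nat.mul_pos (by norm_num) (Nat.pow_pos (by omega))
    have e2 : Kc ≤ 2 * Kc * (50 * (2 * (44 + Kc))) ^ 7 := by
      have : 1 ≤ (50 * (2 * (44 + Kc))) ^ 7 := Nat.one_le_pow _ _ (by omega)
      nlinarith
    calc Kc = 1 * Kc := (one_mul _).symm
      _ ≤ _ := Nat.mul_le_mul e1 (e2.trans (Nat.le_add_right _ _))
  exact ⟨h1, hKc.trans h1⟩

/-- the bound for symmetric colour functions -/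
private theorem core {Kc : ℕ} (hKc : 1 ≤ Kc) (hκ : ∀ x y, κ x y = κ y x) (hl : 2 ≤ l)
    {V : Finset ℕ} (hL : LevS κ V l lev) (hBB : BB κ V (fun j => Kc * (j + 1) ^ 5 * l ^ j))
    {L R : ℕ} (hL1 : 1 ≤ L) (hRL : R < 2 ^ L) (hR : Rnk κ V R) :
    V.card ≤ Cst Kc * L ^ 10 * l ^ R := by
  have hC := one_le_Cst hKc
  have hLpow : 1 ≤ L ^ 10 := Nat.one_le_pow _ _ hL1
  rcases Nat.eq_zero_or_pos R with rfl | hR1
  · have h1 := hBB V (Finset.Subset.refl _) 0 hR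
    simp only [Nat.zero_add, Nat.one_pow, mul_one, pow_zero] at h1 ⊢
    refine h1.trans (hC.1.trans ?_)
    exact Nat.le_mul_of_pos_right _ hLpow
  rcases Nat.lt_or_ge V.card (l ^ R) with hV | hV
  · refine hV.le.trans ?_
    calc l ^ R = 1 * l ^ R := (one_mul _).symm
      _ ≤ _ := Nat.mul_le_mul_right _ (by nlinarith [hC.2])
  set s := 2 * ((44 + Kc) * L) with hs
  set F := 2 * Kc * (50 * s) ^ 7 + 10 ^ 16 * Kc * (L + 1) ^ 2 * (s + 1) ^ 6 with hF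
  have hs1 : 1 ≤ s := by
    have : 1 ≤ (44 + Kc) * L := Nat.mul_pos (by omega) hL1
    omega
  have hs3 : 3 * L ≤ s := by
    rw [hs]; nlinarith
  obtain ⟨U, hUV, hcard, hTS⟩ := init hκ hl hBB hR (num_init hl hL1 hRL) hV
  have hit := iterate (lev := lev) hκ hl (Kc := Kc) (s := s) (t₀ := L + 1) (M := 2 * R) (R := R)
    (F := F) hKc hs1 (by omega) (by omega) (num_big hl hKc hL1 hRL) (Nat.le_add_right _ _)
    (Nat.le_add_left _ _) L U R (fun _ => ∅) (fun _ _ _ => ∅) (hL.mono hUV) (bbMono hBB hUV) hTS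
    hRL le_rfl (by simpa using hs3) (by simp)
  rw [Nat.add_sub_cancel] at hit
  have hLL : 0 < L ^ L := pow_pos hL1 _
  have hU : U.card ≤ 3 * F * l ^ R := by
    refine Nat.le_of_mul_le_mul_right ?_ hLL
    calc U.card * L ^ L ≤ (L + 1) ^ L * F * l ^ R := hit
      _ ≤ (3 * L ^ L) * F * l ^ R :=
          Nat.mul_le_mul_right _ (Nat.mul_le_mul_right _ (pow_ratio hL1))
      _ = 3 * F * l ^ R * L ^ L := by ring
  have hs' : s = 2 * (44 + Kc) * L := by rw [hs]; ring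
  have hs1' : s + 1 ≤ (2 * (44 + Kc) + 1) * L := by rw [hs']; nlinarith
  have hF' : F ≤ (2 * Kc * (50 * (2 * (44 + Kc))) ^ 7 +
      10 ^ 16 * Kc * 2 ^ 2 * (2 * (44 + Kc) + 1) ^ 6) * L ^ 8 := by
    have e1 : 2 * Kc * (50 * s) ^ 7 ≤ 2 * Kc * (50 * (2 * (44 + Kc))) ^ 7 * L ^ 8 := by
      have e11 : (50 * s) ^ 7 = (50 * (2 * (44 + Kc))) ^ 7 * L ^ 7 := by
        rw [hs', ← mul_pow]; congr 1; ring
      have e12 : L ^ 7 ≤ L ^ 8 := Nat.pow_le_pow_right hL1 (by norm_num)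
      rw [e11, ← mul_assoc]
      exact Nat.mul_le_mul_left _ e12
    have e2 : 10 ^ 16 * Kc * (L + 1) ^ 2 * (s + 1) ^ 6 ≤
        10 ^ 16 * Kc * 2 ^ 2 * (2 * (44 + Kc) + 1) ^ 6 * L ^ 8 := by
      calc 10 ^ 16 * Kc * (L + 1) ^ 2 * (s + 1) ^ 6
          ≤ 10 ^ 16 * Kc * (2 * L) ^ 2 * ((2 * (44 + Kc) + 1) * L) ^ 6 := by
            gcongr
            omega
        _ = 10 ^ 16 * Kc * 2 ^ 2 * (2 * (44 + Kc) + 1) ^ 6 * L ^ 8 := by ring
    calc F = 2 * Kc * (50 * s) ^ 7 + 10 ^ 16 * Kc * (L + 1) ^ 2 * (s + 1) ^ 6 := hF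
      _ ≤ 2 * Kc * (50 * (2 * (44 + Kc))) ^ 7 * L ^ 8 +
          10 ^ 16 * Kc * 2 ^ 2 * (2 * (44 + Kc) + 1) ^ 6 * L ^ 8 := Nat.add_le_add e1 e2
      _ = _ := by ring
  calc V.card ≤ 2 * (s + 1) ^ 2 * U.card := hcard
    _ ≤ 2 * ((2 * (44 + Kc) + 1) * L) ^ 2 * (3 * ((2 * Kc * (50 * (2 * (44 + Kc))) ^ 7 +
      10 ^ 16 * Kc * 2 ^ 2 * (2 * (44 + Kc) + 1) ^ 6) * L ^ 8) * l ^ R) := by
        refine Nat.mul_le_mul (Nat.mul_le_mul_left _ (Nat.pow_le_pow_left hs1' 2)) (hU.trans ?_)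
        exact Nat.mul_le_mul_right _ (Nat.mul_le_mul_left _ hF')
    _ = Cst Kc * L ^ 10 * l ^ R := by
        unfold Cst; ring

/-- going up -/
private theorem PT.toRP {V : Finset ℕ} {b : Bool} {x y : ℕ} {D : Finset ℕ}
    (h : PT κ b V x y D) (hb : b = true) : RP κ V y D := by
  induction h with
  | single hx => exact RP.single hx
  | snoc _ hz hlt hc ih => exact RP.step ih hz (by subst hb; simpa using hlt) hc

private theorem Rnk_of_RP (hκ : ∀ x y, κ x y = κ y x) {V : Finset ℕ} {R : ℕ}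
    (h : ∀ x D, RP κ V x D → D.card ≤ R) : Rnk κ V R := by
  intro b x y D hD
  cases b with
  | true => exact h y D (PT.toRP hD rfl)
  | false => exact h x D (PT.toRP (hD.rev hκ) rfl)

theorem polylog_final : ∃ C : ℕ, ∀ l k n : ℕ, 2 ≤ l → 1 ≤ k →
    C * (Nat.log 2 k + 1) ^ 10 * l ^ (k - 1) < n →
      ∀ c : Fin n → Fin n → ℕ,
        (∃ x : Fin (l + 1) → Fin n, StrictMono x ∧
          ∃ col : ℕ, ∀ i : Fin l, c (x i.castSucc) (x i.succ) = col) ∨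
        (∃ y : Fin (k + 1) → Fin n, StrictMono y ∧
          Function.Injective (fun i : Fin k => c (y i.castSucc) (y i.succ))) := by
  obtain ⟨Kc, hKc, hbb⟩ := exists_BB
  refine ⟨Cst Kc, ?_⟩
  intro l k n hl hk hn c
  by_contra hcon
  rw [not_or] at hcon
  obtain ⟨hflash, hrain⟩ := hcon
  set C : ℕ → ℕ → ℕ := fun a b => if h : a < n ∧ b < n then c ⟨a, h.1⟩ ⟨b, h.2⟩ else 0 with hC
  have hCeq : ∀ (a b : ℕ) (ha : a < n) (hb : b < n), C a b = c ⟨a, ha⟩ ⟨b, hb⟩ := by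
    intro a b ha hb
    rw [hC]
    simp only [ha, hb, and_self, dite_true]
  set κ : ℕ → ℕ → ℕ := fun a b => C (min a b) (max a b) with hκdef
  have hκ : ∀ x y, κ x y = κ y x := by
    intro x y
    simp only [hκdef]
    rw [min_comm, max_comm]
  have hκeq : ∀ (a b : ℕ) (ha : a < n) (hb : b < n), a < b → κ a b = c ⟨a, ha⟩ ⟨b, hb⟩ := by
    intro a b ha hb hab
    simp only [hκdef]
    rw [min_eq_left hab.le, max_eq_right hab.le]
    exact hCeq a b ha hb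
  set V := Finset.range n with hV
  have hnoflash : ∀ γ v, ¬ MP κ V γ v l := by
    intro γ v hmp
    obtain ⟨y, _, h1, h2, h3⟩ := hmp.toFun
    have h1' : ∀ i ≤ l, y i < n := fun i hi => Finset.mem_range.mp (h1 i hi)
    apply hflash
    refine ⟨_, strictMono_of_lt_succ y h1' h2, γ, fun i => ?_⟩
    have := h3 i i.2
    rw [hκeq _ _ (h1' i (by omega)) (h1' (i + 1) (by omega)) (h2 i i.2)] at this
    simpa using this
  have hR : ∀ x D, RP κ V x D → D.card ≤ k - 1 := by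
    intro x D hD
    by_contra hlt
    obtain ⟨D', _, hcard, hD'⟩ := hD.suffix k (by omega)
    obtain ⟨y, _, h1, h2, _, h4⟩ := hD'.toFun
    rw [hcard] at h1 h2 h4
    have h1' : ∀ i ≤ k, y i < n := fun i hi => Finset.mem_range.mp (h1 i hi)
    apply hrain
    refine ⟨_, strictMono_of_lt_succ y h1' h2, ?_⟩
    intro i j hij
    apply Fin.ext
    apply h4 i i.2 j j.2
    rw [hκeq _ _ (h1' i (by omega)) (h1' (i + 1) (by omega)) (h2 i i.2),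
      hκeq _ _ (h1' j (by omega)) (h1' (j + 1) (by omega)) (h2 j j.2)]
    simpa using hij
  classical
  set lev : ℕ → ℕ → ℕ := fun γ v => Nat.findGreatest (fun j => MP κ V γ v j) l with hlev
  have hspec : ∀ γ, ∀ v ∈ V, MP κ V γ v (lev γ v) := fun γ v hv =>
    Nat.findGreatest_spec (P := fun j => MP κ V γ v j) (Nat.zero_le l) (MP.single hv)
  have hlevlt : ∀ γ, ∀ v ∈ V, lev γ v < l := by
    intro γ v hv
    refine lt_of_le_of_ne (Nat.findGreatest_le _) ?_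
    intro heq
    have := hspec γ v hv
    rw [heq] at this
    exact hnoflash γ v this
  have hL : Lev κ V l lev := by
    refine ⟨hlevlt, ?_⟩
    intro u hu v hv huv
    have h1 := MP.step (hspec (κ u v) u hu) hv huv rfl
    exact Nat.le_findGreatest (hlevlt (κ u v) u hu) h1
  have hkL : k - 1 < 2 ^ (Nat.log 2 k + 1) :=
    lt_of_le_of_lt (Nat.sub_le _ _) (Nat.lt_pow_succ_log_self (by norm_num) k)
  have h1 := core hKc hκ hl (LevS.of_Lev hκ hL) (hbb l hl κ lev V hL)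
    (L := Nat.log 2 k + 1) (by omega) hkL (Rnk_of_RP hκ hR)
  rw [hV, Finset.card_range] at h1
  exact absurd hn (not_lt.mpr h1)

end FlashRainbow.PL
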