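import Pool.Agent.Work.MP_54723a_co.PL.Level
import Pool.Agent.Work.MP_54723a_co.PL.CTrick

/-!
# Polylogarithmic bound: palettes avoiding a prescribed set, light colours
-/

set_option autoImplicit false

namespace FlashRainbow.PL

variable {κ : ℕ → ℕ → ℕ} {b : Bool} {U W : Finset ℕ} {ρ l M : ℕ} {lev : ℕ → ℕ → ℕ}

theorem PT.colours_subset {x y : ℕ} {D : Finset ℕ} (h : PT κ b U x y D) :
    D ⊆ U.biUnion (Tch κ U) := by
  induction h with
  | single _ => simp
  | @snoc y z D h hz hlt hc ih =>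
    refine Finset.insert_subset ?_ ih
    rw [Finset.mem_biUnion]
    exact ⟨y, h.right, mem_Tch.mpr ⟨z, hz, hlt.ne.symm, rfl⟩⟩

/-- Lemma E: in a large set of vertices with palettes `B ∪ K x` there is a vertex `x` with a palette
`B ∪ K x₀ ∪ D` where `D` has `r + 1` colours and avoids `S` -/
theorem lemE (hκ : ∀ x y, κ x y = κ y x) (hl : 1 ≤ l) (hL : LevS κ U l lev) {β : ℕ → ℕ}
    (hBB : BB κ U β) (hM : ∀ v ∈ U, (Tch κ U v).card ≤ M) (hWU : W ⊆ U) {q r : ℕ}
    {B S : Finset ℕ} {K : ℕ → Finset ℕ} (hK : ∀ x ∈ W, (K x).card ≤ 3)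
    (hpi : ∀ x ∈ W, PI κ U ρ b x (B ∪ K x)) (hq : ∀ x ∈ W, (S ∩ Tch κ W x).card ≤ q)
    (hcard : (4 * (M + 1) * l) ^ 3 * l ^ (q + B.card) * β r < W.card) :
    ∃ x ∈ W, ∃ x₀ ∈ W, ∃ D : Finset ℕ, D.card = r + 1 ∧ Disjoint D S ∧ Disjoint D B ∧
      Disjoint D (K x₀) ∧ D ⊆ U.biUnion (Tch κ U) ∧ PI κ U ρ b x (B ∪ K x₀ ∪ D) := by
  obtain ⟨W₁, hW₁, hfree₁, hc₁⟩ := level_free (q := q + B.card) (S := S ∪ B) hκ hl (hL.mono hWU) (by
    intro v hv
    have h1 := hq v hv
    calc ((S ∪ B) ∩ Tch κ W v).card ≤ ((S ∩ Tch κ W v) ∪ B).card := by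
          apply Finset.card_le_card
          intro g hg
          simp only [Finset.mem_inter, Finset.mem_union] at hg ⊢
          tauto
      _ ≤ (S ∩ Tch κ W v).card + B.card := Finset.card_union_le _ _
      _ ≤ q + B.card := by omega)
  have hW₁U : W₁ ⊆ U := hW₁.trans hWU
  obtain ⟨W₂, hW₂, hc₂, hfree₂⟩ := ctrick_labels (M := M) hκ hl (hL.mono hW₁U) (fun v hv =>
     (Finset.card_le_card (Tch_mono hW₁U v)).trans (hM v (hW₁U hv))) 3 K
     (fun v hv => hK v (hW₁ hv))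
  have hW₂U : W₂ ⊆ U := hW₂.trans hW₁U
  have hr : ¬ Rnk κ W₂ r := by
    intro hr
    have h1 := hBB W₂ hW₂U r hr
    have h2 : W.card ≤ l ^ (q + B.card) * ((4 * (M + 1) * l) ^ 3 * β r) :=
      hc₁.trans (Nat.mul_le_mul_left _ (hc₂.trans (Nat.mul_le_mul_left _ h1)))
    have h3 : l ^ (q + B.card) * ((4 * (M + 1) * l) ^ 3 * β r) =
        (4 * (M + 1) * l) ^ 3 * l ^ (q + B.card) * β r := by ring
    rw [h3] at h2
    exact absurd hcard (Nat.not_lt.mpr h2)
  unfold Rnk at hr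
  push Not at hr
  obtain ⟨b', x₁, y₁, D, hp₁, hD⟩ := hr
  obtain ⟨x₀, y, hp⟩ : ∃ x y, PT κ b W₂ x y D := by
    by_cases hb : b' = b
    · subst hb
      exact ⟨x₁, y₁, hp₁⟩
    · have h1 : (!b') = b := by cases b <;> cases b' <;> simp_all
      rw [← h1]
      exact ⟨y₁, x₁, hp₁.rev hκ⟩
  obtain ⟨x, D', hD', hcard', hp'⟩ := hp.initial (r + 1) hD
  have hx₀ : x₀ ∈ W₂ := hp'.left
  have hx : x ∈ W₂ := hp'.right
  have hdS : Disjoint D' (S ∪ B) :=
    hp'.notMem_of_free (hfree₁.mono hW₂ (Finset.Subset.refl _))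
  have hdK : Disjoint D' (K x₀) := hp'.notMem_of_free (hfree₂ x₀ hx₀)
  rw [Finset.disjoint_union_right] at hdS
  have hp'' : PT κ b U x₀ x D' := hp'.mono hW₂U
  exact ⟨x, hW₁ (hW₂ hx), x₀, hW₁ (hW₂ hx₀), D', hcard', hdS.1, hdS.2, hdK, hp''.colours_subset,
    (hpi x₀ (hW₁ (hW₂ hx₀))).path hp'' (Finset.disjoint_union_right.mpr ⟨hdS.2, hdK⟩)⟩

/-- the mass of a colour outside a palette -/
theorem mass_le (hκ : ∀ x y, κ x y = κ y x) (hl : 1 ≤ l) (hL : LevS κ U l lev) {β : ℕ → ℕ}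
    (hBB : BB κ U β) {x g : ℕ} {P : Finset ℕ} (hx : x ∈ U) (hP : PI κ U ρ b x P) (hg : g ∉ P) :
    (Nb κ b U g x).card ≤ l ^ (P.card + 1) * β (ρ - P.card - 1) := by
  have hNU : Nb κ b U g x ⊆ U := Finset.filter_subset _ _
  obtain ⟨W', hW', hfree, hc⟩ := level_free (q := P.card + 1) (S := insert g P) hκ hl (hL.mono hNU)
    (by
      intro v _
      refine (Finset.card_le_card Finset.inter_subset_left).trans ?_
      rw [Finset.card_insert_of_notMem hg])
  have hr : Rnk κ W' (ρ - P.card - 1) := by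
    apply Rnk_of_PI (b := b) (ρ := ρ) hκ (hW'.trans hNU)
    intro w hw
    have hw' := hW' hw
    rw [mem_Nb] at hw'
    obtain ⟨_, hb, hk⟩ := hw'
    refine ⟨insert g P, ?_, hfree, ?_⟩
    · rw [← hk]
      exact hP.step hx hb (by rw [hk]; exact hg)
    · rw [Finset.card_insert_of_notMem hg]
      omega
  exact hc.trans (Nat.mul_le_mul_left _ (hBB W' (hW'.trans hNU) _ hr))

/-- the number of exceptional vertices of a colour -/
theorem card_NP_le (hκ : ∀ x y, κ x y = κ y x) (hl : 1 ≤ l) (hL : LevS κ U l lev) {β : ℕ → ℕ}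
    (hBB : BB κ U β) {B : Bool → Finset ℕ} {K : Bool → Bool → ℕ → Finset ℕ}
    (hTS : TS κ M U ρ B K) {s g : ℕ} (hg : g ∉ B b) (hs : (B b).card + s + 2 ≤ ρ) :
    (NP κ U ρ b s g).card ≤
      2 * ((4 * (M + 1) * l) ^ 3 * l ^ (1 + (B b).card) * β (ρ - (B b).card - s - 2)) := by
  classical
  set X := (4 * (M + 1) * l) ^ 3 * l ^ (1 + (B b).card) * β (ρ - (B b).card - s - 2) with hX
  have key : ∀ j : Bool, ((NP κ U ρ b s g).filter (fun x => g ∉ K b j x)).card ≤ X := by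
    intro j
    by_contra hcon
    have hNU : (NP κ U ρ b s g).filter (fun x => g ∉ K b j x) ⊆ U := by
      intro x hx
      exact (mem_NP.mp (Finset.mem_filter.mp hx).1).1
    obtain ⟨x, hx, x₀, hx₀, D, hDc, hDS, hDB, _, _, hPI⟩ :=
      lemE (κ := κ) (b := b) (U := U) (ρ := ρ) (l := l) (M := M) (lev := lev)
        (W := (NP κ U ρ b s g).filter (fun x => g ∉ K b j x)) (q := 1)
        (r := ρ - (B b).card - s - 2) (B := B b) (S := {g}) (K := K b j) hκ hl hL hBB hTS.touch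
        hNU (fun x _ => hTS.labcard b j x) (fun x hx => hTS.pi b j x (hNU hx))
        (fun x _ => (Finset.card_le_card Finset.inter_subset_left).trans
          (le_of_eq (Finset.card_singleton g)))
        (by rw [← hX]; exact Nat.not_le.mp hcon)
    rw [Finset.mem_filter] at hx hx₀
    refine (mem_NP.mp hx.1).2 ⟨B b ∪ K b j x₀ ∪ D, hPI, ?_, ?_⟩
    · rw [Finset.mem_union, Finset.mem_union]
      rintro ((h | h) | h)
      · exact hg h
      · exact hx₀.2 h
      · exact Finset.disjoint_left.mp hDS h (Finset.mem_singleton_self g)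
    · have h1 : (D ∪ B b).card ≤ (B b ∪ K b j x₀ ∪ D).card := by
        apply Finset.card_le_card
        intro a ha
        simp only [Finset.mem_union] at ha ⊢
        tauto
      rw [Finset.card_union_of_disjoint hDB, hDc] at h1
      omega
  have hcov : NP κ U ρ b s g ⊆ ((NP κ U ρ b s g).filter (fun x => g ∉ K b true x)) ∪
      ((NP κ U ρ b s g).filter (fun x => g ∉ K b false x)) := by
    intro x hx
    rw [Finset.mem_union, Finset.mem_filter, Finset.mem_filter]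
    by_cases h : g ∈ K b true x
    · exact Or.inr ⟨hx, Finset.disjoint_left.mp (hTS.labdisj b x (mem_NP.mp hx).1) h⟩
    · exact Or.inl ⟨hx, h⟩
  have h1 := (Finset.card_le_card hcov).trans (Finset.card_union_le _ _)
  have h2 := key true
  have h3 := key false
  omega

end FlashRainbow.PL
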