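import Pool.Agent.Work.MP_54723a_co.PL.Defs

/-!
# Polylogarithmic bound: choosing levels
-/

set_option autoImplicit false

namespace FlashRainbow.PL

variable {κ : ℕ → ℕ → ℕ} {W : Finset ℕ} {l : ℕ} {lev : ℕ → ℕ → ℕ}

/-- choosing levels: a large subset without pairs whose colour is in `S` -/
theorem level_free (hκ : ∀ x y, κ x y = κ y x) (hl : 1 ≤ l) (hL : LevS κ W l lev)
    {S : Finset ℕ} {q : ℕ} (hq : ∀ v ∈ W, (S ∩ Tch κ W v).card ≤ q) :
    ∃ W' ⊆ W, Free κ W' S ∧ W.card ≤ l ^ q * W'.card := by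
  classical
  by_contra hcon
  push Not at hcon
  have hl0 : (0 : ℝ) < l := by exact_mod_cast (by omega : 0 < l)
  have hl1 : (1 : ℝ) / l ≤ 1 := by
    rw [div_le_one hl0]
    exact_mod_cast hl
  rcases W.eq_empty_or_nonempty with hW | hW
  · have := hcon ∅ (Finset.empty_subset _) (by intro u hu; simp at hu)
    simp [hW] at this
  -- a uniform bound for the free sets
  have hsel := select_one (l := l) (lev := lev) hl (fun γ v => γ ∈ Tch κ W v) W hL.1
    (((W.card : ℝ) - 1) / (l : ℝ) ^ q) S W (Finset.Subset.refl _) (by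
      intro T' hT' hT'2
      have hfree : Free κ T' S := by
        intro u hu v hv huv hc
        obtain ⟨i, hi⟩ := hT'2 (κ u v) hc
        have h1 := hL.2 u (hT' hu) v (hT' hv) huv
        rw [hi u hu (mem_Tch.mpr ⟨v, hT' hv, huv.symm, rfl⟩),
          hi v hv (mem_Tch.mpr ⟨u, hT' hu, huv, hκ v u⟩)] at h1
        exact h1 rfl
      have h1 := hcon T' hT' hfree
      rw [le_div_iff₀ (by positivity)]
      have h2 : T'.card * l ^ q + 1 ≤ W.card := by rw [mul_comm]; exact h1
      have h3 : ((T'.card : ℝ)) * (l : ℝ) ^ q + 1 ≤ W.card := by exact_mod_cast h2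
      linarith)
  have h2 : (W.card : ℝ) * ((1 : ℝ) / l) ^ q ≤ ((W.card : ℝ) - 1) / (l : ℝ) ^ q := by
    refine le_trans ?_ hsel
    rw [← nsmul_eq_mul, ← Finset.sum_const]
    refine Finset.sum_le_sum fun v hv => ?_
    refine pow_le_pow_of_le_one (by positivity) hl1 ?_
    refine (Finset.card_le_card (t := S ∩ Tch κ W v) ?_).trans (hq v hv)
    intro g hg
    exact Finset.mem_inter.mpr (by simpa using hg)
  rw [div_pow, one_pow, ← mul_div_assoc, mul_one] at h2
  rw [div_le_div_iff_of_pos_right (by positivity)] at h2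
  linarith

end FlashRainbow.PL
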