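import Pool.Agent.Work.MP_54723a_co.PL.Defs

/-!
# Polylogarithmic bound: many connections between two vertices
-/

set_option autoImplicit false

namespace FlashRainbow.PL

variable {κ : ℕ → ℕ → ℕ} {b : Bool} {U W : Finset ℕ} {ρ l M : ℕ}

private theorem prod_left {A B : Finset ℕ} (P : ℕ × ℕ → Prop) [DecidablePred P] {c : ℕ}
    (h : ∀ a ∈ A, (B.filter (fun x => P (a, x))).card ≤ c) :
    ((A ×ˢ B).filter P).card ≤ A.card * c := by
  classical
  rw [Finset.card_filter, Finset.sum_product]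
  calc ∑ a ∈ A, ∑ x ∈ B, (if P (a, x) then 1 else 0)
      ≤ ∑ _a ∈ A, c := by
        refine Finset.sum_le_sum fun a ha => ?_
        rw [← Finset.card_filter]
        exact h a ha
    _ = A.card * c := by simp

private theorem prod_right {A B : Finset ℕ} (P : ℕ × ℕ → Prop) [DecidablePred P] {c : ℕ}
    (h : ∀ x ∈ B, (A.filter (fun a => P (a, x))).card ≤ c) :
    ((A ×ˢ B).filter P).card ≤ B.card * c := by
  classical
  rw [Finset.card_filter, Finset.sum_product_right]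
  calc ∑ x ∈ B, ∑ a ∈ A, (if P (a, x) then 1 else 0)
      ≤ ∑ _x ∈ B, c := by
        refine Finset.sum_le_sum fun a ha => ?_
        rw [← Finset.card_filter]
        exact h a ha
    _ = B.card * c := by simp

/-- for a typical vertex `x`, few later vertices are joined to `x` in a colour of `S` -/
private theorem few {B S : Finset ℕ} {H x : ℕ} {J : Finset ℕ} (hx : Typ κ U b B H x)
    (hJ : J ⊆ U) (ho : ∀ w ∈ J, Bf b x w) (hd : Disjoint S B) :
    (J.filter (fun w => κ x w ∈ S)).card ≤ S.card * H := by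
  classical
  have hsub : J.filter (fun w => κ x w ∈ S) ⊆ S.biUnion (fun g => Nb κ b U g x) := by
    intro w hw
    rw [Finset.mem_filter] at hw
    rw [Finset.mem_biUnion]
    exact ⟨κ x w, hw.2, mem_Nb.mpr ⟨hJ hw.1, ho w hw.1, rfl⟩⟩
  refine (Finset.card_le_card hsub).trans ?_
  refine Finset.card_biUnion_le_card_mul _ _ _ ?_
  intro g hg
  exact hx g (Finset.disjoint_left.mp hd hg)

/-- for a typical and nice vertex `x`, few later vertices are joined to `x` in a colour of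
`S ∪ B` -/
private theorem few' {B S : Finset ℕ} {H η x : ℕ} {J : Finset ℕ} (hx : Typ κ U b B H x)
    (hx' : Nice κ U b B η x) (hJ : J ⊆ U) (ho : ∀ w ∈ J, Bf b x w) :
    (J.filter (fun w => κ x w ∈ S ∪ B)).card ≤ S.card * H + η := by
  classical
  have hsub : J.filter (fun w => κ x w ∈ S ∪ B) ⊆
      J.filter (fun w => κ x w ∈ S \ B) ∪ U.filter (fun w => Bf b x w ∧ κ x w ∈ B) := by
    intro w hw
    rw [Finset.mem_filter, Finset.mem_union] at hw
    rw [Finset.mem_union, Finset.mem_filter, Finset.mem_filter, Finset.mem_sdiff]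
    by_cases hB : κ x w ∈ B
    · right; exact ⟨hJ hw.1, ho w hw.1, hB⟩
    · left
      rcases hw.2 with h1 | h1
      · exact ⟨hw.1, h1, hB⟩
      · exact absurd h1 hB
  refine (Finset.card_le_card hsub).trans ((Finset.card_union_le _ _).trans ?_)
  refine Nat.add_le_add ?_ hx'
  refine (few hx hJ ho Finset.sdiff_disjoint).trans ?_
  exact Nat.mul_le_mul_right _ (Finset.card_le_card Finset.sdiff_subset)

private theorem few_one {B : Finset ℕ} {H x g : ℕ} {J : Finset ℕ} (hx : Typ κ U b B H x)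
    (hJ : J ⊆ U) (ho : ∀ w ∈ J, Bf b x w) (hg : g ∉ B) :
    (J.filter (fun w => κ x w = g)).card ≤ H := by
  classical
  refine (Finset.card_le_card ?_).trans (hx g hg)
  intro w hw
  rw [Finset.mem_filter] at hw
  exact mem_Nb.mpr ⟨hJ hw.1, ho w hw.1, hw.2⟩

theorem matching (hκ : ∀ x y, κ x y = κ y x) {B : Bool → Finset ℕ} {H η J m b₀ : ℕ}
    {J₁ J₂ : Finset ℕ} {z y : ℕ} (hdisj : Disjoint (B true) (B false))
    (hB : ∀ b, (B b).card ≤ b₀)
    (hJ1 : J₁ ⊆ U) (hJ2 : J₂ ⊆ U) (hc1 : J₁.card = J) (hc2 : J₂.card = J) (hy : y ∈ U)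
    (ho1 : ∀ w ∈ J₁, Bf b z w) (ho2 : ∀ w ∈ J₁, ∀ w' ∈ J₂, Bf b w w') (ho3 : ∀ w ∈ J₂, Bf b w y)
    (hz : Typ κ U b (B b) H z) (hz' : Nice κ U b (B b) η z)
    (hy1 : Typ κ U (!b) (B (!b)) H y) (hy' : Nice κ U (!b) (B (!b)) η y)
    (hT1 : ∀ w ∈ J₁, Typ κ U b (B b) H w) (hT2 : ∀ w ∈ J₂, Typ κ U (!b) (B (!b)) H w)
    (hnum : (9 * m + 4 * b₀ + 3) * H + 2 * η < J)
    (Q : Finset ℕ) (hQ : Q.card ≤ 3 * m) :
    ∃ y₁ ∈ J₁, ∃ y₂ ∈ J₂, κ z y₁ ∉ Q ∪ (B true ∪ B false) ∧ κ y₁ y₂ ∉ Q ∪ (B true ∪ B false) ∧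
      κ y₂ y ∉ Q ∪ (B true ∪ B false) ∧ κ z y₁ ≠ κ y₁ y₂ ∧ κ y₁ y₂ ≠ κ y₂ y ∧
      κ z y₁ ≠ κ y₂ y := by
  classical
  have hdb : Disjoint (B b) (B (!b)) := by
    cases b
    · exact hdisj.symm
    · exact hdisj
  have hBun : B true ∪ B false = B (!b) ∪ B b := by
    cases b
    · rfl
    · exact Finset.union_comm _ _
  have hBun' : B true ∪ B false = B b ∪ B (!b) := by rw [hBun, Finset.union_comm]
  set E : Finset ℕ := Q ∪ (B true ∪ B false) with hE
  have hE1 : E = (Q ∪ B (!b)) ∪ B b := by rw [hE, hBun, Finset.union_assoc]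
  have hE2 : E = (Q ∪ B b) ∪ B (!b) := by rw [hE, hBun', Finset.union_assoc]
  have hb1 := hB b
  have hb2 := hB (!b)
  have hQ1 : (Q ∪ B (!b)).card ≤ 3 * m + b₀ :=
    (Finset.card_union_le _ _).trans (Nat.add_le_add hQ hb2)
  have hQ2 : (Q ∪ B b).card ≤ 3 * m + b₀ :=
    (Finset.card_union_le _ _).trans (Nat.add_le_add hQ hb1)
  have ho3' : ∀ w ∈ J₂, Bf (!b) y w := fun w hw => Bf_not.mpr (ho3 w hw)
  have ho2' : ∀ w' ∈ J₂, ∀ w ∈ J₁, Bf (!b) w' w := fun w' hw' w hw => Bf_not.mpr (ho2 w hw w' hw')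
  by_contra hcon
  push Not at hcon
  -- the seven bad sets
  set X1 := (J₁ ×ˢ J₂).filter (fun p : ℕ × ℕ => κ z p.1 ∈ E) with hX1
  set X2 := (J₁ ×ˢ J₂).filter (fun p : ℕ × ℕ => κ y p.2 ∈ E) with hX2
  set X3 := (J₁ ×ˢ J₂).filter (fun p : ℕ × ℕ => κ p.1 p.2 ∈ (Q ∪ B (!b)) \ B b) with hX3
  set X4 := (J₁ ×ˢ J₂).filter (fun p : ℕ × ℕ => κ p.2 p.1 ∈ B b) with hX4
  set X5 := (J₁ ×ˢ J₂).filter (fun p : ℕ × ℕ => κ z p.1 ∉ E ∧ κ p.1 p.2 = κ z p.1) with hX5
  set X6 := (J₁ ×ˢ J₂).filter (fun p : ℕ × ℕ => κ y p.2 ∉ E ∧ κ p.2 p.1 = κ y p.2) with hX6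
  set X7 := (J₁ ×ˢ J₂).filter (fun p : ℕ × ℕ => κ y p.2 ∉ E ∧ κ z p.1 = κ y p.2) with hX7
  have c1 : X1.card ≤ J * ((3 * m + b₀) * H + η) := by
    rw [← hc2]
    refine prod_right _ fun x _ => ?_
    simp only [hE1]
    exact (few' hz hz' hJ1 ho1).trans (Nat.add_le_add_right (Nat.mul_le_mul_right _ hQ1) _)
  have c2 : X2.card ≤ J * ((3 * m + b₀) * H + η) := by
    rw [← hc1]
    refine prod_left _ fun x _ => ?_
    simp only [hE2]
    exact (few' hy1 hy' hJ2 ho3').trans (Nat.add_le_add_right (Nat.mul_le_mul_right _ hQ2) _)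
  have c3 : X3.card ≤ J * ((3 * m + b₀) * H) := by
    rw [← hc1]
    refine prod_left _ fun x hx => ?_
    refine (few (hT1 x hx) hJ2 (ho2 x hx) Finset.sdiff_disjoint).trans ?_
    exact Nat.mul_le_mul_right _ ((Finset.card_le_card Finset.sdiff_subset).trans hQ1)
  have c4 : X4.card ≤ J * (b₀ * H) := by
    rw [← hc2]
    refine prod_right _ fun x hx => ?_
    refine (few (hT2 x hx) hJ1 (ho2' x hx) hdb).trans ?_
    exact Nat.mul_le_mul_right _ hb1
  have c5 : X5.card ≤ J * H := by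
    rw [← hc1]
    refine prod_left _ fun x hx => ?_
    by_cases hg : κ z x ∈ E
    · simp [hg]
    · simp only [hg, not_false_eq_true, true_and]
      refine few_one (hT1 x hx) hJ2 (ho2 x hx) ?_
      intro hh
      exact hg (by rw [hE1]; exact Finset.mem_union_right _ hh)
  have c6 : X6.card ≤ J * H := by
    rw [← hc2]
    refine prod_right _ fun x hx => ?_
    by_cases hg : κ y x ∈ E
    · simp [hg]
    · simp only [hg, not_false_eq_true, true_and]
      refine few_one (hT2 x hx) hJ1 (ho2' x hx) ?_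
      intro hh
      exact hg (by rw [hE2]; exact Finset.mem_union_right _ hh)
  have c7 : X7.card ≤ J * H := by
    rw [← hc2]
    refine prod_right _ fun x hx => ?_
    by_cases hg : κ y x ∈ E
    · simp [hg]
    · simp only [hg, not_false_eq_true, true_and]
      refine few_one hz hJ1 ho1 ?_
      intro hh
      exact hg (by rw [hE1]; exact Finset.mem_union_right _ hh)
  -- every pair is bad
  have hsub : J₁ ×ˢ J₂ ⊆ X1 ∪ (X2 ∪ (X3 ∪ (X4 ∪ (X5 ∪ (X6 ∪ X7))))) := by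
    intro p hp
    obtain ⟨hp1, hp2⟩ := Finset.mem_product.mp hp
    by_contra hn
    simp only [hX1, hX2, hX3, hX4, hX5, hX6, hX7, Finset.mem_union, Finset.mem_filter, hp,
      true_and, not_or, not_and] at hn
    obtain ⟨n1, n2, n3, n4, n5, n6, n7⟩ := hn
    have e1 : κ p.2 y ∉ E := by rw [hκ]; exact n2
    have e2 : κ p.1 p.2 ∉ E := by
      intro hh
      by_cases h1 : κ p.1 p.2 ∈ B b
      · exact n4 (by rw [hκ]; exact h1)
      · rw [hE1, Finset.mem_union] at hh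
        rcases hh with hh | hh
        · exact n3 (Finset.mem_sdiff.mpr ⟨hh, h1⟩)
        · exact h1 hh
    have := hcon p.1 hp1 p.2 hp2 n1 e2 e1 (fun h => n5 n1 h.symm)
      (fun h => n6 n2 (by rw [hκ p.2 p.1, h, hκ]))
    exact n7 n2 (by rw [this, hκ])
  have hcard := Finset.card_le_card hsub
  rw [Finset.card_product, hc1, hc2] at hcard
  have u1 := Finset.card_union_le X1 (X2 ∪ (X3 ∪ (X4 ∪ (X5 ∪ (X6 ∪ X7)))))
  have u2 := Finset.card_union_le X2 (X3 ∪ (X4 ∪ (X5 ∪ (X6 ∪ X7))))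
  have u3 := Finset.card_union_le X3 (X4 ∪ (X5 ∪ (X6 ∪ X7)))
  have u4 := Finset.card_union_le X4 (X5 ∪ (X6 ∪ X7))
  have u5 := Finset.card_union_le X5 (X6 ∪ X7)
  have u6 := Finset.card_union_le X6 X7
  have htot : J * J ≤ J * ((9 * m + 4 * b₀ + 3) * H + 2 * η) := by
    have : J * ((9 * m + 4 * b₀ + 3) * H + 2 * η) =
        J * ((3 * m + b₀) * H + η) + J * ((3 * m + b₀) * H + η) + J * ((3 * m + b₀) * H) +
        J * (b₀ * H) + J * H + J * H + J * H := by ring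
    rw [this]
    omega
  have hJpos : 0 < J := by omega
  exact absurd (Nat.le_of_mul_le_mul_left htot hJpos) (by omega)

end FlashRainbow.PL
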