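import Pool.Agent.Work.MP_54723a_co.PL.Defs

/-!
# Polylogarithmic bound: random functions
-/

set_option autoImplicit false

namespace FlashRainbow.PL

/-- One triple: the functions in a set `A` which is closed under changes at `a`, `b`, `d`. -/
private theorem one_triple {C : Type} [Fintype C] [DecidableEq C] {q : ℕ} (A : Finset (C → Fin q))
    (a b d : C) (hab : a ≠ b) (hbd : b ≠ d) (had : a ≠ d) (α₁ α₂ α₃ : Fin q)
    (hA : ∀ τ ∈ A, ∀ σ : C → Fin q, (∀ x, x ≠ a → x ≠ b → x ≠ d → σ x = τ x) → σ ∈ A) :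
    q ^ 3 * (A.filter (fun τ => ¬ (τ a = α₁ ∧ τ b = α₂ ∧ τ d = α₃))).card + A.card ≤
      q ^ 3 * A.card := by
  classical
  set B := A.filter (fun τ => τ a = α₁ ∧ τ b = α₂ ∧ τ d = α₃) with hB
  set f : (C → Fin q) → (C → Fin q) := fun τ =>
    Function.update (Function.update (Function.update τ a α₁) b α₂) d α₃ with hf
  have him : A.image f ⊆ B := by
    intro σ hσ
    obtain ⟨τ, hτ, rfl⟩ := Finset.mem_image.mp hσ
    rw [hB, Finset.mem_filter]
    refine ⟨hA τ hτ _ ?_, ?_, ?_, ?_⟩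
    · intro x hxa hxb hxd
      simp [hf, hxa, hxb, hxd]
    · simp [hf, hab, had]
    · simp [hf, hbd]
    · simp [hf]
  have h1 : A.card ≤ q ^ 3 * (A.image f).card := by
    refine Finset.card_le_mul_card_image A (q ^ 3) ?_
    intro σ _
    have h2 : (Finset.univ : Finset (Fin q × Fin q × Fin q)).card = q ^ 3 := by
      rw [Finset.card_univ, Fintype.card_prod, Fintype.card_prod, Fintype.card_fin]
      ring
    rw [← h2]
    refine Finset.card_le_card_of_injOn (fun τ => (τ a, τ b, τ d)) (fun _ _ => by simp) ?_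
    intro τ hτ τ' hτ' heq
    simp only [Finset.coe_filter, Set.mem_ofPred_eq] at hτ hτ'
    simp only [Prod.mk.injEq] at heq
    have h3 : f τ = f τ' := hτ.2.trans hτ'.2.symm
    funext x
    by_cases hxa : x = a
    · rw [hxa]; exact heq.1
    by_cases hxb : x = b
    · rw [hxb]; exact heq.2.1
    by_cases hxd : x = d
    · rw [hxd]; exact heq.2.2
    have h4 := congrFun h3 x
    simpa [hf, hxa, hxb, hxd] using h4
  have h2 : A.card ≤ q ^ 3 * B.card := h1.trans (Nat.mul_le_mul_left _ (Finset.card_le_card him))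
  have h3 : B.card + (A.filter (fun τ => ¬ (τ a = α₁ ∧ τ b = α₂ ∧ τ d = α₃))).card = A.card :=
    Finset.card_filter_add_card_filter_not _
  calc q ^ 3 * (A.filter (fun τ => ¬ (τ a = α₁ ∧ τ b = α₂ ∧ τ d = α₃))).card + A.card
      ≤ q ^ 3 * (A.filter (fun τ => ¬ (τ a = α₁ ∧ τ b = α₂ ∧ τ d = α₃))).card + q ^ 3 * B.card :=
        Nat.add_le_add_left h2 _
    _ = q ^ 3 * A.card := by rw [← h3]; ring

open Classical in
private theorem fail_aux {C : Type} [Fintype C] {q : ℕ} (hq : 1 ≤ q) (α₁ α₂ α₃ : Fin q) (m : ℕ) :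
    ∀ T : C → C → C → Prop,
    (∀ Q : Finset C, Q.card ≤ 3 * m → ∃ a b d, T a b d ∧ a ∉ Q ∧ b ∉ Q ∧ d ∉ Q ∧
      a ≠ b ∧ b ≠ d ∧ a ≠ d) →
    (Finset.univ.filter (fun τ : C → Fin q =>
      ∀ a b d, T a b d → ¬ (τ a = α₁ ∧ τ b = α₂ ∧ τ d = α₃))).card * (q ^ 3 + m) ≤
      q ^ 3 * Fintype.card (C → Fin q) := by
  induction m with
  | zero =>
    intro T _
    rw [add_zero, mul_comm]
    exact Nat.mul_le_mul_left _ (Finset.card_filter_le _ _)
  | succ m ih =>
    intro T hT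
    obtain ⟨a, b, d, hTabd, _, _, _, hab, hbd, had⟩ := hT ∅ (by simp)
    obtain ⟨T', hT'⟩ : ∃ T' : C → C → C → Prop, ∀ x y z, T' x y z ↔
        (T x y z ∧ (x ≠ a ∧ x ≠ b ∧ x ≠ d) ∧ (y ≠ a ∧ y ≠ b ∧ y ≠ d) ∧
          (z ≠ a ∧ z ≠ b ∧ z ≠ d)) := ⟨_, fun _ _ _ => Iff.rfl⟩
    have h1 := ih T' (by
      intro Q hQ
      obtain ⟨x, y, z, hxyz, hx, hy, hz, h⟩ := hT (Q ∪ {a, b, d}) (by
        refine (Finset.card_union_le _ _).trans ?_
        have : ({a, b, d} : Finset C).card ≤ 3 := Finset.card_le_three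
        omega)
      simp only [Finset.mem_union, Finset.mem_insert, Finset.mem_singleton, not_or] at hx hy hz
      exact ⟨x, y, z, (hT' _ _ _).mpr ⟨hxyz, hx.2, hy.2, hz.2⟩, hx.1, hy.1, hz.1, h⟩)
    set A := Finset.univ.filter (fun τ : C → Fin q =>
      ∀ x y z, T' x y z → ¬ (τ x = α₁ ∧ τ y = α₂ ∧ τ z = α₃)) with hA
    set F := Finset.univ.filter (fun τ : C → Fin q =>
      ∀ x y z, T x y z → ¬ (τ x = α₁ ∧ τ y = α₂ ∧ τ z = α₃)) with hF
    have h2 := one_triple A a b d hab hbd had α₁ α₂ α₃ (by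
      intro τ hτ σ hσ
      rw [hA, Finset.mem_filter] at hτ ⊢
      refine ⟨Finset.mem_univ _, ?_⟩
      intro x y z hxyz
      have h0 := (hT' _ _ _).mp hxyz
      rw [hσ x h0.2.1.1 h0.2.1.2.1 h0.2.1.2.2, hσ y h0.2.2.1.1 h0.2.2.1.2.1 h0.2.2.1.2.2,
        hσ z h0.2.2.2.1 h0.2.2.2.2.1 h0.2.2.2.2.2]
      exact hτ.2 x y z hxyz)
    have h3 : F ⊆ A.filter (fun τ => ¬ (τ a = α₁ ∧ τ b = α₂ ∧ τ d = α₃)) := by
      intro τ hτ
      rw [hF, Finset.mem_filter] at hτ
      rw [Finset.mem_filter, hA, Finset.mem_filter]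
      exact ⟨⟨Finset.mem_univ _, fun x y z hxyz => hτ.2 x y z ((hT' _ _ _).mp hxyz).1⟩,
        hτ.2 a b d hTabd⟩
    have h4 := Finset.card_le_card h3
    have h5 : q ^ 3 * F.card + A.card ≤ q ^ 3 * A.card :=
      (Nat.add_le_add_right (Nat.mul_le_mul_left _ h4) _).trans h2
    have hq3 : 1 ≤ q ^ 3 := Nat.one_le_pow _ _ hq
    -- F (q^3 + m + 1) <= A (q^3 + m)
    have h6 : F.card * (q ^ 3 + (m + 1)) ≤ A.card * (q ^ 3 + m) := by
      have h7 : q ^ 3 * (F.card * (q ^ 3 + (m + 1))) ≤ q ^ 3 * (A.card * (q ^ 3 + m)) := by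
        have h8 : (q ^ 3 * F.card + A.card) * (q ^ 3 + (m + 1)) ≤
            q ^ 3 * A.card * (q ^ 3 + (m + 1)) := Nat.mul_le_mul_right _ h5
        have h9 : (q ^ 3 * F.card + A.card) * (q ^ 3 + (m + 1)) =
            q ^ 3 * (F.card * (q ^ 3 + (m + 1))) + A.card * q ^ 3 + A.card * (m + 1) := by ring
        have h10 : q ^ 3 * A.card * (q ^ 3 + (m + 1)) =
            q ^ 3 * (A.card * (q ^ 3 + m)) + A.card * q ^ 3 := by ring
        rw [h9, h10] at h8
        generalize q ^ 3 * (F.card * (q ^ 3 + (m + 1))) = u1 at *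
        generalize q ^ 3 * (A.card * (q ^ 3 + m)) = u2 at *
        omega
      exact Nat.le_of_mul_le_mul_left h7 (by omega)
    exact h6.trans h1

private theorem card_filter_inst {α : Type} (i1 i2 : Fintype α) (p : α → Prop)
    (d1 d2 : DecidablePred p) : (@Finset.filter α p d1 (@Finset.univ α i1)).card =
      (@Finset.filter α p d2 (@Finset.univ α i2)).card := by
  have h1 : i1 = i2 := Subsingleton.elim _ _
  have h2 : d1 = d2 := Subsingleton.elim _ _
  subst h1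
  subst h2
  rfl

private theorem card_inst {α : Type} (i1 i2 : Fintype α) :
    @Fintype.card α i1 = @Fintype.card α i2 := by
  have h1 : i1 = i2 := Subsingleton.elim _ _
  subst h1
  rfl

theorem fail_bound {C : Type} [Fintype C] [DecidableEq C] {q m : ℕ} (hq : 1 ≤ q)
    (T : C → C → C → Prop) [∀ a b d, Decidable (T a b d)]
    (hT : ∀ Q : Finset C, Q.card ≤ 3 * m → ∃ a b d, T a b d ∧ a ∉ Q ∧ b ∉ Q ∧ d ∉ Q ∧
      a ≠ b ∧ b ≠ d ∧ a ≠ d) (α₁ α₂ α₃ : Fin q) :
    (Finset.univ.filter (fun τ : C → Fin q =>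
      ∀ a b d, T a b d → ¬ (τ a = α₁ ∧ τ b = α₂ ∧ τ d = α₃))).card * (q ^ 3 + m) ≤
      q ^ 3 * Fintype.card (C → Fin q) := by
  have h := fail_aux hq α₁ α₂ α₃ m T hT
  refine le_trans (le_of_eq ?_) (h.trans (le_of_eq ?_))
  · exact congrArg (fun t => t * (q ^ 3 + m)) (card_filter_inst _ _ _ _ _)
  · exact congrArg (fun t => q ^ 3 * t) (card_inst _ _)

theorem card_one_coord {C : Type} [Fintype C] [DecidableEq C] {q : ℕ} (a : C)
    (A : Finset (Fin q)) :
    (Finset.univ.filter (fun τ : C → Fin q => τ a ∈ A)).card * q =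
      A.card * Fintype.card (C → Fin q) := by
  classical
  have h1 : Finset.univ.filter (fun τ : C → Fin q => τ a ∈ A) =
      Fintype.piFinset (fun c => if c = a then A else Finset.univ) := by
    ext τ
    rw [Finset.mem_filter, Fintype.mem_piFinset]
    constructor
    · rintro ⟨_, h⟩ c
      by_cases hc : c = a
      · subst hc; simpa using h
      · simp [hc]
    · intro h
      have := h a
      rw [if_pos rfl] at this
      exact ⟨Finset.mem_univ _, this⟩
  have h2 : ∀ c, (if c = a then A else (Finset.univ : Finset (Fin q))).card =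
      if c = a then A.card else q := by
    intro c
    split_ifs <;> simp
  rw [h1, Fintype.card_piFinset, Finset.prod_congr rfl (fun c _ => h2 c), Fintype.card_fun,
    Fintype.card_fin]
  rw [← Finset.mul_prod_erase _ _ (Finset.mem_univ a), if_pos rfl]
  have h3 : ∏ c ∈ Finset.univ.erase a, (if c = a then A.card else q) =
      q ^ (Finset.univ.erase a).card := by
    rw [← Finset.prod_const]
    refine Finset.prod_congr rfl fun c hc => ?_
    rw [if_neg (Finset.ne_of_mem_erase hc)]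
  rw [h3, mul_assoc, ← pow_succ, Finset.card_erase_add_one (Finset.mem_univ a), Finset.card_univ]

/-- simultaneous Markov for six quantities -/
theorem exists_six {Ω : Type} [Fintype Ω] [Nonempty Ω] (f : Fin 6 → Ω → ℝ) (c : Fin 6 → ℝ)
    (hf : ∀ i ω, 0 ≤ f i ω) (hc : ∀ i, 0 < c i)
    (h : ∀ i, ∑ ω, f i ω ≤ c i * Fintype.card Ω) : ∃ ω, ∀ i, f i ω ≤ 6 * c i := by
  have h1 : ∑ ω : Ω, ∑ i : Fin 6, f i ω / c i ≤ ∑ _ω : Ω, (6 : ℝ) := by
    rw [Finset.sum_comm]
    have h2 : ∀ i : Fin 6, ∑ ω : Ω, f i ω / c i ≤ Fintype.card Ω := by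
      intro i
      rw [← Finset.sum_div, div_le_iff₀ (hc i), mul_comm]
      exact h i
    calc ∑ i : Fin 6, ∑ ω : Ω, f i ω / c i ≤ ∑ _i : Fin 6, (Fintype.card Ω : ℝ) :=
          Finset.sum_le_sum fun i _ => h2 i
      _ = ∑ _ω : Ω, (6 : ℝ) := by
          simp [mul_comm]
  obtain ⟨ω, _, hω⟩ := Finset.exists_le_of_sum_le Finset.univ_nonempty h1
  refine ⟨ω, fun i => ?_⟩
  have h3 : f i ω / c i ≤ ∑ i : Fin 6, f i ω / c i :=
    Finset.single_le_sum (f := fun i => f i ω / c i)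
      (fun j _ => div_nonneg (hf j ω) (hc j).le) (Finset.mem_univ i)
  have h4 := h3.trans hω
  rwa [div_le_iff₀ (hc i)] at h4

end FlashRainbow.PL
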