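import Pool.Agent.Work.MP_54723a_co.PL.StageCore
import Pool.Agent.Work.MP_54723a_co.PL.Rand

/-!
# The random reserve
-/

set_option autoImplicit false

namespace FlashRainbow.PL

variable {κ : ℕ → ℕ → ℕ} {b : Bool} {U : Finset ℕ} {ρ : ℕ}

/-- many rainbow paths `z, y₁, y₂, y` through `J₁`, `J₂` -/
def Mat (κ : ℕ → ℕ → ℕ) (Bb J₁ J₂ : Finset ℕ) (m z y : ℕ) : Prop :=
  ∀ Q : Finset ℕ, Q.card ≤ 3 * m →
    ∃ y₁ ∈ J₁, ∃ y₂ ∈ J₂, κ z y₁ ∉ Q ∪ Bb ∧ κ y₁ y₂ ∉ Q ∪ Bb ∧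
      κ y₂ y ∉ Q ∪ Bb ∧ κ z y₁ ≠ κ y₁ y₂ ∧ κ y₁ y₂ ≠ κ y₂ y ∧ κ z y₁ ≠ κ y₂ y

/-- colours of `Cc \ Bb` whose value lies in `A` -/
private def sel {q : ℕ} (Cc Bb : Finset ℕ) (A : Finset (Fin q)) (τ : {g // g ∈ Cc} → Fin q) :
    Finset ℕ :=
  (Cc.attach.filter (fun g => g.1 ∉ Bb ∧ τ g ∈ A)).image Subtype.val

private theorem mem_sel {q : ℕ} {Cc Bb : Finset ℕ} {A : Finset (Fin q)}
    {τ : {g // g ∈ Cc} → Fin q} {g : ℕ} :
    g ∈ sel Cc Bb A τ ↔ ∃ h : g ∈ Cc, g ∉ Bb ∧ τ ⟨g, h⟩ ∈ A := by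
  simp only [sel, Finset.mem_image, Finset.mem_filter, Finset.mem_attach, true_and,
    Subtype.exists, exists_and_right, exists_eq_right]

private theorem sel_mono {q : ℕ} {Cc Bb : Finset ℕ} {A A' : Finset (Fin q)}
    {τ : {g // g ∈ Cc} → Fin q} (h : A ⊆ A') : sel Cc Bb A τ ⊆ sel Cc Bb A' τ := by
  intro g hg
  obtain ⟨h1, h2, h3⟩ := mem_sel.mp hg
  exact mem_sel.mpr ⟨h1, h2, h h3⟩

private theorem sel_disj {q : ℕ} {Cc Bb : Finset ℕ} {A A' : Finset (Fin q)}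
    {τ : {g // g ∈ Cc} → Fin q} (h : Disjoint A A') :
    Disjoint (sel Cc Bb A τ) (sel Cc Bb A' τ) := by
  rw [Finset.disjoint_left]
  intro g hg hg'
  obtain ⟨h1, h2, h3⟩ := mem_sel.mp hg
  obtain ⟨h1', h2', h3'⟩ := mem_sel.mp hg'
  exact (Finset.disjoint_left.mp h) h3 h3'

private theorem sel_sum {q : ℕ} (Cc Bb S : Finset ℕ) (A : Finset (Fin q)) :
    (∑ τ : {g // g ∈ Cc} → Fin q, (sel Cc Bb A τ ∩ S).card) * q ≤
      S.card * (A.card * Fintype.card ({g // g ∈ Cc} → Fin q)) := by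
  classical
  have h1 : ∀ τ : {g // g ∈ Cc} → Fin q, (sel Cc Bb A τ ∩ S).card ≤
      ∑ g ∈ Cc.attach.filter (fun g => g.1 ∈ S), if τ g ∈ A then 1 else 0 := by
    intro τ
    rw [← Finset.card_filter]
    have h2 : sel Cc Bb A τ ∩ S ⊆ ((Cc.attach.filter (fun g => g.1 ∈ S)).filter
        (fun g => τ g ∈ A)).image Subtype.val := by
      intro g hg
      obtain ⟨hg1, hg2⟩ := Finset.mem_inter.mp hg
      obtain ⟨h1, h2, h3⟩ := mem_sel.mp hg1
      rw [Finset.mem_image]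
      exact ⟨⟨g, h1⟩, by simp [hg2, h3], rfl⟩
    exact (Finset.card_le_card h2).trans Finset.card_image_le
  have hcard : (Cc.attach.filter (fun g => g.1 ∈ S)).card ≤ S.card := by
    have h2 : ((Cc.attach.filter (fun g => g.1 ∈ S)).image Subtype.val) ⊆ S := by
      intro g hg
      obtain ⟨a, ha, rfl⟩ := Finset.mem_image.mp hg
      exact (Finset.mem_filter.mp ha).2
    have h3 := Finset.card_le_card h2
    rwa [Finset.card_image_of_injective _ Subtype.val_injective] at h3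
  calc (∑ τ : {g // g ∈ Cc} → Fin q, (sel Cc Bb A τ ∩ S).card) * q
      ≤ (∑ τ : {g // g ∈ Cc} → Fin q,
          ∑ g ∈ Cc.attach.filter (fun g => g.1 ∈ S), if τ g ∈ A then 1 else 0) * q :=
        Nat.mul_le_mul_right _ (Finset.sum_le_sum fun τ _ => h1 τ)
    _ = ∑ g ∈ Cc.attach.filter (fun g => g.1 ∈ S),
          (Finset.univ.filter (fun τ : {g // g ∈ Cc} → Fin q => τ g ∈ A)).card * q := by
        rw [Finset.sum_comm, Finset.sum_mul]
        refine Finset.sum_congr rfl fun g _ => ?_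
        rw [← Finset.card_filter]
    _ = ∑ g ∈ Cc.attach.filter (fun g => g.1 ∈ S),
          A.card * Fintype.card ({g // g ∈ Cc} → Fin q) :=
        Finset.sum_congr rfl fun g _ => card_one_coord g A
    _ = (Cc.attach.filter (fun g => g.1 ∈ S)).card *
          (A.card * Fintype.card ({g // g ∈ Cc} → Fin q)) := by
        rw [Finset.sum_const, smul_eq_mul]
    _ ≤ _ := Nat.mul_le_mul_right _ hcard

/-- the six values -/
private def vl (j : Bool) (i : ℕ) (hi : i < 3) : Fin 4000 :=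
  ⟨(if j = true then 0 else 3) + i, by split <;> omega⟩

private def A3 (j : Bool) : Finset (Fin 4000) := {vl j 0 (by omega), vl j 1 (by omega), vl j 2 (by omega)}

private def A6 : Finset (Fin 4000) := A3 true ∪ A3 false

private theorem card_A6 : A6.card ≤ 6 := by
  unfold A6
  refine (Finset.card_union_le _ _).trans ?_
  have h : ∀ j, (A3 j).card ≤ 3 := fun j => Finset.card_le_three
  have h1 := h true
  have h2 := h false
  omega

private theorem A3_sub (j : Bool) : A3 j ⊆ A6 := by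
  cases j
  · exact Finset.subset_union_right
  · exact Finset.subset_union_left

private theorem A3_disj : Disjoint (A3 true) (A3 false) := by
  rw [Finset.disjoint_left]
  intro v h1 h2
  simp only [A3, vl, Finset.mem_insert, Finset.mem_singleton, Fin.ext_iff, if_true] at h1 h2
  simp at h1 h2
  omega

/-- the pair `z, y` is joined in both halves of the reserve -/
private def Good (κ : ℕ → ℕ → ℕ) (Cc Bb J₁ J₂ : Finset ℕ) (z y : ℕ)
    (τ : {g // g ∈ Cc} → Fin 4000) : Prop :=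
  ∀ j, ∃ y₁ ∈ J₁, ∃ y₂ ∈ J₂, κ z y₁ ∈ sel Cc Bb {vl j 0 (by omega)} τ ∧
    κ y₁ y₂ ∈ sel Cc Bb {vl j 1 (by omega)} τ ∧ κ y₂ y ∈ sel Cc Bb {vl j 2 (by omega)} τ

private theorem vl_ne {j : Bool} {i i' : ℕ} (hi : i < 3) (hi' : i' < 3) (h : i ≠ i') :
    vl j i hi ≠ vl j i' hi' := by
  intro h1
  simp only [vl, Fin.mk.injEq] at h1
  omega

private theorem Rch_of_Good {Cc Bb J₁ J₂ : Finset ℕ} {z y : ℕ} {τ : {g // g ∈ Cc} → Fin 4000}
    (h : Good κ Cc Bb J₁ J₂ z y τ) (hz : z ∈ U) (h1 : J₁ ⊆ U) (h2 : J₂ ⊆ U)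
    (ho1 : ∀ w ∈ J₁, Bf b z w) (ho2 : ∀ w ∈ J₁, ∀ w' ∈ J₂, Bf b w w') (ho3 : ∀ w ∈ J₂, Bf b w y) :
    Rch κ U ρ (sel Cc Bb A6 τ) (fun j => sel Cc Bb (A3 j) τ) b z y := by
  intro j
  obtain ⟨y₁, hy₁, y₂, hy₂, g0, g1, g2⟩ := h j
  have hne : ∀ {i i' : ℕ} (hi : i < 3) (hi' : i' < 3), i ≠ i' → ∀ g g',
      g ∈ sel Cc Bb {vl j i hi} τ → g' ∈ sel Cc Bb {vl j i' hi'} τ → g ≠ g' := by
    intro i i' hi hi' hii g g' hg hg' hgg
    subst hgg
    have hd : Disjoint ({vl j i hi} : Finset (Fin 4000)) {vl j i' hi'} := by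
      rw [Finset.disjoint_singleton]; exact vl_ne hi hi' hii
    exact (Finset.disjoint_left.mp (sel_disj (Cc := Cc) (Bb := Bb) (τ := τ) hd)) hg hg'
  have n01 := hne (by omega) (by omega) (by omega) _ _ g0 g1
  have n12 := hne (by omega) (by omega) (by omega) _ _ g1 g2
  have n02 := hne (by omega) (by omega) (by omega) _ _ g0 g2
  have m0 : κ z y₁ ∈ sel Cc Bb (A3 j) τ := sel_mono (by simp [A3]) g0
  have m1 : κ y₁ y₂ ∈ sel Cc Bb (A3 j) τ := sel_mono (by simp [A3]) g1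
  have m2 : κ y₂ y ∈ sel Cc Bb (A3 j) τ := sel_mono (by simp [A3]) g2
  have G0 := sel_mono (A3_sub j) m0
  have G1 := sel_mono (A3_sub j) m1
  have G2 := sel_mono (A3_sub j) m2
  refine ⟨{κ y₂ y, κ y₁ y₂, κ z y₁}, ?_, ?_, ?_⟩
  · intro g hg
    simp only [Finset.mem_insert, Finset.mem_singleton] at hg
    rcases hg with rfl | rfl | rfl
    · exact m2
    · exact m1
    · exact m0
  · rw [Finset.card_eq_three]
    exact ⟨_, _, _, n12.symm, n02.symm, n01.symm, rfl⟩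
  · intro P hP hd
    have e0 : κ z y₁ ∉ P := fun hc => (Finset.disjoint_left.mp hd) hc G0
    have e1 : κ y₁ y₂ ∉ P := fun hc => (Finset.disjoint_left.mp hd) hc G1
    have e2 : κ y₂ y ∉ P := fun hc => (Finset.disjoint_left.mp hd) hc G2
    have s1 := hP.step hz (ho1 y₁ hy₁) e0
    have s2 := s1.step (h1 hy₁) (ho2 y₁ hy₁ y₂ hy₂) (by
      rw [Finset.mem_insert, not_or]; exact ⟨n01.symm, e1⟩)
    have s3 := s2.step (h2 hy₂) (ho3 y₂ hy₂) (by
      rw [Finset.mem_insert, Finset.mem_insert, not_or, not_or]; exact ⟨n12.symm, n02.symm, e2⟩)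
    have : P ∪ {κ y₂ y, κ y₁ y₂, κ z y₁} =
        insert (κ y₂ y) (insert (κ y₁ y₂) (insert (κ z y₁) P)) := by
      ext g; simp only [Finset.mem_union, Finset.mem_insert, Finset.mem_singleton]; tauto
    rw [this]
    exact s3

private theorem fail_count {Cc Bb J₁ J₂ : Finset ℕ} {m z y : ℕ} (h : Mat κ Bb J₁ J₂ m z y)
    (c1 : ∀ w ∈ J₁, κ z w ∈ Cc) (c2 : ∀ w ∈ J₁, ∀ w' ∈ J₂, κ w w' ∈ Cc)
    (c3 : ∀ w ∈ J₂, κ w y ∈ Cc)
    [DecidablePred (fun τ : {g // g ∈ Cc} → Fin 4000 => ¬ Good κ Cc Bb J₁ J₂ z y τ)] :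
    (Finset.univ.filter (fun τ : {g // g ∈ Cc} → Fin 4000 =>
      ¬ Good κ Cc Bb J₁ J₂ z y τ)).card * (4000 ^ 3 + m) ≤
      2 * (4000 ^ 3 * Fintype.card ({g // g ∈ Cc} → Fin 4000)) := by
  classical
  set T : {g // g ∈ Cc} → {g // g ∈ Cc} → {g // g ∈ Cc} → Prop := fun a d e =>
    a.1 ∉ Bb ∧ d.1 ∉ Bb ∧ e.1 ∉ Bb ∧ ∃ y₁ ∈ J₁, ∃ y₂ ∈ J₂, a.1 = κ z y₁ ∧ d.1 = κ y₁ y₂ ∧
      e.1 = κ y₂ y with hT
  have hb := fun j => fail_bound (C := {g // g ∈ Cc}) (q := 4000) (m := m) (by omega) T (by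
    intro Q hQ
    obtain ⟨y₁, hy₁, y₂, hy₂, h1, h2, h3, h4, h5, h6⟩ := h (Q.image Subtype.val)
      (Finset.card_image_le.trans hQ)
    rw [Finset.mem_union, not_or] at h1 h2 h3
    refine ⟨⟨κ z y₁, c1 y₁ hy₁⟩, ⟨κ y₁ y₂, c2 y₁ hy₁ y₂ hy₂⟩, ⟨κ y₂ y, c3 y₂ hy₂⟩,
      ⟨h1.2, h2.2, h3.2, y₁, hy₁, y₂, hy₂, rfl, rfl, rfl⟩, ?_, ?_, ?_, ?_, ?_, ?_⟩
    · intro hc; exact h1.1 (Finset.mem_image_of_mem _ hc)
    · intro hc; exact h2.1 (Finset.mem_image_of_mem _ hc)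
    · intro hc; exact h3.1 (Finset.mem_image_of_mem _ hc)
    · intro hc; exact h4 (congrArg Subtype.val hc)
    · intro hc; exact h5 (congrArg Subtype.val hc)
    · intro hc; exact h6 (congrArg Subtype.val hc))
    (vl j 0 (by omega)) (vl j 1 (by omega)) (vl j 2 (by omega))
  have hsub : (Finset.univ.filter (fun τ : {g // g ∈ Cc} → Fin 4000 =>
      ¬ Good κ Cc Bb J₁ J₂ z y τ)) ⊆
      (Finset.univ.filter (fun τ : {g // g ∈ Cc} → Fin 4000 => ∀ a d e, T a d e →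
        ¬ (τ a = vl true 0 (by omega) ∧ τ d = vl true 1 (by omega) ∧
          τ e = vl true 2 (by omega)))) ∪
      (Finset.univ.filter (fun τ : {g // g ∈ Cc} → Fin 4000 => ∀ a d e, T a d e →
        ¬ (τ a = vl false 0 (by omega) ∧ τ d = vl false 1 (by omega) ∧
          τ e = vl false 2 (by omega)))) := by
    intro τ hτ
    rw [Finset.mem_filter] at hτ
    by_contra hcon
    rw [Finset.mem_union, not_or] at hcon
    simp only [Finset.mem_filter, Finset.mem_univ, true_and, not_forall, not_not] at hcon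
    apply hτ.2
    intro j
    have key : ∃ a d e, ∃ (_ : T a d e), τ a = vl j 0 (by omega) ∧ τ d = vl j 1 (by omega) ∧
          τ e = vl j 2 (by omega) := by
      cases j
      · exact hcon.2
      · exact hcon.1
    obtain ⟨a, d, e, ⟨h1, h2, h3, y₁, hy₁, y₂, hy₂, h4, h5, h6⟩, h7, h8, h9⟩ := key
    refine ⟨y₁, hy₁, y₂, hy₂, ?_, ?_, ?_⟩
    · rw [← h4]; exact mem_sel.mpr ⟨a.2, h1, by simp [h7]⟩
    · rw [← h5]; exact mem_sel.mpr ⟨d.2, h2, by simp [h8]⟩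
    · rw [← h6]; exact mem_sel.mpr ⟨e.2, h3, by simp [h9]⟩
  have h1 := (Finset.card_le_card hsub).trans (Finset.card_union_le _ _)
  have h2 := hb true
  have h3 := hb false
  calc _ ≤ _ := Nat.mul_le_mul_right _ h1
    _ ≤ _ := by rw [add_mul, two_mul]; exact Nat.add_le_add h2 h3

/-- summed over pairs -/
private theorem pair_sum {Cc Bb J₁ J₂ X Y : Finset ℕ} {m t₀ : ℕ} (hm : 768 * 4000 ^ 3 * t₀ ≤ m)
    (h : ∀ z ∈ X, ∀ y ∈ Y, Mat κ Bb J₁ J₂ m z y)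
    (c1 : ∀ z ∈ X, ∀ w ∈ J₁, κ z w ∈ Cc) (c2 : ∀ w ∈ J₁, ∀ w' ∈ J₂, κ w w' ∈ Cc)
    (c3 : ∀ w ∈ J₂, ∀ y ∈ Y, κ w y ∈ Cc)
    [∀ z y, DecidablePred (fun τ : {g // g ∈ Cc} → Fin 4000 => ¬ Good κ Cc Bb J₁ J₂ z y τ)]
    [∀ z (τ : {g // g ∈ Cc} → Fin 4000), DecidablePred (fun y => ¬ Good κ Cc Bb J₁ J₂ z y τ)] :
    (∑ τ : {g // g ∈ Cc} → Fin 4000, ∑ z ∈ X,
      (Y.filter (fun y => ¬ Good κ Cc Bb J₁ J₂ z y τ)).card) * (384 * t₀) ≤
      X.card * Y.card * Fintype.card ({g // g ∈ Cc} → Fin 4000) := by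
  classical
  set n := Fintype.card ({g // g ∈ Cc} → Fin 4000) with hn
  have h0 : (∑ τ : {g // g ∈ Cc} → Fin 4000, ∑ z ∈ X,
      (Y.filter (fun y => ¬ Good κ Cc Bb J₁ J₂ z y τ)).card) =
      ∑ z ∈ X, ∑ y ∈ Y, (Finset.univ.filter (fun τ : {g // g ∈ Cc} → Fin 4000 =>
        ¬ Good κ Cc Bb J₁ J₂ z y τ)).card := by
    rw [Finset.sum_comm]
    refine Finset.sum_congr rfl fun z _ => ?_
    simp only [Finset.card_filter]
    rw [Finset.sum_comm]
  rw [h0]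
  have h1 : (∑ z ∈ X, ∑ y ∈ Y, (Finset.univ.filter (fun τ : {g // g ∈ Cc} → Fin 4000 =>
        ¬ Good κ Cc Bb J₁ J₂ z y τ)).card) * (4000 ^ 3 + m) ≤
        X.card * Y.card * (2 * (4000 ^ 3 * n)) := by
    rw [Finset.sum_mul]
    calc _ ≤ ∑ z ∈ X, Y.card * (2 * (4000 ^ 3 * n)) := by
          refine Finset.sum_le_sum fun z hz => ?_
          rw [Finset.sum_mul]
          calc _ ≤ ∑ y ∈ Y, 2 * (4000 ^ 3 * n) :=
                Finset.sum_le_sum fun y hy =>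
                  fail_count (h z hz y hy) (c1 z hz) c2 (fun w hw => c3 w hw y hy)
            _ = _ := by rw [Finset.sum_const, smul_eq_mul]
      _ = _ := by rw [Finset.sum_const, smul_eq_mul, mul_assoc]
  set S := ∑ z ∈ X, ∑ y ∈ Y, (Finset.univ.filter (fun τ : {g // g ∈ Cc} → Fin 4000 =>
        ¬ Good κ Cc Bb J₁ J₂ z y τ)).card with hS
  have h2 : S * (768 * 4000 ^ 3 * t₀) ≤ S * (4000 ^ 3 + m) :=
    Nat.mul_le_mul_left _ (by omega)
  have h3 : (2 * 4000 ^ 3) * (S * (384 * t₀)) ≤ (2 * 4000 ^ 3) * (X.card * Y.card * n) := by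
    calc (2 * 4000 ^ 3) * (S * (384 * t₀)) = S * (768 * 4000 ^ 3 * t₀) := by ring
      _ ≤ _ := h2
      _ ≤ _ := h1
      _ = _ := by ring
  exact Nat.le_of_mul_le_mul_left h3 (by norm_num)

private theorem sel_sum_X {Cc Bb X : Finset ℕ} {S : ℕ → Finset ℕ} {k : ℕ}
    (hS : ∀ x ∈ X, (S x).card ≤ k) :
    (∑ τ : {g // g ∈ Cc} → Fin 4000, ∑ x ∈ X, (sel Cc Bb A6 τ ∩ S x).card) * 4000 ≤
      6 * k * X.card * Fintype.card ({g // g ∈ Cc} → Fin 4000) := by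
  classical
  rw [Finset.sum_comm, Finset.sum_mul]
  calc _ ≤ ∑ x ∈ X, 6 * k * Fintype.card ({g // g ∈ Cc} → Fin 4000) := by
        refine Finset.sum_le_sum fun x hx => ?_
        refine (sel_sum Cc Bb (S x) A6).trans ?_
        calc _ ≤ k * (6 * Fintype.card ({g // g ∈ Cc} → Fin 4000)) :=
              Nat.mul_le_mul (hS x hx) (Nat.mul_le_mul_right _ card_A6)
          _ = _ := by ring
    _ = _ := by rw [Finset.sum_const, smul_eq_mul]; ring

private theorem exists_six_nat {Ω : Type} [Fintype Ω] [Nonempty Ω] (f : Fin 6 → Ω → ℕ)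
    (a c : Fin 6 → ℕ) (ha : ∀ i, 0 < a i) (hc : ∀ i, 0 < c i)
    (h : ∀ i, (∑ ω, f i ω) * a i ≤ c i * Fintype.card Ω) :
    ∃ ω, ∀ i, f i ω * a i ≤ 6 * c i := by
  obtain ⟨ω, hω⟩ := exists_six (fun i ω => (f i ω : ℝ)) (fun i => (c i : ℝ) / a i)
    (fun i ω => Nat.cast_nonneg _)
    (fun i => div_pos (by exact_mod_cast hc i) (by exact_mod_cast ha i)) (fun i => by
      have h1 : (0 : ℝ) < a i := by exact_mod_cast ha i
      rw [div_mul_eq_mul_div, le_div_iff₀ h1]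
      exact_mod_cast h i)
  refine ⟨ω, fun i => ?_⟩
  have h1 : (0 : ℝ) < a i := by exact_mod_cast ha i
  have h2 := hω i
  beta_reduce at h2
  rw [mul_div_assoc', le_div_iff₀ h1] at h2
  exact_mod_cast h2

private theorem bad_count {X : Finset ℕ} {f : ℕ → ℕ} {t : ℕ} {P : ℕ → Prop} [DecidablePred P]
    (h : ∀ x ∈ X, P x → t ≤ f x) : (X.filter P).card * t ≤ ∑ x ∈ X, f x := by
  calc (X.filter P).card * t = ∑ x ∈ X.filter P, t := by rw [Finset.sum_const, smul_eq_mul]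
    _ ≤ ∑ x ∈ X.filter P, f x :=
      Finset.sum_le_sum fun x hx => h x (Finset.mem_filter.mp hx).1 (Finset.mem_filter.mp hx).2
    _ ≤ _ := Finset.sum_le_sum_of_subset (Finset.filter_subset _ _)

theorem reserve {Cc Bb : Finset ℕ} {m t₀ T e q₁ : ℕ} {XE XL I J₁ J₂ J₃ J₄ : Finset ℕ}
    {KL KE : ℕ → Finset ℕ}
    (hCc : ∀ u ∈ U, ∀ v ∈ U, u ≠ v → κ u v ∈ Cc)
    (hXE : XE ⊆ U) (hXL : XL ⊆ U) (hI : I ⊆ U) (h1 : J₁ ⊆ U) (h2 : J₂ ⊆ U) (h3 : J₃ ⊆ U)
    (h4 : J₄ ⊆ U)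
    (o1 : ∀ x ∈ XE, ∀ w ∈ J₁, x < w) (o2 : ∀ w ∈ J₁, ∀ w' ∈ J₂, w < w')
    (o3 : ∀ w ∈ J₂, ∀ y ∈ I, w < y) (o4 : ∀ y ∈ I, ∀ w ∈ J₃, y < w)
    (o5 : ∀ w ∈ J₃, ∀ w' ∈ J₄, w < w') (o6 : ∀ w ∈ J₄, ∀ x ∈ XL, w < x)
    (o7 : ∀ y ∈ XE, ∀ w ∈ J₃, y < w)
    (mE : ∀ x ∈ XE, ∀ y ∈ I, Mat κ Bb J₁ J₂ m x y)
    (mL : ∀ x ∈ XL, ∀ y ∈ I, Mat κ Bb J₄ J₃ m x y)
    (mLE : ∀ x ∈ XL, ∀ y ∈ XE, Mat κ Bb J₄ J₃ m x y)
    (hm : 768 * 4000 ^ 3 * t₀ ≤ m) (ht : 1 ≤ t₀)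
    (tL : ∀ x ∈ XL, (Tch κ XL x).card ≤ T) (hT : 1 ≤ T)
    (kL : ∀ x, (KL x).card ≤ 3) (kE : ∀ x, (KE x).card ≤ 3)
    (hI0 : 0 < I.card) (hE0 : 0 < XE.card) (hL0 : 0 < XL.card)
    (hq₁ : 288 * T < 4000 * (q₁ + 1)) (he : I.card < 8 * t₀ * (e + 1)) :
    ∃ (G : Finset ℕ) (G' : Bool → Finset ℕ), (∀ j, G' j ⊆ G) ∧
      Disjoint (G' true) (G' false) ∧ Disjoint Bb G ∧ ∃ WL ⊆ XL, ∃ WE ⊆ XE,
      (∀ x ∈ WL, (G ∩ Tch κ XL x).card ≤ q₁) ∧ (∀ x ∈ WL, Disjoint (KL x) G) ∧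
      (∀ x ∈ WE, Disjoint (KE x) G) ∧
      (∀ x ∈ WL, ∃ N ⊆ I, N.card ≤ e ∧ ∀ y ∈ I, y ∉ N → Rch κ U ρ G G' false x y) ∧
      (∀ x ∈ WE, ∃ N ⊆ I, N.card ≤ e ∧ ∀ y ∈ I, y ∉ N → Rch κ U ρ G G' true x y) ∧
      (∀ x ∈ WL, ∃ N ⊆ XE, 8 * N.card ≤ XE.card ∧
        ∀ y ∈ XE, y ∉ N → Rch κ U ρ G G' false x y) ∧
      XL.card ≤ 2 * WL.card ∧ 3 * XE.card ≤ 4 * WE.card := by
  classical
  have : Nonempty ({g // g ∈ Cc} → Fin 4000) := ⟨fun _ => ⟨0, by norm_num⟩⟩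
  -- colours
  have cE1 : ∀ z ∈ XE, ∀ w ∈ J₁, κ z w ∈ Cc := fun z hz w hw =>
    hCc z (hXE hz) w (h1 hw) (o1 z hz w hw).ne
  have c12 : ∀ w ∈ J₁, ∀ w' ∈ J₂, κ w w' ∈ Cc := fun w hw w' hw' =>
    hCc w (h1 hw) w' (h2 hw') (o2 w hw w' hw').ne
  have c2I : ∀ w ∈ J₂, ∀ y ∈ I, κ w y ∈ Cc := fun w hw y hy =>
    hCc w (h2 hw) y (hI hy) (o3 w hw y hy).ne
  have cL4 : ∀ z ∈ XL, ∀ w ∈ J₄, κ z w ∈ Cc := fun z hz w hw =>
    hCc z (hXL hz) w (h4 hw) (o6 w hw z hz).ne'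
  have c43 : ∀ w ∈ J₄, ∀ w' ∈ J₃, κ w w' ∈ Cc := fun w hw w' hw' =>
    hCc w (h4 hw) w' (h3 hw') (o5 w' hw' w hw).ne'
  have c3I : ∀ w ∈ J₃, ∀ y ∈ I, κ w y ∈ Cc := fun w hw y hy =>
    hCc w (h3 hw) y (hI hy) (o4 y hy w hw).ne'
  have c3E : ∀ w ∈ J₃, ∀ y ∈ XE, κ w y ∈ Cc := fun w hw y hy =>
    hCc w (h3 hw) y (hXE hy) (o7 y hy w hw).ne'
  -- six quantities
  set g0 : ({g // g ∈ Cc} → Fin 4000) → ℕ → ℕ := fun τ z =>
    (I.filter (fun y => ¬ Good κ Cc Bb J₁ J₂ z y τ)).card with hg0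
  set g1 : ({g // g ∈ Cc} → Fin 4000) → ℕ → ℕ := fun τ z =>
    (I.filter (fun y => ¬ Good κ Cc Bb J₄ J₃ z y τ)).card with hg1
  set g2 : ({g // g ∈ Cc} → Fin 4000) → ℕ → ℕ := fun τ z =>
    (XE.filter (fun y => ¬ Good κ Cc Bb J₄ J₃ z y τ)).card with hg2
  set g3 : ({g // g ∈ Cc} → Fin 4000) → ℕ → ℕ := fun τ x =>
    (sel Cc Bb A6 τ ∩ Tch κ XL x).card with hg3
  set g4 : ({g // g ∈ Cc} → Fin 4000) → ℕ → ℕ := fun τ x =>
    (sel Cc Bb A6 τ ∩ KL x).card with hg4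
  set g5 : ({g // g ∈ Cc} → Fin 4000) → ℕ → ℕ := fun τ x =>
    (sel Cc Bb A6 τ ∩ KE x).card with hg5
  obtain ⟨τ, hτ⟩ := exists_six_nat
    (fun i τ => if i = 0 then ∑ z ∈ XE, g0 τ z else if i = 1 then ∑ z ∈ XL, g1 τ z else
      if i = 2 then ∑ z ∈ XL, g2 τ z else if i = 3 then ∑ z ∈ XL, g3 τ z else
      if i = 4 then ∑ z ∈ XL, g4 τ z else ∑ z ∈ XE, g5 τ z)
    (fun i => if i = 0 ∨ i = 1 ∨ i = 2 then 384 * t₀ else 4000)
    (fun i => if i = 0 then XE.card * I.card else if i = 1 then XL.card * I.card else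
      if i = 2 then XL.card * XE.card else if i = 3 then 6 * T * XL.card else
      if i = 4 then 6 * 3 * XL.card else 6 * 3 * XE.card)
    (by intro i; fin_cases i <;> simp <;> omega)
    (by
      intro i
      fin_cases i
      · simpa using ⟨Finset.card_pos.mp hE0, Finset.card_pos.mp hI0⟩
      · simpa using ⟨Finset.card_pos.mp hL0, Finset.card_pos.mp hI0⟩
      · simpa using ⟨Finset.card_pos.mp hL0, Finset.card_pos.mp hE0⟩
      · simpa using ⟨hT, Finset.card_pos.mp hL0⟩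
      · simpa using Finset.card_pos.mp hL0
      · simpa using Finset.card_pos.mp hE0)
    (by
      intro i
      fin_cases i
      · simpa using pair_sum hm mE cE1 c12 c2I
      · simpa using pair_sum hm mL cL4 c43 c3I
      · simpa using pair_sum hm mLE cL4 c43 c3E
      · simpa using sel_sum_X (Bb := Bb) (Cc := Cc) tL
      · simpa using sel_sum_X (Bb := Bb) (Cc := Cc) (X := XL) (k := 3) (fun x _ => kL x)
      · simpa using sel_sum_X (Bb := Bb) (Cc := Cc) (X := XE) (k := 3) (fun x _ => kE x))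
  have t0 : (∑ z ∈ XE, g0 τ z) * (384 * t₀) ≤ 6 * (XE.card * I.card) := by simpa using hτ 0
  have t1 : (∑ z ∈ XL, g1 τ z) * (384 * t₀) ≤ 6 * (XL.card * I.card) := by simpa using hτ 1
  have t2 : (∑ z ∈ XL, g2 τ z) * (384 * t₀) ≤ 6 * (XL.card * XE.card) := by simpa using hτ 2
  have t3 : (∑ z ∈ XL, g3 τ z) * 4000 ≤ 6 * (6 * T * XL.card) := by simpa using hτ 3
  have t4 : (∑ z ∈ XL, g4 τ z) * 4000 ≤ 6 * (6 * 3 * XL.card) := by simpa using hτ 4
  have t5 : (∑ z ∈ XE, g5 τ z) * 4000 ≤ 6 * (6 * 3 * XE.card) := by simpa using hτ 5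
  clear hτ
  -- bad vertices
  have b0 : 8 * (XE.filter (fun x => e < g0 τ x)).card ≤ XE.card := by
    have h1 := bad_count (X := XE) (f := g0 τ) (t := e + 1) (P := fun x => e < g0 τ x)
      (fun x _ hx => hx)
    set n := (XE.filter (fun x => e < g0 τ x)).card with hn
    have h2 : 8 * n * I.card ≤ XE.card * I.card := by
      have h3 : 6 * (8 * n * I.card) ≤ 6 * (XE.card * I.card) := by
        calc 6 * (8 * n * I.card) ≤ 6 * (8 * n * (8 * t₀ * (e + 1))) :=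
              Nat.mul_le_mul_left _ (Nat.mul_le_mul_left _ he.le)
          _ = (n * (e + 1)) * (384 * t₀) := by ring
          _ ≤ (∑ z ∈ XE, g0 τ z) * (384 * t₀) := Nat.mul_le_mul_right _ h1
          _ ≤ _ := t0
      exact Nat.le_of_mul_le_mul_left h3 (by norm_num)
    exact Nat.le_of_mul_le_mul_right h2 hI0
  have b1 : 8 * (XL.filter (fun x => e < g1 τ x)).card ≤ XL.card := by
    have h1 := bad_count (X := XL) (f := g1 τ) (t := e + 1) (P := fun x => e < g1 τ x)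
      (fun x _ hx => hx)
    set n := (XL.filter (fun x => e < g1 τ x)).card with hn
    have h2 : 8 * n * I.card ≤ XL.card * I.card := by
      have h3 : 6 * (8 * n * I.card) ≤ 6 * (XL.card * I.card) := by
        calc 6 * (8 * n * I.card) ≤ 6 * (8 * n * (8 * t₀ * (e + 1))) :=
              Nat.mul_le_mul_left _ (Nat.mul_le_mul_left _ he.le)
          _ = (n * (e + 1)) * (384 * t₀) := by ring
          _ ≤ (∑ z ∈ XL, g1 τ z) * (384 * t₀) := Nat.mul_le_mul_right _ h1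
          _ ≤ _ := t1
      exact Nat.le_of_mul_le_mul_left h3 (by norm_num)
    exact Nat.le_of_mul_le_mul_right h2 hI0
  have b2 : 8 * (XL.filter (fun x => XE.card < 8 * g2 τ x)).card ≤ XL.card := by
    have h1 := bad_count (X := XL) (f := fun x => 8 * g2 τ x) (t := XE.card)
      (P := fun x => XE.card < 8 * g2 τ x) (fun x _ hx => hx.le)
    rw [← Finset.mul_sum] at h1
    set n := (XL.filter (fun x => XE.card < 8 * g2 τ x)).card with hn
    have h2 : 8 * n * XE.card ≤ XL.card * XE.card := by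
      have h3 : 48 * (n * XE.card) ≤ 6 * (XL.card * XE.card) := by
        calc 48 * (n * XE.card) ≤ 48 * (8 * ∑ z ∈ XL, g2 τ z) := Nat.mul_le_mul_left _ h1
          _ = (∑ z ∈ XL, g2 τ z) * (384 * 1) := by ring
          _ ≤ (∑ z ∈ XL, g2 τ z) * (384 * t₀) :=
            Nat.mul_le_mul_left _ (Nat.mul_le_mul_left _ ht)
          _ ≤ _ := t2
      have h4 : 8 * n * XE.card = 8 * (n * XE.card) := by ring
      omega
    exact Nat.le_of_mul_le_mul_right h2 hE0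
  have b3 : 8 * (XL.filter (fun x => q₁ < g3 τ x)).card ≤ XL.card := by
    have h1 := bad_count (X := XL) (f := g3 τ) (t := q₁ + 1) (P := fun x => q₁ < g3 τ x)
      (fun x _ hx => hx)
    set n := (XL.filter (fun x => q₁ < g3 τ x)).card with hn
    have h2 : 8 * n * T ≤ XL.card * T := by
      have h3 : 36 * (8 * n * T) ≤ 36 * (XL.card * T) := by
        calc 36 * (8 * n * T) = n * (288 * T) := by ring
          _ ≤ n * (4000 * (q₁ + 1)) := Nat.mul_le_mul_left _ hq₁.le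
          _ = (n * (q₁ + 1)) * 4000 := by ring
          _ ≤ (∑ z ∈ XL, g3 τ z) * 4000 := Nat.mul_le_mul_right _ h1
          _ ≤ _ := t3
          _ = _ := by ring
      exact Nat.le_of_mul_le_mul_left h3 (by norm_num)
    exact Nat.le_of_mul_le_mul_right h2 hT
  have b4 : 4000 * (XL.filter (fun x => 1 ≤ g4 τ x)).card ≤ 108 * XL.card := by
    have h1 := bad_count (X := XL) (f := g4 τ) (t := 1) (P := fun x => 1 ≤ g4 τ x)
      (fun x _ hx => hx)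
    omega
  have b5 : 4000 * (XE.filter (fun x => 1 ≤ g5 τ x)).card ≤ 108 * XE.card := by
    have h1 := bad_count (X := XE) (f := g5 τ) (t := 1) (P := fun x => 1 ≤ g5 τ x)
      (fun x _ hx => hx)
    omega
  set WL := XL.filter (fun x => ¬ e < g1 τ x ∧ ¬ XE.card < 8 * g2 τ x ∧ ¬ q₁ < g3 τ x ∧
    ¬ 1 ≤ g4 τ x) with hWL
  set WE := XE.filter (fun x => ¬ e < g0 τ x ∧ ¬ 1 ≤ g5 τ x) with hWE
  have sL : XL.card ≤ WL.card + ((XL.filter (fun x => e < g1 τ x)).card +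
      ((XL.filter (fun x => XE.card < 8 * g2 τ x)).card +
      ((XL.filter (fun x => q₁ < g3 τ x)).card + (XL.filter (fun x => 1 ≤ g4 τ x)).card))) := by
    have h1 : XL ⊆ WL ∪ (XL.filter (fun x => e < g1 τ x) ∪
      (XL.filter (fun x => XE.card < 8 * g2 τ x) ∪
      (XL.filter (fun x => q₁ < g3 τ x) ∪ XL.filter (fun x => 1 ≤ g4 τ x)))) := by
      intro x hx
      simp only [hWL, Finset.mem_union, Finset.mem_filter]
      tauto
    refine (Finset.card_le_card h1).trans ?_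
    refine (Finset.card_union_le _ _).trans (Nat.add_le_add_left ?_ _)
    refine (Finset.card_union_le _ _).trans (Nat.add_le_add_left ?_ _)
    refine (Finset.card_union_le _ _).trans (Nat.add_le_add_left ?_ _)
    exact Finset.card_union_le _ _
  have sE : XE.card ≤ WE.card + ((XE.filter (fun x => e < g0 τ x)).card +
      (XE.filter (fun x => 1 ≤ g5 τ x)).card) := by
    have h1 : XE ⊆ WE ∪ (XE.filter (fun x => e < g0 τ x) ∪ XE.filter (fun x => 1 ≤ g5 τ x)) := by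
      intro x hx
      simp only [hWE, Finset.mem_union, Finset.mem_filter]
      tauto
    refine (Finset.card_le_card h1).trans ?_
    refine (Finset.card_union_le _ _).trans (Nat.add_le_add_left ?_ _)
    exact Finset.card_union_le _ _
  refine ⟨sel Cc Bb A6 τ, fun j => sel Cc Bb (A3 j) τ, fun j => sel_mono (A3_sub j),
    sel_disj A3_disj, ?_, WL, Finset.filter_subset _ _, WE, Finset.filter_subset _ _,
    ?_, ?_, ?_, ?_, ?_, ?_, by omega, by omega⟩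
  · rw [Finset.disjoint_left]
    intro g hg hg'
    obtain ⟨_, h, _⟩ := mem_sel.mp hg'
    exact h hg
  · intro x hx
    have h1 := (Finset.mem_filter.mp hx).2.2.2.1
    exact Nat.le_of_not_lt h1
  · intro x hx
    have h1 := (Finset.mem_filter.mp hx).2.2.2.2
    rw [Nat.not_le, Nat.lt_one_iff, Finset.card_eq_zero] at h1
    exact (Finset.disjoint_iff_inter_eq_empty.mpr h1).symm
  · intro x hx
    have h1 := (Finset.mem_filter.mp hx).2.2
    rw [Nat.not_le, Nat.lt_one_iff, Finset.card_eq_zero] at h1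
    exact (Finset.disjoint_iff_inter_eq_empty.mpr h1).symm
  · intro x hx
    have hxX := (Finset.mem_filter.mp hx).1
    have h5 := (Finset.mem_filter.mp hx).2.1
    refine ⟨_, Finset.filter_subset _ _, Nat.le_of_not_lt h5, ?_⟩
    intro y hy hyN
    have hG : Good κ Cc Bb J₄ J₃ x y τ := by
      by_contra hc
      exact hyN (Finset.mem_filter.mpr ⟨hy, hc⟩)
    exact Rch_of_Good hG (hXL hxX) h4 h3 (fun w hw => by simpa using o6 w hw x hxX)
      (fun w hw w' hw' => by simpa using o5 w' hw' w hw) (fun w hw => by simpa using o4 y hy w hw)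
  · intro x hx
    have hxX := (Finset.mem_filter.mp hx).1
    have h5 := (Finset.mem_filter.mp hx).2.1
    refine ⟨_, Finset.filter_subset _ _, Nat.le_of_not_lt h5, ?_⟩
    intro y hy hyN
    have hG : Good κ Cc Bb J₁ J₂ x y τ := by
      by_contra hc
      exact hyN (Finset.mem_filter.mpr ⟨hy, hc⟩)
    exact Rch_of_Good hG (hXE hxX) h1 h2 (fun w hw => by simpa using o1 x hxX w hw)
      (fun w hw w' hw' => by simpa using o2 w hw w' hw') (fun w hw => by simpa using o3 w hw y hy)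
  · intro x hx
    have hxX := (Finset.mem_filter.mp hx).1
    have h5 := (Finset.mem_filter.mp hx).2.2.1
    refine ⟨_, Finset.filter_subset _ _, Nat.le_of_not_lt h5, ?_⟩
    intro y hy hyN
    have hG : Good κ Cc Bb J₄ J₃ x y τ := by
      by_contra hc
      exact hyN (Finset.mem_filter.mpr ⟨hy, hc⟩)
    exact Rch_of_Good hG (hXL hxX) h4 h3 (fun w hw => by simpa using o6 w hw x hxX)
      (fun w hw w' hw' => by simpa using o5 w' hw' w hw) (fun w hw => by simpa using o7 y hy w hw)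

end FlashRainbow.PL
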