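import Pool.Agent.Work.MP_54723a_co.PL.Reserve
import Pool.Agent.Work.MP_54723a_co.PL.Matching
import Pool.Agent.Work.MP_54723a_co.PL.Cluster
import Pool.Agent.Work.MP_54723a_co.PL.Count

/-!
# The stage lemma
-/

set_option autoImplicit false

namespace FlashRainbow.PL

variable {κ : ℕ → ℕ → ℕ} {b : Bool} {U W : Finset ℕ} {ρ l M : ℕ} {lev : ℕ → ℕ → ℕ}

/-- a colour avoided by a palette of size at least `ρ - s - 1` has few neighbours -/
private theorem mass_le' (hκ : ∀ x y, κ x y = κ y x) (hl : 1 ≤ l) (hL : LevS κ U l lev) {Kc s : ℕ}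
    (hBB : BB κ U (fun j => Kc * (j + 1) ^ 5 * l ^ j)) {x g : ℕ} (hx : x ∈ U)
    (h : ∃ P : Finset ℕ, PI κ U ρ b x P ∧ g ∉ P ∧ ρ ≤ P.card + s + 1) :
    (Nb κ b U g x).card ≤ Kc * (s + 1) ^ 5 * l ^ ρ := by
  obtain ⟨P, hP, hg, hc⟩ := h
  have hPρ : P.card ≤ ρ := hP.card_le hx
  rcases Nat.eq_or_lt_of_le hPρ with h1 | h1
  · have h2 : Nb κ b U g x = ∅ := by
      rw [Finset.eq_empty_iff_forall_notMem]
      intro w hw
      obtain ⟨hw1, hw2, hw3⟩ := mem_Nb.mp hw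
      have h3 := hP w _ (PT.snoc (PT.single hx) hw1 hw2 (Finset.notMem_empty _)) (by
        rw [hw3]
        simpa using hg)
      simp at h3
      omega
    rw [h2]
    simp
  · refine (mass_le hκ hl hL hBB hx hP hg).trans ?_
    have h2 : ρ - P.card - 1 ≤ s := by omega
    calc l ^ (P.card + 1) * (Kc * (ρ - P.card - 1 + 1) ^ 5 * l ^ (ρ - P.card - 1))
        = Kc * (ρ - P.card - 1 + 1) ^ 5 * l ^ ((P.card + 1) + (ρ - P.card - 1)) := by
          rw [pow_add]; ring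
      _ = Kc * (ρ - P.card - 1 + 1) ^ 5 * l ^ ρ := by
          have h3 : (P.card + 1) + (ρ - P.card - 1) = ρ := by omega
          rw [h3]
      _ ≤ Kc * (s + 1) ^ 5 * l ^ ρ :=
          Nat.mul_le_mul_right _ (Nat.mul_le_mul_left _ (Nat.pow_le_pow_left (by omega) _))

private theorem NP_le' (hκ : ∀ x y, κ x y = κ y x) (hl : 1 ≤ l) (hL : LevS κ U l lev) {Kc s : ℕ}
    (hBB : BB κ U (fun j => Kc * (j + 1) ^ 5 * l ^ j))
    {B : Bool → Finset ℕ} {K : Bool → Bool → ℕ → Finset ℕ} (hTS : TS κ M U ρ B K)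
    (hs : (B b).card + s + 2 ≤ ρ) {g : ℕ} (hg : g ∉ B b) :
    (NP κ U ρ b s g).card ≤ 2 * ((4 * (M + 1) * l) ^ 3 * (Kc * (ρ + 1) ^ 5 * l ^ (ρ - s))) := by
  refine (card_NP_le hκ hl hL hBB hTS hg hs).trans ?_
  refine Nat.mul_le_mul_left _ ?_
  rw [mul_assoc]
  refine Nat.mul_le_mul_left _ ?_
  calc l ^ (1 + (B b).card) * (Kc * (ρ - (B b).card - s - 2 + 1) ^ 5 *
        l ^ (ρ - (B b).card - s - 2))
      = Kc * (ρ - (B b).card - s - 2 + 1) ^ 5 *
        l ^ ((1 + (B b).card) + (ρ - (B b).card - s - 2)) := by rw [pow_add]; ring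
    _ ≤ Kc * (ρ + 1) ^ 5 * l ^ (ρ - s) :=
      Nat.mul_le_mul (Nat.mul_le_mul_left _ (Nat.pow_le_pow_left (by omega) _))
        (Nat.pow_le_pow_right hl (by omega))

private theorem num1 {u H M R t₀ X A s : ℕ} (hX : X * H ≤ u * (M * (2 * R)))
    (h1 : 10 ^ 6 * (t₀ ^ 2 * (s + 1) ^ 2 * (M * R)) ≤ A) (hAH : A ≤ H) (hH : 0 < H) :
    500000 * (t₀ ^ 2 * X) ≤ u := by
  have h3 : 500000 * (t₀ ^ 2 * X) * H ≤ u * H := by
    calc 500000 * (t₀ ^ 2 * X) * H = 500000 * t₀ ^ 2 * (X * H) := by ring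
      _ ≤ 500000 * t₀ ^ 2 * (u * (M * (2 * R))) := Nat.mul_le_mul_left _ hX
      _ = u * (10 ^ 6 * (t₀ ^ 2 * 1 * (M * R))) := by ring
      _ ≤ u * (10 ^ 6 * (t₀ ^ 2 * (s + 1) ^ 2 * (M * R))) :=
        Nat.mul_le_mul_left _ (Nat.mul_le_mul_left _ (Nat.mul_le_mul_right _
          (Nat.mul_le_mul_left _ (Nat.one_le_pow _ _ (by omega)))))
      _ ≤ u * A := Nat.mul_le_mul_left _ h1
      _ ≤ u * H := Nat.mul_le_mul_left _ hAH
  exact Nat.le_of_mul_le_mul_right h3 hH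

private theorem num2 {Y η u H s X t₀ c : ℕ} (hY : Y * (η + 1) ≤ u * (c * H) + X * u)
    (hc : c ≤ 5 * s) (hη : u < 160 * t₀ * (η + 1)) (hX : 500000 * (t₀ ^ 2 * X) ≤ u)
    (h2 : 10 ^ 16 * (t₀ ^ 2 * ((s + 1) * H)) ≤ u) (hu : 0 < u) : 100 * (t₀ * Y) ≤ u := by
  have h3 : Y * u ≤ (160 * t₀ * (5 * s * H + X)) * u := by
    calc Y * u ≤ Y * (160 * t₀ * (η + 1)) := Nat.mul_le_mul_left _ hη.le
      _ = 160 * t₀ * (Y * (η + 1)) := by ring
      _ ≤ 160 * t₀ * (u * (c * H) + X * u) := Nat.mul_le_mul_left _ hY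
      _ ≤ 160 * t₀ * (u * (5 * s * H) + X * u) := by gcongr
      _ = _ := by ring
  have h4 := Nat.le_of_mul_le_mul_right h3 hu
  have h5 : t₀ * Y ≤ 800 * (t₀ ^ 2 * ((s + 1) * H)) + 160 * (t₀ ^ 2 * X) := by
    calc t₀ * Y ≤ t₀ * (160 * t₀ * (5 * s * H + X)) := Nat.mul_le_mul_left _ h4
      _ = 800 * (t₀ ^ 2 * (s * H)) + 160 * (t₀ ^ 2 * X) := by ring
      _ ≤ _ := by gcongr; omega
  omega

private theorem div_lt {u c : ℕ} (hc : 0 < c) : u < c * (u / c + 1) := by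
  have h1 := Nat.div_add_mod u c
  have h2 := Nat.mod_lt u hc
  rw [mul_add, mul_one]
  omega

private theorem mul_div_le' {u c : ℕ} : c * (u / c) ≤ u := Nat.mul_div_le u c

theorem stage (hκ : ∀ x y, κ x y = κ y x) (hl : 2 ≤ l) (hL : LevS κ U l lev) {Kc s t₀ : ℕ}
    (hKc : 1 ≤ Kc) (hBB : BB κ U (fun j => Kc * (j + 1) ^ 5 * l ^ j))
    {B : Bool → Finset ℕ} {K : Bool → Bool → ℕ → Finset ℕ} (hTS : TS κ M U ρ B K)
    (hs1 : 1 ≤ s) (ht : 2 ≤ t₀) (hM1 : 1 ≤ M) (hρ : 50 * s ≤ ρ) (hBt : (B true).card + 3 ≤ s)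
    (hBf : (B false).card ≤ 5 * s)
    (hbig : 10 ^ 6 * (4 * (M + 1) * l) ^ 3 * Kc * (ρ + 1) ^ 5 * M * t₀ ^ 2 * (s + 1) ^ 2 ≤ l ^ s)
    (hA : 10 ^ 16 * Kc * t₀ ^ 2 * (s + 1) ^ 6 * l ^ ρ ≤ U.card) :
    ∃ U' ⊆ U, ∃ ρ' B' K', TS κ M U' ρ' B' K' ∧ 2 * ρ' ≤ ρ ∧
      (B' true).card ≤ (B true).card + 3 ∧ (B' false).card ≤ 5 * s ∧
      (t₀ - 1) * U.card * l ^ ρ' ≤ t₀ * U'.card * l ^ ρ := by
  classical
  have hl1 : 1 ≤ l := by omega
  have hB : ∀ b, (B b).card ≤ 5 * s := by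
    intro b; cases b
    · exact hBf
    · omega
  have hdisj : ∀ b, Disjoint (B b) (B (!b)) := by
    intro b; cases b
    · exact hTS.disjB.symm
    · exact hTS.disjB
  set u := U.card with hu
  set R := (4 * (M + 1) * l) ^ 3 * (Kc * (ρ + 1) ^ 5 * l ^ (ρ - s)) with hR
  set A := l ^ ρ with hAdef
  set H := Kc * (s + 1) ^ 5 * A with hH
  have hA1 : 1 ≤ A := Nat.one_le_pow _ _ (by omega)
  have hAH : A ≤ H := by
    rw [hH]
    calc A = 1 * A := (one_mul _).symm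
      _ ≤ _ := Nat.mul_le_mul_right _ (Nat.mul_pos hKc (by positivity))
  have hH0 : 0 < H := by omega
  -- the two basic inequalities
  have h1 : 10 ^ 6 * (t₀ ^ 2 * (s + 1) ^ 2 * (M * R)) ≤ A := by
    calc 10 ^ 6 * (t₀ ^ 2 * (s + 1) ^ 2 * (M * R))
        = (10 ^ 6 * (4 * (M + 1) * l) ^ 3 * Kc * (ρ + 1) ^ 5 * M * t₀ ^ 2 * (s + 1) ^ 2) *
          l ^ (ρ - s) := by rw [hR]; ring
      _ ≤ l ^ s * l ^ (ρ - s) := Nat.mul_le_mul_right _ hbig
      _ = A := by rw [← pow_add, hAdef]; congr 1; omega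
  have h2 : 10 ^ 16 * (t₀ ^ 2 * ((s + 1) * H)) ≤ u := by
    calc 10 ^ 16 * (t₀ ^ 2 * ((s + 1) * H)) = 10 ^ 16 * Kc * t₀ ^ 2 * (s + 1) ^ 6 * A := by
          rw [hH]; ring
      _ ≤ u := hA
  have ht1 : 1 ≤ t₀ ^ 2 := Nat.one_le_pow _ _ (by omega)
  have hsH : (s + 1) * H ≤ t₀ ^ 2 * ((s + 1) * H) := Nat.le_mul_of_pos_left _ ht1
  have hHs : H ≤ (s + 1) * H := Nat.le_mul_of_pos_left _ (by omega)
  have hu0 : 0 < u := by omega
  set η := u / (160 * t₀) with hη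
  have hη1 : u < 160 * t₀ * (η + 1) := div_lt (by omega)
  have hη2 : 160 * t₀ * η ≤ u := mul_div_le'
  set J := u / (16 * t₀) with hJ
  have hJ1 : u < 16 * t₀ * (J + 1) := div_lt (by omega)
  have hJ2 : 16 * t₀ * J ≤ u := mul_div_le'
  -- exceptional sets
  have hNP : ∀ b, ∀ g, g ∉ B b → (NP κ U ρ b s g).card ≤ 2 * R := fun b g hg =>
    NP_le' hκ hl1 hL hBB hTS (by have := hB b; omega) hg
  have hT : ∀ b, ∃ T ⊆ U, (∀ x ∈ T, Typ κ U b (B b) H x) ∧
      (U \ T).card * H ≤ u * (M * (2 * R)) := by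
    intro b
    refine card_not_typ hκ hTS.touch (N := NP κ U ρ b s) (hNP b) ?_
    intro g hg x hx hxN
    refine mass_le' hκ hl1 hL hBB hx ?_
    by_contra hcon
    exact hxN (mem_NP.mpr ⟨hx, hcon⟩)
  choose T hTU hTtyp hTc using hT
  have hTc' : ∀ b, 500000 * (t₀ ^ 2 * (U \ T b).card) ≤ u := fun b =>
    num1 (hTc b) h1 hAH hH0
  have hN : ∀ b, ∃ N ⊆ U, (∀ x ∈ N, Nice κ U b (B b) η x) ∧
      (U \ N).card * (η + 1) ≤ u * ((B b).card * H) + (U \ T (!b)).card * u := fun b =>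
    card_not_nice hκ (hdisj b) (hTtyp (!b))
  choose N hNU hNnice hNc using hN
  have hNc' : ∀ b, 100 * (t₀ * (U \ N b).card) ≤ u := fun b =>
    num2 (hNc b) (hB b) hη1 (hTc' (!b)) h2 hu0
  set V := U.filter (fun x => (∀ b, x ∈ T b) ∧ ∀ b, x ∈ N b) with hV
  have hVU : V ⊆ U := Finset.filter_subset _ _
  have hVc : 4 * (t₀ * u) ≤ 4 * (t₀ * V.card) + u := by
    have hsub : U ⊆ V ∪ ((U \ T true) ∪ ((U \ T false) ∪ ((U \ N true) ∪ (U \ N false)))) := by
      intro x hx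
      by_contra hcon
      simp only [Finset.mem_union, Finset.mem_sdiff, not_or, not_and, not_not, hV,
        Finset.mem_filter] at hcon
      obtain ⟨hc1, hc2, hc3, hc4, hc5⟩ := hcon
      apply hc1 hx
      · intro b; cases b
        · exact hc3 hx
        · exact hc2 hx
      · intro b; cases b
        · exact hc5 hx
        · exact hc4 hx
    have h3 : u ≤ V.card + ((U \ T true).card + ((U \ T false).card + ((U \ N true).card +
        (U \ N false).card))) := by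
      refine (Finset.card_le_card hsub).trans ?_
      refine (Finset.card_union_le _ _).trans (Nat.add_le_add_left ?_ _)
      refine (Finset.card_union_le _ _).trans (Nat.add_le_add_left ?_ _)
      refine (Finset.card_union_le _ _).trans (Nat.add_le_add_left ?_ _)
      exact Finset.card_union_le _ _
    have h4 := Nat.mul_le_mul_left t₀ h3
    simp only [mul_add] at h4
    have h5 : ∀ b, t₀ * (U \ T b).card ≤ t₀ ^ 2 * (U \ T b).card := fun b =>
      Nat.mul_le_mul_right _ (Nat.le_self_pow (by norm_num) _)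
    have h6 := h5 true
    have h7 := h5 false
    have h8 := hTc' true
    have h9 := hTc' false
    have h10 := hNc' true
    have h11 := hNc' false
    omega
  -- blocks
  have ht0 : 0 < t₀ := by omega
  have huA : 10 ^ 16 * (t₀ ^ 2 * H) ≤ u := by
    refine le_trans (Nat.mul_le_mul_left _ (Nat.mul_le_mul_left _ hHs)) h2
  have huA' : 10 ^ 16 * A ≤ u := by
    refine le_trans (Nat.mul_le_mul_left _ ?_) huA
    exact hAH.trans (Nat.le_mul_of_pos_left _ ht1)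
  have h8J : 8 * J ≤ V.card := by
    have h3 : t₀ * (8 * J) ≤ t₀ * V.card := by
      have h4 : 16 * t₀ * J = 2 * (t₀ * (8 * J)) := by ring
      have h5 : u ≤ t₀ * u := Nat.le_mul_of_pos_left _ ht0
      omega
    exact Nat.le_of_mul_le_mul_left h3 ht0
  obtain ⟨I, hIV, hIJ, hVI, hord⟩ := exists_blocks V J h8J
  have hIU : ∀ i, I i ⊆ U := fun i => (hIV i).trans hVU
  have hTy : ∀ i, ∀ x ∈ I i, ∀ b, Typ κ U b (B b) H x := fun i x hx b =>
    hTtyp b x ((Finset.mem_filter.mp (hIV i hx)).2.1 b)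
  have hNi : ∀ i, ∀ x ∈ I i, ∀ b, Nice κ U b (B b) η x := fun i x hx b =>
    hNnice b x ((Finset.mem_filter.mp (hIV i hx)).2.2 b)
  -- numerics for `J`
  have hJbig : 10 ^ 13 * (t₀ * ((s + 1) * H)) ≤ J := by
    have h3 : 16 * t₀ * (10 ^ 13 * (t₀ * ((s + 1) * H))) ≤ 16 * t₀ * J := by
      have h4 : 16 * t₀ * (10 ^ 13 * (t₀ * ((s + 1) * H))) =
        16 * 10 ^ 13 * (t₀ ^ 2 * ((s + 1) * H)) := by ring
      have h5 : 16 * t₀ * (J + 1) = 16 * t₀ * J + 16 * t₀ := by ring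
      have h6 : t₀ ≤ t₀ ^ 2 := Nat.le_self_pow (by norm_num) _
      have h7 : t₀ ^ 2 ≤ t₀ ^ 2 * ((s + 1) * H) := Nat.le_mul_of_pos_right _ (by omega)
      omega
    exact Nat.le_of_mul_le_mul_left h3 (by omega)
  have htH : (s + 1) * H ≤ t₀ * ((s + 1) * H) := Nat.le_mul_of_pos_left _ ht0
  have hMR : 10 ^ 6 * (M * ((s + 1) ^ 2 * R)) ≤ H := by
    calc 10 ^ 6 * (M * ((s + 1) ^ 2 * R)) = 10 ^ 6 * (1 * (s + 1) ^ 2 * (M * R)) := by ring
      _ ≤ 10 ^ 6 * (t₀ ^ 2 * (s + 1) ^ 2 * (M * R)) := by gcongr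
      _ ≤ H := h1.trans hAH
  have hMR' : M * R ≤ M * ((s + 1) ^ 2 * R) :=
    Nat.mul_le_mul_left _ (Nat.le_mul_of_pos_left _ (by positivity))
  have hnumC : 2 * (5 * s * H + M * (2 * R)) ≤ J := by
    have h3 : s * H ≤ (s + 1) * H := Nat.mul_le_mul_right _ (by omega)
    have h4 : 2 * (5 * s * H + M * (2 * R)) = 10 * (s * H) + 4 * (M * R) := by ring
    omega
  have hJ0 : 0 < J := by omega
  set m := 768 * 4000 ^ 3 * t₀ with hm
  have hnumM : (9 * m + 4 * (5 * s) + 3) * H + 2 * η < J := by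
    have h3 : 160 * t₀ * ((9 * m + 4 * (5 * s) + 3) * H + 2 * η) < 160 * t₀ * J := by
      have h4 : 160 * t₀ * ((9 * m + 4 * (5 * s) + 3) * H + 2 * η) ≤
          160 * (t₀ ^ 2 * (442368000000003 * ((s + 1) * H))) + 2 * u := by
        have h5 : (9 * m + 4 * (5 * s) + 3) * H ≤ t₀ * (442368000000003 * ((s + 1) * H)) := by
          have h6 : 9 * m + 4 * (5 * s) + 3 ≤ t₀ * (442368000000003 * (s + 1)) := by
            have h7 : s ≤ t₀ * s := Nat.le_mul_of_pos_left _ ht0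
            have h8 : t₀ * (442368000000003 * (s + 1)) =
              442368000000003 * (t₀ * s) + 442368000000003 * t₀ := by ring
            omega
          calc _ ≤ t₀ * (442368000000003 * (s + 1)) * H := Nat.mul_le_mul_right _ h6
            _ = _ := by ring
        calc 160 * t₀ * ((9 * m + 4 * (5 * s) + 3) * H + 2 * η)
            = 160 * t₀ * ((9 * m + 4 * (5 * s) + 3) * H) + 2 * (160 * t₀ * η) := by ring
          _ ≤ 160 * t₀ * (t₀ * (442368000000003 * ((s + 1) * H))) + 2 * u :=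
            Nat.add_le_add (Nat.mul_le_mul_left _ h5) (Nat.mul_le_mul_left _ hη2)
          _ = _ := by ring
      have h5 : 160 * t₀ * J + 160 * t₀ = 10 * (16 * t₀ * (J + 1)) := by ring
      have h6 : t₀ ≤ t₀ ^ 2 := Nat.le_self_pow (by norm_num) _
      have h7 : t₀ ^ 2 ≤ t₀ ^ 2 * ((s + 1) * H) := Nat.le_mul_of_pos_right _ (by omega)
      have h8 : 160 * (t₀ ^ 2 * (442368000000003 * ((s + 1) * H))) =
        70778880000000480 * (t₀ ^ 2 * ((s + 1) * H)) := by ring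
      omega
    exact Nat.lt_of_mul_lt_mul_left h3
  -- clusters
  have c0 : (I 0).card = J := hIJ 0 (by omega) (by omega)
  have c1 : (I 1).card = J := hIJ 1 (by omega) (by omega)
  have c2 : (I 2).card = J := hIJ 2 (by omega) (by omega)
  have c3 : (I 3).card = J := hIJ 3 (by omega) (by omega)
  have c5 : (I 5).card = J := hIJ 5 (by omega) (by omega)
  have c6 : (I 6).card = J := hIJ 6 (by omega) (by omega)
  have c7 : (I 7).card = J := hIJ 7 (by omega) (by omega)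
  have c8 : (I 8).card = J := hIJ 8 (by omega) (by omega)
  obtain ⟨XE, hXE, hXEc, tE⟩ := cluster (b := true) (s := s) (H := H) (τ₀ := 2 * R)
    (b₀ := 5 * s) (I₀ := I 0) (I₁ := I 1) hκ hTS.disjB (hB true) hTS.touch (hIU 0) (hIU 1)
    (fun x hx y hy => by simpa using hord 0 1 (by omega) (by omega) x hx y hy)
    (fun y hy => hTy 1 y hy _) (hNP true) (by rw [c0]; exact hnumC) (by rw [c0]; exact hJ0)
  obtain ⟨XL, hXL, hXLc, tL⟩ := cluster (b := false) (s := s) (H := H) (τ₀ := 2 * R)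
    (b₀ := 5 * s) (I₀ := I 8) (I₁ := I 7) hκ hTS.disjB (hB false) hTS.touch (hIU 8) (hIU 7)
    (fun x hx y hy => by simpa using hord 7 8 (by omega) (by omega) y hy x hx)
    (fun y hy => hTy 7 y hy _) (hNP false) (by rw [c8]; exact hnumC) (by rw [c8]; exact hJ0)
  rw [c1] at hXEc
  rw [c7] at hXLc
  -- matchings
  have mE : ∀ x ∈ XE, ∀ y ∈ I 4, Mat κ (B true ∪ B false) (I 2) (I 3) m x y := by
    intro x hx y hy Q hQ
    have hx1 := hXE hx
    exact matching (b := true) (H := H) (η := η) (J := J) (b₀ := 5 * s) hκ hTS.disjB hB (hIU 2)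
      (hIU 3) c2 c3 (hIU 4 hy)
      (fun w hw => by simpa using hord 1 2 (by omega) (by omega) x hx1 w hw)
      (fun w hw w' hw' => by simpa using hord 2 3 (by omega) (by omega) w hw w' hw')
      (fun w hw => by simpa using hord 3 4 (by omega) (by omega) w hw y hy)
      (hTy 1 x hx1 _) (hNi 1 x hx1 _) (hTy 4 y hy _) (hNi 4 y hy _)
      (fun w hw => hTy 2 w hw _) (fun w hw => hTy 3 w hw _) hnumM Q hQ
  have mL : ∀ x ∈ XL, ∀ y ∈ I 4, Mat κ (B true ∪ B false) (I 6) (I 5) m x y := by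
    intro x hx y hy Q hQ
    have hx1 := hXL hx
    exact matching (b := false) (H := H) (η := η) (J := J) (b₀ := 5 * s) hκ hTS.disjB hB (hIU 6)
      (hIU 5) c6 c5 (hIU 4 hy)
      (fun w hw => by simpa using hord 6 7 (by omega) (by omega) w hw x hx1)
      (fun w hw w' hw' => by simpa using hord 5 6 (by omega) (by omega) w' hw' w hw)
      (fun w hw => by simpa using hord 4 5 (by omega) (by omega) y hy w hw)
      (hTy 7 x hx1 _) (hNi 7 x hx1 _) (hTy 4 y hy _) (hNi 4 y hy _)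
      (fun w hw => hTy 6 w hw _) (fun w hw => hTy 5 w hw _) hnumM Q hQ
  have mLE : ∀ x ∈ XL, ∀ y ∈ XE, Mat κ (B true ∪ B false) (I 6) (I 5) m x y := by
    intro x hx y hy Q hQ
    have hx1 := hXL hx
    have hy1 := hXE hy
    exact matching (b := false) (H := H) (η := η) (J := J) (b₀ := 5 * s) hκ hTS.disjB hB (hIU 6)
      (hIU 5) c6 c5 (hIU 1 hy1)
      (fun w hw => by simpa using hord 6 7 (by omega) (by omega) w hw x hx1)
      (fun w hw w' hw' => by simpa using hord 5 6 (by omega) (by omega) w' hw' w hw)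
      (fun w hw => by simpa using hord 1 5 (by omega) (by omega) y hy1 w hw)
      (hTy 7 x hx1 _) (hNi 7 x hx1 _) (hTy 1 y hy1 _) (hNi 1 y hy1 _)
      (fun w hw => hTy 6 w hw _) (fun w hw => hTy 5 w hw _) hnumM Q hQ
  -- sizes
  have hRJ : 32 * (M * ((s + 1) ^ 2 * R)) < J := by omega
  have bigX : ∀ X : Finset ℕ, J ≤ 2 * M * (s + 1) ^ 2 * X.card → 8 * R < X.card := by
    intro X hX
    by_contra hcon
    have h3 : 2 * M * (s + 1) ^ 2 * X.card ≤ 2 * M * (s + 1) ^ 2 * (8 * R) :=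
      Nat.mul_le_mul_left _ (Nat.le_of_not_lt hcon)
    have h4 : 2 * M * (s + 1) ^ 2 * (8 * R) = 16 * (M * ((s + 1) ^ 2 * R)) := by ring
    omega
  have bE := bigX XE hXEc
  have bL := bigX XL hXLc
  set e := (I 4).card / (8 * t₀) with he
  set q₁ := 288 * (ρ + 2 * s) / 4000 with hq₁
  have hI4 : V.card = (I 4).card + 8 * J := hVI
  have h4J : 4 * (t₀ * u) ≤ 4 * (t₀ * (I 4).card) + 3 * u := by
    rw [hI4, mul_add] at hVc
    have h3 : 4 * (t₀ * (8 * J)) = 2 * (16 * t₀ * J) := by ring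
    omega
  have hI40 : 0 < (I 4).card := by
    rcases Nat.eq_zero_or_pos (I 4).card with h0 | h0
    · rw [h0] at h4J
      have : 2 * u ≤ t₀ * u := Nat.mul_le_mul_right _ ht
      omega
    · exact h0
  obtain ⟨G, G', hG', hGd, hGB, WL, hWL, WE, hWE, cL, kL, kE, fL, fE, fLE, sWL, sWE⟩ :=
    reserve (κ := κ) (U := U) (ρ := ρ) (Cc := U.biUnion (Tch κ U)) (Bb := B true ∪ B false)
      (m := m) (t₀ := t₀) (T := ρ + 2 * s) (e := e) (q₁ := q₁) (XE := XE) (XL := XL) (I := I 4)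
      (J₁ := I 2) (J₂ := I 3) (J₃ := I 5) (J₄ := I 6) (KL := K false true) (KE := K true true)
      (fun x hx y hy hxy => Finset.mem_biUnion.mpr ⟨x, hx, mem_Tch.mpr ⟨y, hy, hxy.symm, rfl⟩⟩)
      (hXE.trans (hIU 1)) (hXL.trans (hIU 7)) (hIU 4) (hIU 2) (hIU 3) (hIU 5) (hIU 6)
      (fun x hx w hw => hord 1 2 (by omega) (by omega) x (hXE hx) w hw)
      (fun w hw w' hw' => hord 2 3 (by omega) (by omega) w hw w' hw')
      (fun w hw y hy => hord 3 4 (by omega) (by omega) w hw y hy)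
      (fun y hy w hw => hord 4 5 (by omega) (by omega) y hy w hw)
      (fun w hw w' hw' => hord 5 6 (by omega) (by omega) w hw w' hw')
      (fun w hw x hx => hord 6 7 (by omega) (by omega) w hw x (hXL hx))
      (fun y hy w hw => hord 1 5 (by omega) (by omega) y (hXE hy) w hw)
      mE mL mLE le_rfl (by omega) tL (by omega) (hTS.labcard false true) (hTS.labcard true true)
      hI40 (by omega) (by omega) (div_lt (by omega)) (div_lt (by omega))
  have hGB' : ∀ b, Disjoint (B b) G := by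
    intro b
    rw [Finset.disjoint_union_left] at hGB
    cases b
    · exact hGB.2
    · exact hGB.1
  have hq₁' : 4000 * q₁ ≤ 288 * (ρ + 2 * s) := mul_div_le'
  obtain ⟨U', hU', ρ', B', K', hTS', r1, r2, r3, r4, r5⟩ :=
    stage_core (s := s) (q₁ := q₁) (e := e) (XE := XE) (XL := XL) (I := I 4) (G := G) (G' := G')
      hκ hl1 hL hBB hTS hG' hGd hGB' (hXE.trans (hIU 1)) (hXL.trans (hIU 7)) (hIU 4) tE
      hWL hWE cL kL kE fL fE fLE sWL sWE (by rw [← hR]; omega) (by rw [← hR]; omega)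
      (by omega) (by omega)
  refine ⟨U', hU', ρ', B', K', hTS', by omega, r2, by omega, ?_⟩
  -- final inequality
  have he2 : 8 * t₀ * e ≤ (I 4).card := mul_div_le'
  set L := l ^ (ρ - ρ') * U'.card with hLdef
  have f1 : 4 * t₀ * (I 4).card ≤ 4 * t₀ * L + (I 4).card := by
    have h3 := Nat.mul_le_mul_left (4 * t₀) r4
    have h4 : 4 * t₀ * (L + 2 * e) = 4 * t₀ * L + 8 * t₀ * e := by ring
    omega
  have f2 : (t₀ - 1) * u ≤ t₀ * L := by
    obtain ⟨t, rfl⟩ : ∃ t, t₀ = t + 1 := ⟨t₀ - 1, by omega⟩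
    simp only [Nat.add_sub_cancel]
    have h3 : 4 * t * u + u ≤ 4 * (t + 1) * (I 4).card := by
      have h4 : 4 * ((t + 1) * u) = 4 * t * u + 4 * u := by ring
      have h5 : 4 * ((t + 1) * (I 4).card) = 4 * (t + 1) * (I 4).card := by ring
      omega
    have h4 : (4 * t + 3) * (I 4).card ≤ 4 * (t + 1) * L := by
      have h5 : 4 * (t + 1) * (I 4).card = (4 * t + 3) * (I 4).card + (I 4).card := by ring
      omega
    have h5 : (16 * (t + 1)) * (t * u) ≤ (16 * (t + 1)) * ((t + 1) * L) := by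
      calc (16 * (t + 1)) * (t * u) ≤ (4 * t + 3) * (4 * t * u + u) := by
            have h6 : (4 * t + 3) * (4 * t * u + u) = (16 * (t + 1)) * (t * u) + 3 * u := by ring
            omega
        _ ≤ (4 * t + 3) * (4 * (t + 1) * (I 4).card) := Nat.mul_le_mul_left _ h3
        _ = 4 * (t + 1) * ((4 * t + 3) * (I 4).card) := by ring
        _ ≤ 4 * (t + 1) * (4 * (t + 1) * L) := Nat.mul_le_mul_left _ h4
        _ = _ := by ring
    exact Nat.le_of_mul_le_mul_left h5 (by omega)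
  calc (t₀ - 1) * u * l ^ ρ' ≤ t₀ * L * l ^ ρ' := Nat.mul_le_mul_right _ f2
    _ = t₀ * U'.card * (l ^ (ρ - ρ') * l ^ ρ') := by rw [hLdef]; ring
    _ = t₀ * U'.card * A := by rw [← pow_add, hAdef]; congr 2; omega

end FlashRainbow.PL
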