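import Pool.Agent.Work.MP_54723a_co.PL.LemE

/-!
# The deterministic core of the stage lemma
-/

set_option autoImplicit false

namespace FlashRainbow.PL

variable {κ : ℕ → ℕ → ℕ} {b : Bool} {U W : Finset ℕ} {ρ l M : ℕ} {lev : ℕ → ℕ → ℕ}

/-- `y` is reached from `z` in direction `b` through the reserve `G`, in two disjoint ways -/
def Rch (κ : ℕ → ℕ → ℕ) (U : Finset ℕ) (ρ : ℕ) (G : Finset ℕ) (G' : Bool → Finset ℕ) (b : Bool)
    (z y : ℕ) : Prop :=
  ∀ j, ∃ D : Finset ℕ, D ⊆ G' j ∧ D.card = 3 ∧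
    ∀ P : Finset ℕ, PI κ U ρ b z P → Disjoint P G → PI κ U ρ b y (P ∪ D)

/-- the bound `β` in the form used below -/
private theorem beta_le' (hl : 1 ≤ l) {Kc i j t : ℕ} (h1 : j ≤ ρ) (h2 : i + j ≤ t) :
    l ^ i * (Kc * (j + 1) ^ 5 * l ^ j) ≤ Kc * (ρ + 1) ^ 5 * l ^ t := by
  calc l ^ i * (Kc * (j + 1) ^ 5 * l ^ j) = Kc * (j + 1) ^ 5 * l ^ (i + j) := by
        rw [pow_add]; ring
    _ ≤ Kc * (ρ + 1) ^ 5 * l ^ t :=
      Nat.mul_le_mul (Nat.mul_le_mul_left _ (Nat.pow_le_pow_left (by omega) _))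
        (Nat.pow_le_pow_right hl h2)

/-- Step F11: the palette `P⁺` is almost completely visible at most vertices of `XE`. -/
theorem few_invisible (hκ : ∀ x y, κ x y = κ y x) (hl : 1 ≤ l) (hL : LevS κ U l lev) {Kc : ℕ}
    (hBB : BB κ U (fun j => Kc * (j + 1) ^ 5 * l ^ j)) (hM : ∀ v ∈ U, (Tch κ U v).card ≤ M)
    {XE Z P : Finset ℕ} {s : ℕ} (hXE : XE ⊆ U) (hZ : Z ⊆ XE)
    (hinv : ∀ y ∈ Z, s ≤ (P \ Tch κ XE y).card)
    (hlab : ∀ y ∈ Z, ∃ D : Finset ℕ, D.card = 3 ∧ Disjoint P D ∧ PI κ U ρ b y (P ∪ D)) :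
    Z.card ≤ (4 * (M + 1) * l) ^ 3 * (Kc * (ρ + 1) ^ 5 * l ^ (ρ - s)) := by
  classical
  rcases Z.eq_empty_or_nonempty with rfl | ⟨y₀, hy₀⟩
  · simp
  have hZU : Z ⊆ U := hZ.trans hXE
  obtain ⟨D₀, hD₀, hdisj₀, hpi₀⟩ := hlab y₀ hy₀
  have hcard0 : P.card + 3 ≤ ρ := by
    have := hpi₀.card_le (hZU hy₀)
    rwa [Finset.card_union_of_disjoint hdisj₀, hD₀] at this
  have hsP : s ≤ P.card := (hinv y₀ hy₀).trans (Finset.card_le_card Finset.sdiff_subset)
  choose! K hK1 hK2 hK3 using hlab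
  -- levels for `P`
  have hq : ∀ v ∈ Z, (P ∩ Tch κ Z v).card ≤ P.card - s := by
    intro v hv
    have h1 := hinv v hv
    have h2 : (P \ Tch κ XE v).card ≤ (P \ Tch κ Z v).card :=
      Finset.card_le_card (Finset.sdiff_subset_sdiff (Finset.Subset.refl _) (Tch_mono hZ v))
    have h3 := Finset.card_inter_add_card_sdiff P (Tch κ Z v)
    omega
  obtain ⟨Z1, hZ1, hfree1, hc1⟩ := level_free hκ hl (hL.mono hZU) (S := P) (q := P.card - s) hq
  have hZ1U : Z1 ⊆ U := hZ1.trans hZU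
  obtain ⟨Z2, hZ2, hc2, hfree2⟩ := ctrick_labels hκ hl (hL.mono hZ1U) (M := M)
    (fun v hv => (Finset.card_le_card (Tch_mono hZ1U v)).trans (hM v (hZ1U hv))) 3 K
    (fun v hv => (hK1 v (hZ1 hv)).le)
  have hZ2U : Z2 ⊆ U := hZ2.trans hZ1U
  have hrank : Rnk κ Z2 (ρ - P.card - 3) := by
    refine Rnk_of_PI hκ (ρ := ρ) (b := b) hZ2U ?_
    intro x hx
    have hxZ : x ∈ Z := hZ1 (hZ2 hx)
    refine ⟨P ∪ K x, hK3 x hxZ, (hfree1.mono hZ2 (Finset.Subset.refl _)).union (hfree2 x hx), ?_⟩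
    rw [Finset.card_union_of_disjoint (hK2 x hxZ), hK1 x hxZ]
    omega
  have hc3 := hBB Z2 hZ2U _ hrank
  calc Z.card ≤ l ^ (P.card - s) * Z1.card := hc1
    _ ≤ l ^ (P.card - s) * ((4 * (M + 1) * l) ^ 3 * Z2.card) := Nat.mul_le_mul_left _ hc2
    _ ≤ l ^ (P.card - s) * ((4 * (M + 1) * l) ^ 3 *
          (Kc * (ρ - P.card - 3 + 1) ^ 5 * l ^ (ρ - P.card - 3))) :=
        Nat.mul_le_mul_left _ (Nat.mul_le_mul_left _ hc3)
    _ = (4 * (M + 1) * l) ^ 3 * (l ^ (P.card - s) *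
          (Kc * (ρ - P.card - 3 + 1) ^ 5 * l ^ (ρ - P.card - 3))) := by ring
    _ ≤ (4 * (M + 1) * l) ^ 3 * (Kc * (ρ + 1) ^ 5 * l ^ (ρ - s)) :=
        Nat.mul_le_mul_left _ (beta_le' hl (by omega) (by omega))

/-- The deterministic core of the stage lemma. -/
theorem stage_core (hκ : ∀ x y, κ x y = κ y x) (hl : 1 ≤ l) (hL : LevS κ U l lev) {Kc : ℕ}
    (hBB : BB κ U (fun j => Kc * (j + 1) ^ 5 * l ^ j))
    {B : Bool → Finset ℕ} {K : Bool → Bool → ℕ → Finset ℕ} (hTS : TS κ M U ρ B K)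
    {s q₁ e : ℕ} {XE XL I G : Finset ℕ} {G' : Bool → Finset ℕ}
    (hG' : ∀ j, G' j ⊆ G) (hGd : Disjoint (G' true) (G' false)) (hGB : ∀ b, Disjoint (B b) G)
    (hXE : XE ⊆ U) (hXL : XL ⊆ U) (hI : I ⊆ U) (tE : ∀ v ∈ XE, (Tch κ XE v).card ≤ ρ + 2 * s)
    {WL WE : Finset ℕ} (hWL : WL ⊆ XL) (hWE : WE ⊆ XE)
    (cL : ∀ x ∈ WL, (G ∩ Tch κ XL x).card ≤ q₁) (kL : ∀ x ∈ WL, Disjoint (K false true x) G)
    (kE : ∀ x ∈ WE, Disjoint (K true true x) G)
    (fL : ∀ x ∈ WL, ∃ N ⊆ I, N.card ≤ e ∧ ∀ y ∈ I, y ∉ N → Rch κ U ρ G G' false x y)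
    (fE : ∀ x ∈ WE, ∃ N ⊆ I, N.card ≤ e ∧ ∀ y ∈ I, y ∉ N → Rch κ U ρ G G' true x y)
    (fLE : ∀ x ∈ WL, ∃ N ⊆ XE, 8 * N.card ≤ XE.card ∧
      ∀ y ∈ XE, y ∉ N → Rch κ U ρ G G' false x y)
    (sWL : XL.card ≤ 2 * WL.card) (sWE : 3 * XE.card ≤ 4 * WE.card)
    (bigL : 2 * ((4 * (M + 1) * l) ^ 3 * (Kc * (ρ + 1) ^ 5 * l ^ (ρ - s))) < XL.card)
    (bigE : 8 * ((4 * (M + 1) * l) ^ 3 * (Kc * (ρ + 1) ^ 5 * l ^ (ρ - s))) < XE.card)
    (hn1 : q₁ + (B false).card + s ≤ ρ) (hn2 : q₁ + 5 * s + (B true).card ≤ ρ) :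
    ∃ U' ⊆ U, ∃ ρ' B' K', TS κ M U' ρ' B' K' ∧ ρ' ≤ q₁ + 5 * s + (B true).card ∧
      (B' true).card ≤ (B true).card + 3 ∧ (B' false).card ≤ 4 * s + (B true).card ∧
      I.card ≤ l ^ (ρ - ρ') * U'.card + 2 * e ∧ ρ' ≤ ρ := by
  classical
  set Λ := (4 * (M + 1) * l) ^ 3 with hΛ
  -- F10
  obtain ⟨x', hx', x₀', hx₀', D', hD'c, hD'G, hD'B, hD'K, hD'col, hP'⟩ :=
    lemE (b := false) (W := WL) (S := G) (B := B false) (K := K false true) (q := q₁)
      (r := ρ - q₁ - (B false).card - s) hκ hl hL hBB hTS.touch (hWL.trans hXL)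
      (fun x _ => hTS.labcard _ _ x) (fun x hx => hTS.pi false true x (hXL (hWL hx)))
      (fun x hx => (Finset.card_le_card (Finset.inter_subset_inter (Finset.Subset.refl _)
        (Tch_mono hWL x))).trans (cL x hx)) (by
        have h1 := beta_le' (ρ := ρ) (Kc := Kc) hl (i := q₁ + (B false).card)
          (j := ρ - q₁ - (B false).card - s) (t := ρ - s) (by omega) (by omega)
        have h2 := Nat.mul_le_mul_left Λ h1
        rw [← hΛ, mul_assoc]
        omega)
  set P' := B false ∪ K false true x₀' ∪ D' with hP'def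
  have hP'G : Disjoint P' G := by
    rw [hP'def, Finset.disjoint_union_left, Finset.disjoint_union_left]
    exact ⟨⟨hGB false, kL x₀' hx₀'⟩, hD'G⟩
  have hx'U : x' ∈ U := hXL (hWL hx')
  have hP'le : P'.card ≤ ρ := hP'.card_le hx'U
  have hP'ge : ρ + 1 ≤ P'.card + q₁ + s := by
    have h1 : (B false ∪ D').card ≤ P'.card := Finset.card_le_card (by
      rw [hP'def]
      intro g hg
      rcases Finset.mem_union.mp hg with h | h
      · exact Finset.mem_union_left _ (Finset.mem_union_left _ h)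
      · exact Finset.mem_union_right _ h)
    rw [Finset.card_union_of_disjoint hD'B.symm, hD'c] at h1
    omega
  -- F11
  obtain ⟨N1, hN1, hN1c, hN1r⟩ := fLE x' hx'
  set XE2 := WE \ N1 with hXE2
  have hXE2c : WE.card ≤ XE2.card + N1.card := by
    rw [hXE2]
    have := Finset.le_card_sdiff N1 WE
    omega
  set Z := XE2.filter (fun y => s ≤ (P' \ Tch κ XE y).card) with hZ
  have hXE2sub : XE2 ⊆ XE := Finset.sdiff_subset.trans hWE
  have hZc : Z.card ≤ Λ * (Kc * (ρ + 1) ^ 5 * l ^ (ρ - s)) := by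
    refine few_invisible (b := false) (P := P') hκ hl hL hBB hTS.touch hXE
      ((Finset.filter_subset _ _).trans hXE2sub) (fun y hy => (Finset.mem_filter.mp hy).2) ?_
    intro y hy
    have hy2 := (Finset.mem_filter.mp hy).1
    have hyXE := hXE2sub hy2
    obtain ⟨D, hD1, hD2, hD3⟩ := hN1r y hyXE (Finset.mem_sdiff.mp hy2).2 true
    exact ⟨D, hD2, (hP'G.mono_right (hD1.trans (hG' true))), hD3 P' hP' hP'G⟩
  set W := XE2 \ Z with hW
  have hWc : XE2.card ≤ W.card + Z.card := by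
    rw [hW]
    have := Finset.le_card_sdiff Z XE2
    omega
  have hWsub : W ⊆ XE := Finset.sdiff_subset.trans hXE2sub
  have hWWE : W ⊆ WE := Finset.sdiff_subset.trans Finset.sdiff_subset
  set C := U.biUnion (Tch κ U) with hC
  have hvis : ∀ x ∈ W, P'.card < (P' ∩ Tch κ XE x).card + s := by
    intro x hx
    have h1 : ¬ s ≤ (P' \ Tch κ XE x).card := by
      intro h
      have hx1 := Finset.mem_sdiff.mp hx
      exact hx1.2 (Finset.mem_filter.mpr ⟨hx1.1, h⟩)
    have h3 := Finset.card_inter_add_card_sdiff P' (Tch κ XE x)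
    omega
  have hW0 : Λ * (Kc * (ρ + 1) ^ 5 * l ^ (ρ - s)) < W.card := by omega
  -- F12
  obtain ⟨x, hx, x₀, hx₀, D, hDc, hDS, hDB, hDK, hDcol, hP⟩ :=
    lemE (b := true) (W := W) (S := C \ P') (B := B true) (K := K true true)
      (q := ρ + 3 * s - P'.card) (r := P'.card - 4 * s - (B true).card) hκ hl hL hBB hTS.touch
      (hWsub.trans hXE) (fun x _ => hTS.labcard _ _ x)
      (fun x hx => hTS.pi true true x (hXE (hWsub hx)))
      (fun x hx => by
        have h1 := hvis x hx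
        have h2 := tE x (hWsub hx)
        have h3 : ((C \ P') ∩ Tch κ W x).card ≤ (Tch κ XE x \ P').card := by
          refine Finset.card_le_card ?_
          intro g hg
          have hg1 := Finset.mem_inter.mp hg
          exact Finset.mem_sdiff.mpr ⟨Tch_mono hWsub x hg1.2, (Finset.mem_sdiff.mp hg1.1).2⟩
        have h4 := Finset.card_inter_add_card_sdiff (Tch κ XE x) P'
        rw [Finset.inter_comm] at h4
        omega) (by
        have h1 := beta_le' (ρ := ρ) (Kc := Kc) hl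
          (i := ρ + 3 * s - P'.card + (B true).card)
          (j := P'.card - 4 * s - (B true).card) (t := ρ - s) (by omega) (by omega)
        have h2 := Nat.mul_le_mul_left Λ h1
        rw [← hΛ, mul_assoc]
        omega)
  set P := B true ∪ K true true x₀ ∪ D with hPdef
  have hDP' : D ⊆ P' := by
    intro g hg
    by_contra hcon
    have h1 : g ∈ C \ P' := Finset.mem_sdiff.mpr ⟨hDcol hg, hcon⟩
    exact (Finset.disjoint_left.mp hDS hg) h1
  have hPG : Disjoint P G := by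
    rw [hPdef, Finset.disjoint_union_left, Finset.disjoint_union_left]
    exact ⟨⟨hGB true, kE x₀ (hWWE hx₀)⟩, hP'G.mono_left hDP'⟩
  have hxWE : x ∈ WE := hWWE hx
  obtain ⟨N2, hN2, hN2c, hN2r⟩ := fE x hxWE
  obtain ⟨N3, hN3, hN3c, hN3r⟩ := fL x' hx'
  set Y := (I \ N2) \ N3 with hY
  have hYc : I.card ≤ Y.card + 2 * e := by
    have h1 := Finset.le_card_sdiff N2 I
    have h2 := Finset.le_card_sdiff N3 (I \ N2)
    rw [hY]
    omega
  have hYI : Y ⊆ I := Finset.sdiff_subset.trans Finset.sdiff_subset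
  have hYU : Y ⊆ U := hYI.trans hI
  have hr1 : ∀ y ∈ Y, Rch κ U ρ G G' true x y := by
    intro y hy
    have h1 := (Finset.mem_sdiff.mp hy).1
    exact hN2r y (Finset.mem_sdiff.mp h1).1 (Finset.mem_sdiff.mp h1).2
  have hr2 : ∀ y ∈ Y, Rch κ U ρ G G' false x' y := by
    intro y hy
    exact hN3r y (hYI hy) (Finset.mem_sdiff.mp hy).2
  -- F14
  set E := P ∩ P' with hE
  obtain ⟨U', hU'Y, hU'free, hU'c⟩ := level_free hκ hl (hL.mono hYU) (S := E) (q := E.card)
    (fun v _ => Finset.card_le_card Finset.inter_subset_left)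
  have hU'U : U' ⊆ U := hU'Y.trans hYU
  have hEρ : E.card ≤ ρ := (Finset.card_le_card Finset.inter_subset_right).trans hP'le
  have hDE : D ⊆ E := fun g hg => Finset.mem_inter.mpr ⟨by
    rw [hPdef]; exact Finset.mem_union_right _ hg, hDP' hg⟩
  have hEge : D.card ≤ E.card := Finset.card_le_card hDE
  -- labels
  have hlab : ∀ b j, ∀ y ∈ U', ∃ D : Finset ℕ, D ⊆ G' j ∧ D.card = 3 ∧
      PI κ U ρ b y ((if b = true then P else P') ∪ D) := by
    intro b j y hy
    have hyY := hU'Y hy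
    cases b with
    | true =>
      obtain ⟨D, h1, h2, h3⟩ := hr1 y hyY j
      exact ⟨D, h1, h2, by simpa using h3 P hP hPG⟩
    | false =>
      obtain ⟨D, h1, h2, h3⟩ := hr2 y hyY j
      exact ⟨D, h1, h2, by simpa using h3 P' hP' hP'G⟩
  choose! Kn hKn1 hKn2 hKn3 using hlab
  set Pb : Bool → Finset ℕ := fun b => if b = true then P else P' with hPb
  have hEPb : ∀ b, E ⊆ Pb b := by
    intro b; cases b
    · exact Finset.inter_subset_right
    · exact Finset.inter_subset_left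
  have hPbG : ∀ b, Disjoint (Pb b) G := by
    intro b; cases b
    · exact hP'G
    · exact hPG
  refine ⟨U', hU'U, ρ - E.card, fun b => Pb b \ E,
    fun b j y => if y ∈ U' then Kn b j y else ∅, ?_, ?_, ?_, ?_, ?_, ?_⟩
  · refine ⟨?_, ?_, ?_, ?_, ?_⟩
    · intro v hv
      exact (Finset.card_le_card (Tch_mono hU'U v)).trans (hTS.touch v (hU'U hv))
    · rw [Finset.disjoint_left]
      intro g hg1 hg2
      have h1 := Finset.mem_sdiff.mp hg1
      have h2 := Finset.mem_sdiff.mp hg2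
      exact h1.2 (Finset.mem_inter.mpr ⟨by simpa [hPb] using h1.1, by simpa [hPb] using h2.1⟩)
    · intro b j y
      by_cases hy : y ∈ U'
      · simp only [hy, if_true]; exact (hKn2 b j y hy).le
      · simp [hy]
    · intro b y hy
      simp only [hy, if_true]
      exact (hGd.mono (hKn1 b true y hy) (hKn1 b false y hy))
    · intro b j y hy
      simp only [hy, if_true]
      have hKG : Kn b j y ⊆ G := (hKn1 b j y hy).trans (hG' j)
      refine PI.free (U := U) (ρ := ρ) (E := E) ?_ hU'U hU'free ?_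
      · have h1 := hKn3 b j y hy
        have h2 : E ∪ (Pb b \ E ∪ Kn b j y) = Pb b ∪ Kn b j y := by
          rw [← Finset.union_assoc, Finset.union_sdiff_of_subset (hEPb b)]
        rw [h2]
        exact h1
      · rw [Finset.disjoint_union_right]
        refine ⟨Finset.disjoint_sdiff, ?_⟩
        exact ((hPbG b).mono_left (hEPb b)).mono_right hKG
  · omega
  · have h1 : (Pb true \ E) ⊆ B true ∪ K true true x₀ := by
      intro g hg
      have hg1 := Finset.mem_sdiff.mp hg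
      have hg2 : g ∈ P := by simpa [hPb] using hg1.1
      rw [hPdef] at hg2
      rcases Finset.mem_union.mp hg2 with h | h
      · exact h
      · exact absurd (hDE h) hg1.2
    have h2 := Finset.card_le_card h1
    have h3 := Finset.card_union_le (B true) (K true true x₀)
    have h4 := hTS.labcard true true x₀
    show (Pb true \ E).card ≤ _
    omega
  · have h1 : (Pb false \ E).card + E.card = P'.card := by
      have := Finset.card_sdiff_add_card_eq_card (hEPb false)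
      simpa [hPb] using this
    show (Pb false \ E).card ≤ _
    omega
  · have h1 : ρ - (ρ - E.card) = E.card := by omega
    rw [h1]
    omega
  · omega

end FlashRainbow.PL
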